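import Mathlib

/-!
# Tau-symmetric deformations of the Riemann hierarchy: definitions

`DP` is the ring of differential polynomials in one function `u`, that is polynomials in
`u_1, u_2, ...` over the ring of formal power series in `u`; `DE` is the ring of formal power
series in a parameter over `DP`.
-/

noncomputable section

namespace Pool.Agent.H87.RH

open Finset

/-- differential polynomials: the variable `X n` stands for `u_(n+1)` -/
abbrev DP := MvPolynomial ℕ (PowerSeries ℂ)

/-- a complex number as a differential polynomial -/
def const (c : ℂ) : DP := MvPolynomial.C (PowerSeries.C c)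

/-- the differential variable `u_i`, with `u_0 = u` -/
def jet : ℕ → DP
  | 0 => MvPolynomial.C PowerSeries.X
  | i + 1 => MvPolynomial.X i

/-- partial derivative with respect to `u_i` -/
def part : ℕ → DP → DP
  | 0, f => ∑ m ∈ f.support, MvPolynomial.monomial m (PowerSeries.derivative ℂ (f.coeff m))
  | i + 1, f => MvPolynomial.pderiv i f

/-- total derivative: the sum of `u_(i+1)` times the partial derivative in `u_i` -/
def total (f : DP) : DP := ∑ᶠ i : ℕ, jet (i + 1) * part i f

/-- evolutionary derivation with characteristic `q`: the sum of the partial derivatives in `u_i`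
times the `i`-th total derivative of `q` -/
def evol (q f : DP) : DP := ∑ᶠ i : ℕ, part i f * total^[i] q

/-- variational derivative -/
def varder (f : DP) : DP := ∑ᶠ i : ℕ, const ((-1) ^ i) * total^[i] (part i f)

/-- power series in the deformation parameter -/
abbrev DE := PowerSeries DP

/-- coefficient of the `k`-th power of the parameter -/
def coef (k : ℕ) (F : DE) : DP := PowerSeries.coeff k F

/-- a differential polynomial as a power series in the parameter -/
def lift (f : DP) : DE := PowerSeries.C f

/-- total derivative, coefficientwise -/
def totalE (F : DE) : DE := PowerSeries.mk fun k => total (coef k F)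

/-- variational derivative, coefficientwise -/
def varderE (F : DE) : DE := PowerSeries.mk fun k => varder (coef k F)

/-- evolutionary derivation, extended bilinearly -/
def evolE (Q F : DE) : DE := PowerSeries.mk fun k =>
  ∑ p ∈ antidiagonal k, evol (coef p.1 Q) (coef p.2 F)

/-- homogeneous of degree `d`, where `u_n` has degree `n` and the parameter has degree `-1` -/
def HasDegree (d : ℕ) (F : DE) : Prop := ∀ k,
  MvPolynomial.IsWeightedHomogeneous (fun n : ℕ => n + 1) (coef k F) (k + d)

/-- the densities `F` and `H` define the same local functional: they agree up to a total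
derivative and constants -/
def SameFunctional (F H : DE) : Prop := ∀ k, ∃ (r : DP) (c : ℂ),
  coef k F = coef k H + total r + const c

/-- the flow with Hamiltonian density `H`, for the Poisson operator `∂_x` -/
def hamFlow (H : DE) : DE := totalE (varderE H)

/-- Poisson bracket of the density `F` with the functional of `H`, for the operator `∂_x` -/
def bracketE (F H : DE) : DE := evolE (hamFlow H) F

/-- `h 0 = u`, `h 1`, `h 2`, ... are tau-symmetric densities (indices shifted by one) of a
tau-symmetric deformation of the Riemann hierarchy with Poisson operator `∂_x` -/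
structure TauSymmetric (h : ℕ → DE) : Prop where
  start : h 0 = lift (jet 0)
  degree : ∀ d, HasDegree 0 (h d)
  leading : ∀ d, coef 0 (h d) = const ((d + 1).factorial : ℂ)⁻¹ * jet 0 ^ (d + 1)
  flow_degree : ∀ d, HasDegree 1 (hamFlow (h (d + 1)))
  flow_leading : ∀ d, coef 0 (hamFlow (h (d + 1))) =
    const (d.factorial : ℂ)⁻¹ * jet 0 ^ d * jet 1
  commute : ∀ p q, evolE (hamFlow (h (p + 1))) (hamFlow (h (q + 1))) =
    evolE (hamFlow (h (q + 1))) (hamFlow (h (p + 1)))
  involution : ∀ p q, SameFunctional (varderE (h p) * hamFlow (h q)) 0
  tau : ∀ p q, bracketE (h p) (h (q + 1)) = bracketE (h q) (h (p + 1))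
  translation : bracketE (h 0) (h 1) = lift (jet 1)
  casimir : bracketE (h 0) (h 0) = 0

/-- the partitions with all parts at least two, at least two parts, and the largest part
repeated -/
def Admissible {k : ℕ} (lam : k.Partition) : Prop :=
  (∀ i ∈ lam.parts, 2 ≤ i) ∧ ∃ m, 2 ≤ lam.parts.count m ∧ ∀ i ∈ lam.parts, i ≤ m

/-- the monomial `u_lam` -/
def jetMonomial {k : ℕ} (lam : k.Partition) : DP := (lam.parts.map jet).prod

open Classical in
/-- the coefficient of the `k`-th power of the parameter in the density of the generalized
standard form with constants `a` and `A` -/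
def standardCoef (a : ℂ) (A : (k : ℕ) → k.Partition → ℂ) (k : ℕ) : DP :=
  (if k = 0 then const 6⁻¹ * jet 0 ^ 3 else 0) + (if k = 2 then const a * jet 1 ^ 2 else 0) +
  ∑ lam : k.Partition, if Admissible lam then const (A k lam) * jetMonomial lam else 0

/-- standard form with constants `a` and `A` of the deformation with densities `h` -/
def IsStandardForm (h : ℕ → DE) (a : ℂ) (A : (k : ℕ) → k.Partition → ℂ) : Prop :=
  SameFunctional (h 2) (PowerSeries.mk (standardCoef a A)) ∧
  ∀ (k : ℕ) (lam : k.Partition), ¬ Admissible lam ∨ Odd k → A k lam = 0

/-- the partition of `2 g` with all parts equal to two -/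
def twos (g : ℕ) : (2 * g).Partition where
  parts := Multiset.replicate g 2
  parts_pos := by
    intro i hi
    rw [Multiset.eq_of_mem_replicate hi]
    norm_num
  parts_sum := by
    rw [Multiset.sum_replicate, smul_eq_mul, mul_comm]

end Pool.Agent.H87.RH
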