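import Pool.Agent.H87.Laurent

/-!
# Euler operator, adjoints, and the bracket of gradients
-/

noncomputable section

namespace Pool.Agent.H87

open Finset

/-- adjoint Frechet derivative of `f` applied to `b` -/
def adj (b f : LL) : LL :=
  ∑ j ∈ range (Classical.choose (exists_bound f)), (-1 : ℂ) ^ j • dx^[j] (pd j f * b)

/-- Euler operator (variational derivative) -/
def eul (f : LL) : LL := adj 1 f

theorem adj_eq (b f : LL) {M : ℕ} (hM : ∀ i, M ≤ i → pd i f = 0) :
    adj b f = ∑ j ∈ range M, (-1 : ℂ) ^ j • dx^[j] (pd j f * b) := by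
  have key : ∀ N K : ℕ, N ≤ K → (∀ i, N ≤ i → pd i f = 0) →
      ∑ j ∈ range K, (-1 : ℂ) ^ j • dx^[j] (pd j f * b) =
      ∑ j ∈ range N, (-1 : ℂ) ^ j • dx^[j] (pd j f * b) := by
    intro N K hNK hN
    symm
    apply Finset.sum_subset
    · intro j hj; rw [Finset.mem_range] at *; omega
    · intro j _ hj
      rw [Finset.mem_range, not_lt] at hj
      rw [hN j hj, zero_mul, dx_iter_zero, smul_zero]
  have hc := Classical.choose_spec (exists_bound f)
  rw [adj, ← key _ (max (Classical.choose (exists_bound f)) M) (le_max_left _ _) hc,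
    key _ (max (Classical.choose (exists_bound f)) M) (le_max_right _ _) hM]

theorem exists_bound₂ (f g : LL) : ∃ M : ℕ, (∀ i, M ≤ i → pd i f = 0) ∧
    (∀ i, M ≤ i → pd i g = 0) := by
  obtain ⟨M, hM⟩ := exists_bound f
  obtain ⟨N, hN⟩ := exists_bound g
  exact ⟨max M N, fun i hi => hM i (le_trans (le_max_left _ _) hi),
    fun i hi => hN i (le_trans (le_max_right _ _) hi)⟩

theorem adj_add_right (b f g : LL) : adj b (f + g) = adj b f + adj b g := by
  obtain ⟨M, hf, hg⟩ := exists_bound₂ f g
  rw [adj_eq b f hf, adj_eq b g hg, adj_eq b (f + g) (M := M)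
    (fun i hi => by rw [map_add, hf i hi, hg i hi, add_zero]), ← Finset.sum_add_distrib]
  apply Finset.sum_congr rfl
  intro j _
  rw [map_add, add_mul, dx_iter_add, smul_add]

theorem adj_smul_right (b : LL) (c : ℂ) (f : LL) : adj b (c • f) = c • adj b f := by
  obtain ⟨M, hf⟩ := exists_bound f
  rw [adj_eq b f hf, adj_eq b (c • f) (M := M)
    (fun i hi => by rw [Derivation.map_smul, hf i hi, smul_zero]), Finset.smul_sum]
  apply Finset.sum_congr rfl
  intro j _
  rw [Derivation.map_smul, smul_mul_assoc, dx_iter_smul, smul_comm]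

theorem adj_add_left (b c f : LL) : adj (b + c) f = adj b f + adj c f := by
  obtain ⟨M, hf⟩ := exists_bound f
  rw [adj_eq _ f hf, adj_eq _ f hf, adj_eq _ f hf, ← Finset.sum_add_distrib]
  apply Finset.sum_congr rfl
  intro j _
  rw [mul_add, dx_iter_add, smul_add]

theorem adj_smul_left (b : LL) (c : ℂ) (f : LL) : adj (c • b) f = c • adj b f := by
  obtain ⟨M, hf⟩ := exists_bound f
  rw [adj_eq _ f hf, adj_eq _ f hf, Finset.smul_sum]
  apply Finset.sum_congr rfl
  intro j _
  rw [mul_smul_comm, dx_iter_smul, smul_comm]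

theorem adj_zero_left (f : LL) : adj 0 f = 0 := by
  have := adj_smul_left 0 0 f
  simpa using this

theorem adj_zero_right (b : LL) : adj b 0 = 0 := by
  have := adj_smul_right b 0 0
  simpa using this

theorem adj_neg_left (b f : LL) : adj (-b) f = - adj b f := by
  have := adj_smul_left b (-1) f
  simpa using this

theorem adj_sum_left {ι : Type*} (s : Finset ι) (b : ι → LL) (f : LL) :
    adj (∑ i ∈ s, b i) f = ∑ i ∈ s, adj (b i) f := by
  classical
  induction s using Finset.induction_on with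
  | empty => simp [adj_zero_left]
  | insert a s ha ih => rw [Finset.sum_insert ha, Finset.sum_insert ha, adj_add_left, ih]

theorem adj_sum_right {ι : Type*} (s : Finset ι) (b : LL) (f : ι → LL) :
    adj b (∑ i ∈ s, f i) = ∑ i ∈ s, adj b (f i) := by
  classical
  induction s using Finset.induction_on with
  | empty => simp [adj_zero_right]
  | insert a s ha ih => rw [Finset.sum_insert ha, Finset.sum_insert ha, adj_add_right, ih]

theorem adj_mul (a b : LL) : adj 1 (a * b) = adj a b + adj b a := by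
  obtain ⟨M, ha, hb⟩ := exists_bound₂ a b
  rw [adj_eq _ b hb, adj_eq _ a ha, adj_eq _ (a * b) (M := M)
    (fun i hi => by rw [Derivation.leibniz, ha i hi, hb i hi, smul_zero, smul_zero, add_zero]),
    ← Finset.sum_add_distrib]
  apply Finset.sum_congr rfl
  intro j _
  rw [Derivation.leibniz, smul_eq_mul, smul_eq_mul, mul_one, dx_iter_add, smul_add,
    mul_comm a, mul_comm b]

theorem adj_dx (b a : LL) : adj b (dx a) = - adj (dx b) a := by
  obtain ⟨M, ha⟩ := exists_bound a
  have hM : ∀ i, M + 1 ≤ i → pd i (dx a) = 0 := by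
    intro i hi
    obtain ⟨k, rfl⟩ : ∃ k, i = k + 1 := ⟨i - 1, by omega⟩
    rw [pd_succ_dx, ha (k + 1) (by omega), ha k (by omega), map_zero, add_zero]
  rw [adj_eq b (dx a) hM, adj_eq _ a ha, Finset.sum_range_succ']
  have h1 : ∀ j : ℕ, (-1 : ℂ) ^ (j + 1) • dx^[j + 1] (pd (j + 1) (dx a) * b) =
      (-1 : ℂ) ^ (j + 1) • dx^[j + 1] (dx (pd (j + 1) a) * b) -
      (-1 : ℂ) ^ j • dx^[j] (dx (pd j a * b)) := by
    intro j
    rw [pd_succ_dx, add_mul, dx_iter_add, smul_add, Function.iterate_succ_apply dx j (pd j a * b),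
      pow_succ]
    simp only [mul_neg, mul_one, neg_smul, sub_eq_add_neg]
  simp_rw [h1]
  rw [Finset.sum_sub_distrib]
  have h2 : (-1 : ℂ) ^ 0 • dx^[0] (pd 0 (dx a) * b) =
      (-1 : ℂ) ^ 0 • dx^[0] (dx (pd 0 a) * b) := by rw [pd_zero_dx]
  rw [h2]
  have h3 : ∑ j ∈ range M, (-1 : ℂ) ^ (j + 1) • dx^[j + 1] (dx (pd (j + 1) a) * b) +
      (-1 : ℂ) ^ 0 • dx^[0] (dx (pd 0 a) * b) =
      ∑ j ∈ range M, (-1 : ℂ) ^ j • dx^[j] (dx (pd j a) * b) := by
    rw [← Finset.sum_range_succ' (fun j => (-1 : ℂ) ^ j • dx^[j] (dx (pd j a) * b)),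
      Finset.sum_range_succ, ha M le_rfl, map_zero, zero_mul, dx_iter_zero, smul_zero, add_zero]
  rw [sub_add_eq_add_sub, h3, ← Finset.sum_sub_distrib, ← Finset.sum_neg_distrib]
  apply Finset.sum_congr rfl
  intro j _
  rw [← smul_sub, ← dx_iter_sub, Derivation.leibniz, smul_eq_mul, smul_eq_mul, mul_comm b,
    sub_add_cancel_right, dx_iter_neg, smul_neg]

theorem adj_dx_iter (b a : LL) (j : ℕ) : adj b (dx^[j] a) = (-1 : ℂ) ^ j • adj (dx^[j] b) a := by
  induction j generalizing b with
  | zero => simp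
  | succ j ih =>
    rw [Function.iterate_succ_apply', adj_dx, ih, Function.iterate_succ_apply, pow_succ]
    simp

theorem eul_eq (f : LL) {M : ℕ} (hM : ∀ i, M ≤ i → pd i f = 0) :
    eul f = ∑ j ∈ range M, (-1 : ℂ) ^ j • dx^[j] (pd j f) := by
  rw [eul, adj_eq _ f hM]; simp

theorem eul_add (f g : LL) : eul (f + g) = eul f + eul g := adj_add_right 1 f g
theorem eul_smul (c : ℂ) (f : LL) : eul (c • f) = c • eul f := adj_smul_right 1 c f
theorem eul_zero : eul 0 = 0 := adj_zero_right 1
theorem eul_neg (f : LL) : eul (-f) = - eul f := by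
  have := eul_smul (-1) f
  simpa using this
theorem eul_sub (f g : LL) : eul (f - g) = eul f - eul g := by
  rw [sub_eq_add_neg, eul_add, eul_neg, ← sub_eq_add_neg]
theorem eul_sum {ι : Type*} (s : Finset ι) (f : ι → LL) :
    eul (∑ i ∈ s, f i) = ∑ i ∈ s, eul (f i) := adj_sum_right s 1 f

theorem eul_dx (f : LL) : eul (dx f) = 0 := by
  rw [eul, adj_dx, Derivation.map_one_eq_zero, adj_zero_left, neg_zero]

theorem eul_mul (a b : LL) : eul (a * b) = adj a b + adj b a := adj_mul a b

/-- integration by parts inside a subalgebra stable under `dx` -/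
theorem ibp {S : Subalgebra ℂ LL} (hS : ∀ f ∈ S, dx f ∈ S) (q : LL) (hq : q ∈ S) (j : ℕ) :
    ∀ a ∈ S, ∃ r ∈ S, dx^[j] q * a - (-1 : ℂ) ^ j • (q * dx^[j] a) = dx r := by
  have hit : ∀ (j : ℕ), ∀ f ∈ S, dx^[j] f ∈ S := by
    intro j
    induction j with
    | zero => intro f hf; exact hf
    | succ j ih => intro f hf; rw [Function.iterate_succ_apply']; exact hS _ (ih f hf)
  induction j with
  | zero => intro a ha; exact ⟨0, S.zero_mem, by simp⟩
  | succ j ih =>
    intro a ha
    obtain ⟨r, hr, h⟩ := ih (dx a) (hS a ha)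
    refine ⟨dx^[j] q * a - r, S.sub_mem (S.mul_mem (hit j q hq) ha) hr, ?_⟩
    rw [map_sub, ← h, Derivation.leibniz, Function.iterate_succ_apply', ← Function.iterate_succ_apply,
      pow_succ]
    simp only [smul_eq_mul, mul_neg, mul_one, neg_smul]
    ring

theorem evo_sub_mul_eul {S : Subalgebra ℂ LL} (hS : ∀ f ∈ S, dx f ∈ S)
    (hpd : ∀ i, ∀ f ∈ S, pd i f ∈ S) (q f : LL) (hq : q ∈ S) (hf : f ∈ S) :
    ∃ r ∈ S, evo q f - q * eul f = dx r := by
  obtain ⟨M, hM⟩ := exists_bound f
  have h := fun j => ibp hS q hq j (pd j f) (hpd j f hf)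
  choose r hr hj using h
  refine ⟨∑ j ∈ range M, r j, S.sum_mem (fun j _ => hr j), ?_⟩
  rw [map_sum, evo, der_eq_sum _ f hM, eul_eq f hM, Finset.mul_sum, ← Finset.sum_sub_distrib]
  apply Finset.sum_congr rfl
  intro j _
  rw [← hj j, mul_smul_comm]

theorem eul_evo_eq (q f : LL) : eul (evo q f) = eul (q * eul f) := by
  obtain ⟨r, -, h⟩ := evo_sub_mul_eul (S := ⊤) (fun _ _ => trivial) (fun _ _ _ => trivial) q f
    trivial trivial
  have := eul_dx r
  rw [← h, eul_sub] at this
  exact sub_eq_zero.mp this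

theorem eul_evo (q f : LL) : eul (evo q f) = evo q (eul f) + adj (eul f) q := by
  obtain ⟨M, hM⟩ := exists_bound f
  have hM2 : ∀ j i, M ≤ i → pd i (pd j f) = 0 := by
    intro j i hi; rw [pd_comm, hM i hi, map_zero]
  have hevo : ∀ g : LL, (∀ i, M ≤ i → pd i g = 0) →
      evo q g = ∑ j ∈ range M, dx^[j] q * pd j g := fun g hg => by
    rw [evo, der_eq_sum _ g hg]
  rw [hevo f hM, eul_sum]
  simp_rw [eul_mul]
  rw [Finset.sum_add_distrib]
  congr 1
  · rw [eul_eq f hM, map_sum]
    have h1 : ∀ j, adj (dx^[j] q) (pd j f) =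
        ∑ i ∈ range M, (-1 : ℂ) ^ i • dx^[i] (pd i (pd j f) * dx^[j] q) := fun j =>
      adj_eq _ _ (hM2 j)
    have h2 : ∀ i, evo q ((-1 : ℂ) ^ i • dx^[i] (pd i f)) =
        ∑ j ∈ range M, (-1 : ℂ) ^ i • dx^[i] (pd i (pd j f) * dx^[j] q) := by
      intro i
      rw [Derivation.map_smul, evo_dx_iter, hevo _ (hM2 i), dx_iter_sum, Finset.smul_sum]
      apply Finset.sum_congr rfl
      intro j _
      rw [pd_comm, mul_comm]
    simp_rw [h1, h2]
    rw [Finset.sum_comm]
  · rw [eul_eq f hM, adj_sum_left]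
    apply Finset.sum_congr rfl
    intro j _
    rw [adj_dx_iter, adj_smul_left]

/-- self-adjointness of the Hessian -/
theorem adj_eul (q f : LL) : adj q (eul f) = evo q (eul f) := by
  have h1 := eul_evo q f
  rw [eul_evo_eq, eul_mul] at h1
  exact add_right_cancel h1

theorem eul_eul (f : LL) : eul (eul f) = pd 0 (eul f) := by
  rw [eul, adj_eul, evo_one]

theorem pd_zero_dx_iter (j : ℕ) (f : LL) : pd 0 (dx^[j] f) = dx^[j] (pd 0 f) := by
  induction j with
  | zero => rfl
  | succ j ih => rw [Function.iterate_succ_apply', pd_zero_dx, ih, Function.iterate_succ_apply']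

theorem eul_pd_zero (f : LL) : eul (pd 0 f) = pd 0 (eul f) := by
  obtain ⟨M, hM⟩ := exists_bound f
  rw [eul_eq f hM, eul_eq (pd 0 f) (M := M) (fun i hi => by rw [pd_comm, hM i hi, map_zero]),
    map_sum]
  apply Finset.sum_congr rfl
  intro j _
  rw [Derivation.map_smul, pd_zero_dx_iter, pd_comm]

/-- the flow with potential `a`: evolutionary derivation with characteristic `dx a` -/
def flow (a : LL) : Derivation ℂ LL LL := evo (dx a)

/-- bracket of potentials -/
def brk (a b : LL) : LL := flow b a - flow a b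

theorem flow_dx (a f : LL) : flow a (dx f) = dx (flow a f) := evo_dx _ f

theorem flow_comm (a b f : LL) : flow a (flow b f) - flow b (flow a f) = flow (brk b a) f := by
  rw [flow, flow, flow, evo_comm, brk, flow, flow, evo_dx, evo_dx, map_sub]

theorem flow_add (a b f : LL) : flow (a + b) f = flow a f + flow b f := by
  rw [flow, map_add, evo_add]; rfl
theorem flow_sub (a b f : LL) : flow (a - b) f = flow a f - flow b f := by
  rw [flow, map_sub, evo_sub]; rfl
theorem flow_smul (c : ℂ) (a f : LL) : flow (c • a) f = c • flow a f := by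
  rw [flow, Derivation.map_smul, evo_smul]; rfl
theorem flow_zero (f : LL) : flow 0 f = 0 := by rw [flow, map_zero, evo_zero]
theorem flow_sum {ι : Type*} (s : Finset ι) (a : ι → LL) (f : LL) :
    flow (∑ i ∈ s, a i) f = ∑ i ∈ s, flow (a i) f := by
  rw [flow, map_sum, evo_sum]; rfl

theorem brk_add_left (a b c : LL) : brk (a + b) c = brk a c + brk b c := by
  simp only [brk, map_add, flow_add]; ring
theorem brk_add_right (a b c : LL) : brk a (b + c) = brk a b + brk a c := by
  simp only [brk, map_add, flow_add]; ring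
theorem brk_smul_left (t : ℂ) (a b : LL) : brk (t • a) b = t • brk a b := by
  simp only [brk, Derivation.map_smul, flow_smul, smul_sub]
theorem brk_smul_right (t : ℂ) (a b : LL) : brk a (t • b) = t • brk a b := by
  simp only [brk, Derivation.map_smul, flow_smul, smul_sub]
theorem brk_zero_left (a : LL) : brk 0 a = 0 := by simp [brk, flow_zero]
theorem brk_zero_right (a : LL) : brk a 0 = 0 := by simp [brk, flow_zero]
theorem brk_sum_left {ι : Type*} (s : Finset ι) (a : ι → LL) (b : LL) :
    brk (∑ i ∈ s, a i) b = ∑ i ∈ s, brk (a i) b := by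
  simp only [brk, map_sum, flow_sum, Finset.sum_sub_distrib]
theorem brk_sum_right {ι : Type*} (s : Finset ι) (a : ι → LL) (b : LL) :
    brk b (∑ i ∈ s, a i) = ∑ i ∈ s, brk b (a i) := by
  simp only [brk, map_sum, flow_sum, Finset.sum_sub_distrib]

/-- derivation form of the Jacobi identity -/
theorem brk_jacobi (p q g : LL) :
    brk (brk p g) q + brk p (brk q g) = brk (brk p q) g := by
  have h1 := flow_comm g p q
  have h2 := flow_comm g q p
  have h3 := flow_comm q p g
  have e1 : brk (brk p g) q = flow q (flow g p - flow p g) - flow (brk p g) q := rfl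
  have e2 : brk p (brk q g) = flow (brk q g) p - flow p (flow g q - flow q g) := rfl
  have e3 : brk (brk p q) g = flow g (flow q p - flow p q) - flow (brk p q) g := rfl
  rw [e1, e2, e3, ← h1, ← h2, ← h3, map_sub, map_sub, map_sub]
  ring

/-- the bracket of two gradients is the gradient of the Poisson bracket -/
theorem brk_eul (f g : LL) : brk (eul f) (eul g) = eul (eul f * dx (eul g)) := by
  rw [eul_mul, adj_dx, adj_eul, adj_eul]
  simp only [brk, flow]
  ring

theorem pd_zero_flow (a f : LL) : pd 0 (flow a f) = flow a (pd 0 f) + flow (pd 0 a) f := by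
  rw [flow, pd_zero_evo, pd_zero_dx]; rfl

theorem pd_zero_brk (a b : LL) : pd 0 (brk a b) = brk (pd 0 a) b + brk a (pd 0 b) := by
  simp only [brk, map_sub, pd_zero_flow]; ring

theorem flow_u_zero (f : LL) : flow (u 0) f = dx f := by
  rw [flow, dx_u, zero_add, evo_u_one]

theorem brk_u_zero (g : LL) : brk (u 0) g = 0 := by
  rw [brk, flow_u_zero, flow, evo_u]; simp

end Pool.Agent.H87
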