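import Mathlib

/-!
# Laurent differential polynomials

`LL` is the ring of Laurent polynomials over `ℂ` in variables `u 0, u 1, u 2, ...`; it carries the
derivations `pd i` (partial derivative in `u i`), `dx` (total derivative, `u j ↦ u (j+1)`) and
`evo q` (evolutionary derivation with characteristic `q`).
-/

noncomputable section

namespace Pool.Agent.H87

open Finset

/-- exponent vectors -/
abbrev Ex := ℕ →₀ ℤ

/-- Laurent polynomials in `u 0, u 1, ...` -/
abbrev LL := AddMonoidAlgebra ℂ Ex

/-- the monomial with exponent vector `e` -/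
def mono (e : Ex) : LL := AddMonoidAlgebra.single e 1

/-- the unit exponent vector -/
def dl (j : ℕ) : Ex := Finsupp.single j 1

/-- the variable `u j` -/
def u (j : ℕ) : LL := mono (dl j)

/-- the inverse variable `1 / u j` -/
def ui (j : ℕ) : LL := mono (-dl j)

theorem mono_zero : mono 0 = 1 := rfl

theorem mono_mul (e f : Ex) : mono e * mono f = mono (e + f) := by
  simp [mono, AddMonoidAlgebra.single_mul_single]

theorem single_eq (e : Ex) (c : ℂ) : (AddMonoidAlgebra.single e c : LL) = c • mono e := by
  simp [mono]

theorem u_mul_ui (j : ℕ) : u j * ui j = 1 := by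
  simp [u, ui, mono_mul, mono_zero]

theorem ui_mul_u (j : ℕ) : ui j * u j = 1 := by
  simp [u, ui, mono_mul, mono_zero]

/-- linear induction principle -/
theorem LL.ind {P : LL → Prop} (h0 : P 0) (hadd : ∀ f g, P f → P g → P (f + g))
    (hsm : ∀ (c : ℂ) (e : Ex), P (c • mono e)) (f : LL) : P f := by
  induction f using AddMonoidAlgebra.induction_linear with
  | zero => exact h0
  | add f g hf hg => exact hadd f g hf hg
  | single m r => rw [single_eq]; exact hsm r m

/-- two linear maps agreeing on monomials agree -/
theorem LL.lin_ext {M : Type*} [AddCommMonoid M] [Module ℂ M] {f g : LL →ₗ[ℂ] M}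
    (h : ∀ e, f (mono e) = g (mono e)) : f = g := by
  refine LinearMap.ext fun x => ?_
  induction x using LL.ind with
  | h0 => simp
  | hadd a b ha hb => simp [ha, hb]
  | hsm c e => simp [h e]

/-- the linear map underlying the derivation with `u j ↦ v j` -/
def derLin (v : ℕ → LL) : LL →ₗ[ℂ] LL :=
  (Finsupp.lsum ℂ (fun e : Ex => (LinearMap.toSpanSingleton ℂ LL
    (∑ j ∈ e.support, (e j) • (v j * mono (e - dl j)))))) ∘ₗ
    (AddMonoidAlgebra.coeffLinearEquiv ℂ).toLinearMap

theorem derLin_mono (v : ℕ → LL) (e : Ex) :
    derLin v (mono e) = ∑ j ∈ e.support, (e j) • (v j * mono (e - dl j)) := by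
  simp [derLin, mono]

theorem derLin_mono' (v : ℕ → LL) (e : Ex) {s : Finset ℕ} (hs : e.support ⊆ s) :
    derLin v (mono e) = ∑ j ∈ s, (e j) • (v j * mono (e - dl j)) := by
  rw [derLin_mono]
  apply Finset.sum_subset hs
  intro j _ hj
  simp [Finsupp.notMem_support_iff.mp hj]

theorem derLin_leib_mono (v : ℕ → LL) (e f : Ex) :
    derLin v (mono e * mono f) = mono e • derLin v (mono f) + mono f • derLin v (mono e) := by
  classical
  rw [mono_mul, derLin_mono' v (e + f) (Finsupp.support_add (g₁ := e) (g₂ := f)),
    derLin_mono' v e (Finset.subset_union_left (s₂ := f.support)),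
    derLin_mono' v f (Finset.subset_union_right (s₁ := e.support)), smul_eq_mul, smul_eq_mul,
    Finset.mul_sum, Finset.mul_sum, ← Finset.sum_add_distrib]
  apply Finset.sum_congr rfl
  intro j _
  have h1 : mono (e + f - dl j) = mono e * mono (f - dl j) := by
    rw [mono_mul]; congr 1; abel
  have h2 : mono (e + f - dl j) = mono f * mono (e - dl j) := by
    rw [mono_mul]; congr 1; abel
  rw [Finsupp.add_apply, add_smul, mul_smul_comm, mul_smul_comm]
  nth_rewrite 1 [h2]
  rw [h1]
  rw [add_comm]
  congr 2 <;> ring

theorem derLin_leib (v : ℕ → LL) (f g : LL) :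
    derLin v (f * g) = f • derLin v g + g • derLin v f := by
  induction f using LL.ind with
  | h0 => simp
  | hadd a b ha hb =>
    rw [add_mul, map_add, ha, hb, map_add, add_smul, smul_add]; abel
  | hsm c e =>
    induction g using LL.ind with
    | h0 => simp
    | hadd a b ha hb =>
      rw [mul_add, map_add, ha, hb, map_add, add_smul, smul_add]; abel
    | hsm d f =>
      have : (c • mono e) * (d • mono f) = (c * d) • (mono e * mono f) := by
        rw [smul_mul_smul_comm]
      rw [this, map_smul, derLin_leib_mono, map_smul, map_smul]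
      simp only [smul_eq_mul, smul_mul_assoc, mul_smul_comm, smul_add, smul_smul]
      rw [mul_comm d c]

/-- the derivation with `u j ↦ v j` -/
def der (v : ℕ → LL) : Derivation ℂ LL LL := Derivation.mk' (derLin v) (derLin_leib v)

theorem der_mono (v : ℕ → LL) (e : Ex) {s : Finset ℕ} (hs : e.support ⊆ s) :
    der v (mono e) = ∑ j ∈ s, (e j) • (v j * mono (e - dl j)) := by
  simpa [der] using derLin_mono' v e hs

@[simp] theorem der_u (v : ℕ → LL) (j : ℕ) : der v (u j) = v j := by
  rw [u, der_mono v (dl j) (s := {j}) (by simp [dl])]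
  simp [dl, mono_zero]

/-- derivations of `LL` agreeing on the variables are equal -/
theorem der_ext {M : Type*} [AddCommGroup M] [Module ℂ M] [Module LL M] [IsScalarTower ℂ LL M]
    {D D' : Derivation ℂ LL M}
    (h : ∀ j, D (u j) = D' (u j)) : D = D' := by
  have hadd : ∀ e f : Ex, D (mono e) = D' (mono e) → D (mono f) = D' (mono f) →
      D (mono (e + f)) = D' (mono (e + f)) := by
    intro e f he hf
    rw [← mono_mul, D.leibniz, D'.leibniz, he, hf]
  have hneg : ∀ e : Ex, D (mono e) = D' (mono e) → D (mono (-e)) = D' (mono (-e)) := by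
    intro e he
    have h1 : mono (-e) * mono e = 1 := by rw [mono_mul]; simp [mono_zero]
    have h2 : mono e * mono (-e) = 1 := by rw [mono_mul]; simp [mono_zero]
    have hD : mono (-e) • D (mono e) + mono e • D (mono (-e)) = 0 := by
      rw [← D.leibniz, h1, D.map_one_eq_zero]
    have hD' : mono (-e) • D' (mono e) + mono e • D' (mono (-e)) = 0 := by
      rw [← D'.leibniz, h1, D'.map_one_eq_zero]
    have key : mono e • D (mono (-e)) = mono e • D' (mono (-e)) := by
      have := hD.trans hD'.symm
      rw [he] at this
      exact add_left_cancel this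
    have := congrArg (fun z => mono (-e) • z) key
    simpa [smul_smul, h1] using this
  have hnat : ∀ (j n : ℕ), D (mono ((n : ℤ) • dl j)) = D' (mono ((n : ℤ) • dl j)) := by
    intro j n
    induction n with
    | zero => simp [mono_zero]
    | succ n ih =>
      have : ((n + 1 : ℕ) : ℤ) • dl j = (n : ℤ) • dl j + dl j := by
        push_cast; rw [add_smul, one_smul]
      rw [this]
      exact hadd _ _ ih (h j)
  have hint : ∀ (j : ℕ) (z : ℤ), D (mono (z • dl j)) = D' (mono (z • dl j)) := by
    intro j z
    obtain ⟨n, rfl | rfl⟩ := z.eq_nat_or_neg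
    · exact hnat j n
    · rw [neg_smul]; exact hneg _ (hnat j n)
  have hall : ∀ e : Ex, D (mono e) = D' (mono e) := by
    intro e
    induction e using Finsupp.induction with
    | zero => simp [mono_zero]
    | single_add a b f _ _ ih =>
      apply hadd _ _ _ ih
      have : Finsupp.single a b = b • dl a := by simp [dl]
      rw [this]
      exact hint a b
  ext f
  induction f using LL.ind with
  | h0 => simp
  | hadd a b ha hb => simp [ha, hb]
  | hsm c e => simp [hall e]

/-- partial derivative in `u i` -/
def pd (i : ℕ) : Derivation ℂ LL LL := der (fun j => if j = i then 1 else 0)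

/-- total derivative -/
def dx : Derivation ℂ LL LL := der (fun j => u (j + 1))

/-- evolutionary derivation with characteristic `q` -/
def evo (q : LL) : Derivation ℂ LL LL := der (fun j => dx^[j] q)

theorem pd_u (i j : ℕ) : pd i (u j) = if j = i then 1 else 0 := by simp [pd]
@[simp] theorem dx_u (j : ℕ) : dx (u j) = u (j + 1) := by simp [dx]
@[simp] theorem evo_u (q : LL) (j : ℕ) : evo q (u j) = dx^[j] q := by simp [evo]

theorem dx_iter_zero (j : ℕ) : dx^[j] (0 : LL) = 0 := by
  induction j with
  | zero => rfl
  | succ j ih => rw [Function.iterate_succ_apply', ih, map_zero]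

theorem dx_iter_add (j : ℕ) (a b : LL) : dx^[j] (a + b) = dx^[j] a + dx^[j] b := by
  induction j with
  | zero => rfl
  | succ j ih => simp only [Function.iterate_succ_apply', ih, map_add]

theorem dx_iter_smul (j : ℕ) (c : ℂ) (a : LL) : dx^[j] (c • a) = c • dx^[j] a := by
  induction j with
  | zero => rfl
  | succ j ih => simp only [Function.iterate_succ_apply', ih, Derivation.map_smul]

theorem dx_iter_neg (j : ℕ) (a : LL) : dx^[j] (-a) = - dx^[j] a := by
  induction j with
  | zero => rfl
  | succ j ih => simp only [Function.iterate_succ_apply', ih, map_neg]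

theorem dx_iter_sub (j : ℕ) (a b : LL) : dx^[j] (a - b) = dx^[j] a - dx^[j] b := by
  rw [sub_eq_add_neg, dx_iter_add, dx_iter_neg, ← sub_eq_add_neg]

theorem dx_iter_sum {ι : Type*} (j : ℕ) (s : Finset ι) (a : ι → LL) :
    dx^[j] (∑ i ∈ s, a i) = ∑ i ∈ s, dx^[j] (a i) := by
  induction j with
  | zero => rfl
  | succ j ih => simp only [Function.iterate_succ_apply', ih, map_sum]

theorem dx_iter_dx (j : ℕ) (a : LL) : dx^[j] (dx a) = dx (dx^[j] a) := by
  rw [← Function.iterate_succ_apply, Function.iterate_succ_apply']

/-! ### commutation relations -/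

theorem pd_succ_dx (i : ℕ) (f : LL) : pd (i + 1) (dx f) = dx (pd (i + 1) f) + pd i f := by
  have h : ⁅pd (i + 1), dx⁆ = pd i := by
    apply der_ext
    intro j
    rw [Derivation.commutator_apply, dx_u, pd_u, pd_u, pd_u]
    by_cases h1 : j + 1 = i + 1
    · have h2 : j = i := by omega
      subst h2
      simp
    · have h2 : j ≠ i := by omega
      simp only [h1, if_false, h2]
      split_ifs <;> simp
  have := congrArg (fun D : Derivation ℂ LL LL => D f) h
  simp only [Derivation.commutator_apply] at this
  rw [← this]; ring

theorem pd_zero_dx (f : LL) : pd 0 (dx f) = dx (pd 0 f) := by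
  have h : ⁅pd 0, dx⁆ = 0 := by
    apply der_ext
    intro j
    rw [Derivation.commutator_apply, dx_u, pd_u, pd_u]
    simp only [Nat.add_eq_zero_iff, one_ne_zero, and_false, if_false, Derivation.zero_apply]
    split_ifs <;> simp
  have := congrArg (fun D : Derivation ℂ LL LL => D f) h
  simp only [Derivation.commutator_apply, Derivation.zero_apply] at this
  exact sub_eq_zero.mp this

theorem pd_comm (i j : ℕ) (f : LL) : pd i (pd j f) = pd j (pd i f) := by
  have h : ⁅pd i, pd j⁆ = 0 := by
    apply der_ext
    intro k
    rw [Derivation.commutator_apply, pd_u, pd_u]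
    split_ifs <;> simp
  have := congrArg (fun D : Derivation ℂ LL LL => D f) h
  simp only [Derivation.commutator_apply, Derivation.zero_apply] at this
  exact sub_eq_zero.mp this

theorem evo_dx (q f : LL) : evo q (dx f) = dx (evo q f) := by
  have h : ⁅evo q, dx⁆ = 0 := by
    apply der_ext
    intro k
    rw [Derivation.commutator_apply, dx_u, evo_u, evo_u, Function.iterate_succ_apply']
    simp
  have := congrArg (fun D : Derivation ℂ LL LL => D f) h
  simp only [Derivation.commutator_apply, Derivation.zero_apply] at this
  exact sub_eq_zero.mp this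

theorem evo_dx_iter (q f : LL) (j : ℕ) : evo q (dx^[j] f) = dx^[j] (evo q f) := by
  induction j with
  | zero => rfl
  | succ j ih => rw [Function.iterate_succ_apply', evo_dx, ih, Function.iterate_succ_apply']

theorem evo_comm (p q f : LL) :
    evo p (evo q f) - evo q (evo p f) = evo (evo p q - evo q p) f := by
  have h : ⁅evo p, evo q⁆ = evo (evo p q - evo q p) := by
    apply der_ext
    intro k
    rw [Derivation.commutator_apply, evo_u, evo_u, evo_u, evo_dx_iter, evo_dx_iter, dx_iter_sub]
  have := congrArg (fun D : Derivation ℂ LL LL => D f) h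
  simpa only [Derivation.commutator_apply] using this

theorem pd_zero_evo (q f : LL) : pd 0 (evo q f) = evo q (pd 0 f) + evo (pd 0 q) f := by
  have hit : ∀ j : ℕ, pd 0 (dx^[j] q) = dx^[j] (pd 0 q) := by
    intro j
    induction j with
    | zero => rfl
    | succ j ih => rw [Function.iterate_succ_apply', pd_zero_dx, ih, Function.iterate_succ_apply']
  have h : ⁅pd 0, evo q⁆ = evo (pd 0 q) := by
    apply der_ext
    intro k
    rw [Derivation.commutator_apply, evo_u, evo_u, pd_u, hit]
    split_ifs <;> simp
  have := congrArg (fun D : Derivation ℂ LL LL => D f) h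
  simp only [Derivation.commutator_apply] at this
  rw [← this]; ring

theorem evo_add (p q f : LL) : evo (p + q) f = evo p f + evo q f := by
  have h : evo (p + q) = evo p + evo q := by
    apply der_ext
    intro k
    simp [dx_iter_add]
  rw [h]; rfl

theorem evo_smul (c : ℂ) (q f : LL) : evo (c • q) f = c • evo q f := by
  have h : evo (c • q) = c • evo q := by
    apply der_ext
    intro k
    simp [dx_iter_smul]
  rw [h]; rfl

theorem evo_zero (f : LL) : evo 0 f = 0 := by
  have := evo_smul 0 0 f
  simpa using this

theorem evo_neg (q f : LL) : evo (-q) f = - evo q f := by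
  have := evo_smul (-1) q f
  simpa using this

theorem evo_sub (p q f : LL) : evo (p - q) f = evo p f - evo q f := by
  rw [sub_eq_add_neg, evo_add, evo_neg, ← sub_eq_add_neg]

theorem evo_sum {ι : Type*} (s : Finset ι) (a : ι → LL) (f : LL) :
    evo (∑ i ∈ s, a i) f = ∑ i ∈ s, evo (a i) f := by
  classical
  induction s using Finset.induction_on with
  | empty => simp [evo_zero]
  | insert a s ha ih => rw [Finset.sum_insert ha, Finset.sum_insert ha, evo_add, ih]

theorem evo_u_one (f : LL) : evo (u 1) f = dx f := by
  have h : evo (u 1) = dx := by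
    apply der_ext
    intro k
    rw [evo_u, dx_u]
    induction k with
    | zero => rfl
    | succ k ih => rw [Function.iterate_succ_apply', ih, dx_u]
  rw [h]

theorem dx_iter_u (j k : ℕ) : dx^[j] (u k) = u (k + j) := by
  induction j with
  | zero => rfl
  | succ j ih => rw [Function.iterate_succ_apply', ih, dx_u]; rfl

theorem evo_one (f : LL) : evo 1 f = pd 0 f := by
  have h : evo 1 = pd 0 := by
    apply der_ext
    intro k
    rw [evo_u, pd_u]
    cases k with
    | zero => simp
    | succ k =>
      rw [Function.iterate_succ_apply, Derivation.map_one_eq_zero, dx_iter_zero]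
      simp
  rw [h]

/-! ### finiteness -/

theorem exists_bound (f : LL) : ∃ M : ℕ, ∀ i, M ≤ i → pd i f = 0 := by
  induction f using LL.ind with
  | h0 => exact ⟨0, fun i _ => by simp⟩
  | hadd a b ha hb =>
    obtain ⟨M, hM⟩ := ha
    obtain ⟨N, hN⟩ := hb
    exact ⟨max M N, fun i hi => by
      rw [map_add, hM i (le_trans (le_max_left _ _) hi), hN i (le_trans (le_max_right _ _) hi),
        add_zero]⟩
  | hsm c e =>
    refine ⟨e.support.sup id + 1, fun i hi => ?_⟩
    rw [Derivation.map_smul, pd, der_mono _ e (Finset.Subset.refl _)]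
    rw [Finset.sum_eq_zero, smul_zero]
    intro j hj
    have : j ≤ e.support.sup id := Finset.le_sup (f := id) hj
    have hji : j ≠ i := by omega
    simp [hji]

theorem der_eq_sum (v : ℕ → LL) (f : LL) {M : ℕ} (hM : ∀ i, M ≤ i → pd i f = 0) :
    der v f = ∑ j ∈ range M, v j * pd j f := by
  -- enough: for all large N
  have key : ∀ g : LL, ∃ N : ℕ, ∀ K, N ≤ K → der v g = ∑ j ∈ range K, v j * pd j g := by
    intro g
    induction g using LL.ind with
    | h0 => exact ⟨0, fun K _ => by simp⟩
    | hadd a b ha hb =>
      obtain ⟨N1, h1⟩ := ha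
      obtain ⟨N2, h2⟩ := hb
      refine ⟨max N1 N2, fun K hK => ?_⟩
      rw [map_add, h1 K (le_trans (le_max_left _ _) hK), h2 K (le_trans (le_max_right _ _) hK),
        ← Finset.sum_add_distrib]
      apply Finset.sum_congr rfl
      intro j _
      rw [map_add, mul_add]
    | hsm c e =>
      refine ⟨e.support.sup id + 1, fun K hK => ?_⟩
      have hsub : e.support ⊆ range K := by
        intro j hj
        have : j ≤ e.support.sup id := Finset.le_sup (f := id) hj
        rw [Finset.mem_range]; omega
      rw [Derivation.map_smul, der_mono v e hsub, Finset.smul_sum]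
      apply Finset.sum_congr rfl
      intro j hj
      rw [Derivation.map_smul, pd, der_mono _ e hsub]
      rw [Finset.sum_eq_single j]
      · rw [if_pos rfl, one_mul, mul_smul_comm, mul_smul_comm]
      · intro k _ hk; simp [hk]
      · intro h; exact absurd hj h
  obtain ⟨N, hN⟩ := key f
  rw [hN (max N M) (le_max_left _ _)]
  symm
  apply Finset.sum_subset
  · intro j hj
    rw [Finset.mem_range] at *
    exact lt_of_lt_of_le hj (le_max_right _ _)
  · intro j _ hj
    rw [Finset.mem_range, not_lt] at hj
    rw [hM j hj, mul_zero]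

end Pool.Agent.H87
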