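import Pool.Agent.H87.Norm

/-!
# The construction of the deformation
-/

noncomputable section

namespace Pool.Agent.H87

open Finset

/-- a sequence of pairs (generator part, normalising part) -/
abbrev Sq := ℕ → LL × LL

/-- the Laurent part of the generator -/
def kap (f : Sq) (n : ℕ) : LL := ui 1 * u 2 * (f n).1
/-- the time-dependent potential -/
def gam (f : Sq) (n : ℕ) : LL := eul (kap f n + (f n).2)
/-- the gradients -/
def GG (f : Sq) (d n : ℕ) : LL := G (gam f) d n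
/-- the obstruction -/
def TT (f : Sq) (d n : ℕ) : LL := ∑ p ∈ antidiagonal n, XX (GG f d p.1) (f p.2).1

/-- linear hypotheses on the sequence -/
structure Hyp (g : ℕ) (f : Sq) : Prop where
  zero : f 0 = (0, 0)
  y_mem : ∀ n : ℕ, (f n).1 ∈ JJ (n * (2 * g) - 2) (n * (g - 3) + 2)
  y_pol : ∀ n : ℕ, (f n).1 ∈ AN ∅
  Q_mem : ∀ n : ℕ, (f n).2 ∈ CC 1
  Q_deg : ∀ n : ℕ, (f n).2 ∈ BH (n * (2 * g) - 1) (n * (g - 3) + 2)

section

variable {g : ℕ} {f : Sq}

theorem pd_zero_of_JJ {k l : ℤ} {y : LL} (hy : y ∈ JJ k l) : pd 0 y = 0 :=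
  (pd_eq_zero_iff 0 y).mpr (SP_mono (fun _ h => h.1.1.1) hy)

theorem pd_zero_kap (h : Hyp g f) (n : ℕ) : pd 0 (kap f n) = 0 := by
  rw [kap, Derivation.leibniz, Derivation.leibniz, pd_zero_of_JJ (h.y_mem n),
    pd_ui 0 1 (by norm_num), pd_u, if_neg (by norm_num)]
  simp

theorem gam_zero (h : Hyp g f) : gam f 0 = 0 := by
  rw [gam, kap, h.zero]; simp [eul_zero]

theorem pd_zero_gam (h : Hyp g f) (n : ℕ) : pd 0 (gam f n) = 0 := by
  rw [gam, ← eul_pd_zero, map_add, pd_zero_kap h, (CC_one_iff.mp (h.Q_mem n)).2, add_zero,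
    eul_zero]

theorem gam_grad (n : ℕ) : ∃ a, gam f n = eul a := ⟨_, rfl⟩

theorem BH_kap (h : Hyp g f) (n : ℕ) : kap f n ∈ BH (n * (2 * g) - 1) (n * (g - 3) + 2) :=
  BH_cast (BH_mul (BH_mul (ui_mem_BH 1) (u_mem_BH 2)) (JJ_le_BH (h.y_mem n)))
    (by push_cast; ring) (by ring)

theorem BH_gam (h : Hyp g f) (n : ℕ) : gam f n ∈ BH (n * (2 * g) - 1) (n * (g - 3) + 1) :=
  BH_cast (BH_eul (Submodule.add_mem _ (BH_kap h n) (h.Q_deg n))) rfl (by ring)

theorem BH_GG (h : Hyp g f) (d n : ℕ) : GG f d n ∈ BH (n * (2 * g)) (n * (g - 3) + d + 1) :=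
  BH_G n (fun j _ _ => BH_gam h j) d n le_rfl

theorem GG_zero (d : ℕ) : GG f d 0 = G0 d := G_zero _ d

theorem pd_zero_GG (h : Hyp g f) (d n : ℕ) : pd 0 (GG f (d + 1) n) = GG f d n :=
  pd_zero_G (pd_zero_gam h) d n

theorem eul_GG (h : Hyp g f) (d n : ℕ) : eul (GG f (d + 1) n) = GG f d n :=
  eul_G (fun n => gam_grad n) (pd_zero_gam h) d n

theorem GG_zero_pos {n : ℕ} (hn : 1 ≤ n) : GG f 0 n = 0 := G_zero_pos n hn

theorem sum_brk_GG (h : Hyp g f) (p q n : ℕ) :
    ∑ x ∈ antidiagonal n, brk (GG f p x.1) (GG f q x.2) = 0 := sum_brk_G (gam_zero h) p q n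

theorem AN_inter {a : LL} (h1 : a ∈ AN {1}) (h2 : a ∈ AN {2}) : a ∈ AN ∅ := by
  refine SP_mono ?_ (SP_and h1 h2)
  rintro e ⟨h3, h4⟩ i _
  by_cases hi : i = 1
  · subst hi; exact h4 1 (by norm_num)
  · exact h3 i hi

theorem flow_kap (a y : LL) : flow a (ui 1 * u 2 * y) =
    dx (ui 1 * y * flow a (u 1)) + ui 1 * (u 2 * XX a y) := by
  have e3 : dx (u 1) = u 2 := dx_u 1
  have e4 : flow a (u 2) = dx (flow a (u 1)) := by rw [← e3, flow_dx]
  have e5 : u 2 * (ui 2 * flow a (u 1) * dx y) = flow a (u 1) * dx y := by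
    rw [← mul_assoc, ← mul_assoc, u_mul_ui, one_mul]
  have e6 : ui 1 * (u 2 * XX a y) = ui 1 * (u 2 * flow a y - flow a (u 1) * dx y) := by
    rw [XX_apply, mul_sub (u 2), e5]
  rw [e6]
  simp only [Derivation.leibniz, smul_eq_mul, der_ui, e3, e4]
  ring

/-- polynomiality of the gradients -/
theorem GG_pol (h : Hyp g f) (n : ℕ) (hT : ∀ m, 1 ≤ m → m ≤ n → ∀ d, TT f d m ∈ I1) :
    ∀ m, m ≤ n → ∀ d, GG f d m ∈ AN ∅ := by
  intro m
  induction m using Nat.strong_induction_on with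
  | _ m ih =>
    intro hm d
    by_cases hm0 : m = 0
    · subst hm0; rw [GG_zero]; exact G0_mem_AN _ _
    have hpos : (m : ℂ) ≠ 0 := by exact_mod_cast hm0
    have key : (m : ℂ) • GG f d m =
        -(eul (ui 1 * (u 2 * TT f d m)) +
          ∑ p ∈ antidiagonal m, eul (flow (GG f d p.1) (f p.2).2)) := by
      rw [GG, G_rec (gam_zero h)]
      have e1 : ∀ p ∈ antidiagonal m, brk (G (gam f) d p.1) (gam f p.2) =
          -(eul (ui 1 * (u 2 * XX (GG f d p.1) (f p.2).1)) +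
            eul (flow (GG f d p.1) (f p.2).2)) := by
        intro p _
        have e2 : G (gam f) d p.1 = eul (GG f (d + 1) p.1) := (eul_GG h d p.1).symm
        rw [gam, e2, brk_eul', eul_GG h, map_add, eul_add, kap, flow_kap, eul_add, eul_dx,
          zero_add]
      rw [Finset.sum_congr rfl e1, Finset.sum_neg_distrib, Finset.sum_add_distrib, TT,
        Finset.mul_sum, Finset.mul_sum, eul_sum]
    have hA : ∀ p ∈ antidiagonal m, flow (GG f d p.1) (f p.2).2 ∈ AN ∅ ∧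
        u 2 * XX (GG f d p.1) (f p.2).1 ∈ AN ∅ := by
      intro p hp
      rw [HasAntidiagonal.mem_antidiagonal] at hp
      by_cases hp2 : p.2 = 0
      · rw [hp2, h.zero]
        simp only [map_zero, mul_zero]
        exact ⟨(AN ∅).zero_mem, (AN ∅).zero_mem⟩
      · have hG := ih p.1 (by omega) (by omega) d
        refine ⟨AN_flow hG (CC_le (h.Q_mem _)), ?_⟩
        have e5 : u 2 * XX (GG f d p.1) (f p.2).1 = u 2 * flow (GG f d p.1) (f p.2).1 -
            flow (GG f d p.1) (u 1) * dx (f p.2).1 := by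
          rw [XX_apply, mul_sub, ← mul_assoc, ← mul_assoc, u_mul_ui, one_mul]
        rw [e5]
        exact (AN ∅).sub_mem ((AN ∅).mul_mem (u_mem_AN _ _) (AN_flow hG (h.y_pol _)))
          ((AN ∅).mul_mem (AN_flow hG (u_mem_AN _ _)) (AN_dx (h.y_pol _)))
    have hT2 : ui 1 * (u 2 * TT f d m) ∈ AN ∅ := by
      apply AN_inter
      · refine (AN {1}).mul_mem (ui_mem_AN rfl) (AN_mono (Set.empty_subset _) ?_)
        rw [TT, Finset.mul_sum]
        exact (AN ∅).sum_mem (fun p hp => (hA p hp).2)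
      · have e7 : ui 1 * (u 2 * TT f d m) = u 2 * (ui 1 * TT f d m) := by ring
        rw [e7]
        exact (AN {2}).mul_mem (u_mem_AN _ _) (I1_factor (hT m (by omega) hm d))
    have hfin : (m : ℂ) • GG f d m ∈ AN ∅ := by
      rw [key]
      exact (AN ∅).neg_mem ((AN ∅).add_mem (AN_eul hT2)
        ((AN ∅).sum_mem (fun p hp => AN_eul (hA p hp).1)))
    have := AN_smul (m : ℂ)⁻¹ hfin
    rwa [smul_smul, inv_mul_cancel₀ hpos, one_smul] at this

theorem TT_zero_left (n : ℕ) : TT f 0 n = 0 := by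
  rw [TT]
  apply Finset.sum_eq_zero
  intro p _
  by_cases hp : p.1 = 0
  · rw [hp, GG_zero, G0_zero, XX_u_zero]
  · rw [GG_zero_pos (by omega), XX_zero]

theorem pd_zero_TT (h : Hyp g f) (d n : ℕ) : pd 0 (TT f (d + 1) n) = TT f d n := by
  rw [TT, TT, map_sum]
  apply Finset.sum_congr rfl
  intro p _
  rw [pd_zero_XX, pd_zero_of_JJ (h.y_mem _), map_zero, zero_add, pd_zero_GG h]

theorem BH_TT (h : Hyp g f) (d n : ℕ) :
    TT f d n ∈ BH (n * (2 * g) - 1) (n * (g - 3) + 2 + d) := by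
  rw [TT]
  apply Submodule.sum_mem
  intro p hp
  rw [HasAntidiagonal.mem_antidiagonal] at hp
  have h1 := BH_XX (BH_GG h d p.1) (JJ_le_BH (h.y_mem p.2))
  refine BH_cast h1 ?_ ?_
  · rw [← hp]; push_cast; ring
  · rw [← hp]; push_cast; ring

theorem TT_mem_A2 (h : Hyp g f) (n : ℕ) (hG : ∀ m, m < n → ∀ d, GG f d m ∈ AN ∅) (d : ℕ) :
    TT f d n ∈ A2 := by
  rw [TT]
  apply (AN {2}).sum_mem
  intro p hp
  rw [HasAntidiagonal.mem_antidiagonal] at hp
  by_cases hp2 : p.2 = 0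
  · rw [hp2, h.zero, map_zero]; exact (AN {2}).zero_mem
  · exact AN_XX two_mem (AN_mono (Set.empty_subset _) (hG p.1 (by omega) d))
      (JJ_le_A2 (h.y_mem _))

/-- membership of the obstruction in the ideal of `u 1` -/
theorem TT_mem_I1 (h : Hyp g f) (n : ℕ) (hG : ∀ m, m < n → ∀ d, GG f d m ∈ AN ∅)
    (hp : ∀ d, p0 (TT f (d + 1) n) = 0) (d : ℕ) : TT f d n ∈ I1 := by
  induction d with
  | zero => rw [TT_zero_left]; exact Submodule.zero_mem _
  | succ d ih =>
    intro e he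
    have hA := TT_mem_A2 h n hG (d + 1) e he
    refine ⟨hA, ?_⟩
    by_contra h1
    have h1' : e 1 = 0 := by
      have := hA 1 (by norm_num); omega
    by_cases h0 : e 0 = 0
    · have h2 := keep_eq_zero_iff.mp (hp d) e he
      exact h2 ⟨h0, h1'⟩
    · -- differentiate in `u 0`
      have h2 : (pd 0 (TT f (d + 1) n)).coeff (e - dl 0) ≠ 0 := by
        rw [coeff_pd, sub_add_cancel]
        apply mul_ne_zero _ he
        have : (((e - dl 0) 0 : ℤ) : ℂ) + 1 = (e 0 : ℂ) := by simp [dl]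
        rw [this]
        exact_mod_cast h0
      rw [pd_zero_TT h] at h2
      have h3 := (ih _ h2).2
      have h4 : (e - dl 0) 1 = e 1 := by simp [dl]
      rw [h4, h1'] at h3
      omega

/-- symmetry of the double obstruction sums -/
theorem double_sum (h : Hyp g f) (d e n : ℕ) :
    ∑ p ∈ antidiagonal n, XX (GG f d p.1) (TT f e p.2) =
    ∑ p ∈ antidiagonal n, XX (GG f e p.1) (TT f d p.2) := by
  have key : ∀ d e, ∑ p ∈ antidiagonal n, XX (GG f d p.1) (TT f e p.2) =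
      ∑ p ∈ antidiagonal n, ∑ q ∈ antidiagonal p.1,
        XX (GG f d q.1) (XX (GG f e q.2) (f p.2).1) := by
    intro d e
    rw [sum_ad_assoc n (fun a b c => XX (GG f d a) (XX (GG f e b) (f c).1))]
    apply Finset.sum_congr rfl
    intro p _
    rw [TT, map_sum]
  rw [key, key, ← sub_eq_zero, ← Finset.sum_sub_distrib]
  apply Finset.sum_eq_zero
  intro p _
  rw [← Finset.Nat.sum_antidiagonal_swap (f := fun q =>
    XX (GG f e q.1) (XX (GG f d q.2) (f p.2).1)), ← Finset.sum_sub_distrib]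
  have : ∀ q ∈ antidiagonal p.1, (XX (GG f d q.1) (XX (GG f e q.2) (f p.2).1) -
      XX (GG f e q.swap.1) (XX (GG f d q.swap.2) (f p.2).1)) =
      XX (brk (GG f e q.2) (GG f d q.1)) (f p.2).1 := by
    intro q _
    rw [Prod.fst_swap, Prod.snd_swap, XX_comm]
  rw [Finset.sum_congr rfl this, ← XX_sum, ← Finset.Nat.sum_antidiagonal_swap]
  simp only [Prod.fst_swap, Prod.snd_swap]
  rw [sum_brk_GG h, XX_zero]

/-- closedness of the reduced obstruction -/
theorem closed (h : Hyp g f) (n : ℕ) (hT : ∀ m, 1 ≤ m → m < n → ∀ d, TT f d m ∈ I1)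
    (i j : ℕ) : DD (i + 1) (p0 (TT f (j + 1) n)) = DD (j + 1) (p0 (TT f (i + 1) n)) := by
  have hG : ∀ m, m < n → ∀ d, GG f d m ∈ AN ∅ := by
    intro m hm
    exact GG_pol h m (fun m' h1 h2 => hT m' h1 (by omega)) m le_rfl
  have key : ∀ d e, p0 (∑ p ∈ antidiagonal n, XX (GG f d p.1) (TT f e p.2)) =
      p0 (XX (G0 d) (TT f e n)) := by
    intro d e
    rw [map_sum, Finset.sum_eq_single (0, n)]
    · rw [GG_zero]
    · intro p hp hne
      rw [HasAntidiagonal.mem_antidiagonal] at hp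
      have hp1 : p.1 ≠ 0 := by
        intro h0
        apply hne
        rw [h0, zero_add] at hp
        exact Prod.ext h0 hp
      by_cases hp2 : p.2 = 0
      · have : TT f e p.2 = 0 := by
          rw [hp2, TT]
          simp [h.zero]
        rw [this, map_zero, map_zero]
      · apply p0_I1
        exact XX_I1 (AN_mono (Set.empty_subset _) (hG p.1 (by omega) d))
          (hT p.2 (by omega) (by omega) e)
    · intro h'
      exact absurd (HasAntidiagonal.mem_antidiagonal.mpr (zero_add n)) h'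
  rw [← DD_intertwine (TT_mem_A2 h n hG _), ← DD_intertwine (TT_mem_A2 h n hG _), ← key, ← key,
    double_sum h]

end

/-! ### changing the last term -/

theorem gam_congr {f f' : Sq} {n : ℕ} (h : f n = f' n) : gam f n = gam f' n := by
  rw [gam, gam, kap, kap, h]

theorem GG_congr {f f' : Sq} (n : ℕ) (h : ∀ j, j ≤ n → f j = f' j) (d : ℕ) :
    GG f d n = GG f' d n := G_congr d n (fun j hj => gam_congr (h j hj))

theorem TT_congr {f f' : Sq} (n : ℕ) (h : ∀ j, j ≤ n → f j = f' j) (d : ℕ) :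
    TT f d n = TT f' d n := by
  rw [TT, TT]
  apply Finset.sum_congr rfl
  intro p hp
  rw [HasAntidiagonal.mem_antidiagonal] at hp
  rw [GG_congr p.1 (fun j hj => h j (by omega)), h p.2 (by omega)]

/-- changing the last `y` -/
theorem TT_change {f f' : Sq} {n : ℕ} (hn : 1 ≤ n) (h0 : f 0 = (0, 0)) (h : ∀ j, j < n → f j = f' j)
    (d : ℕ) : TT f' d n = TT f d n + XX (G0 d) ((f' n).1 - (f n).1) := by
  have h0' : f' 0 = (0, 0) := by rw [← h 0 (by omega)]; exact h0
  obtain ⟨n, rfl⟩ : ∃ k, n = k + 1 := ⟨n - 1, by omega⟩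
  rw [TT, TT, Finset.Nat.sum_antidiagonal_succ, Finset.Nat.sum_antidiagonal_succ, GG_zero, GG_zero,
    map_sub]
  have : ∑ p ∈ antidiagonal n, XX (GG f' d (p.1 + 1)) (f' p.2).1 =
      ∑ p ∈ antidiagonal n, XX (GG f d (p.1 + 1)) (f p.2).1 := by
    apply Finset.sum_congr rfl
    intro p hp
    rw [HasAntidiagonal.mem_antidiagonal] at hp
    by_cases hp2 : p.2 = 0
    · rw [hp2, h0, h0', map_zero, map_zero]
    · rw [GG_congr (p.1 + 1) (fun j hj => h j (by omega)), h p.2 (by omega)]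
  rw [this]
  ring

theorem GG_change {f f' : Sq} {n : ℕ} (hn : 1 ≤ n) (h : ∀ j, j < n → f j = f' j)
    (d : ℕ) : GG f' d n = GG f d n + (n : ℂ)⁻¹ • brk (G0 d) (gam f' n - gam f n) := by
  obtain ⟨n, rfl⟩ : ∃ k, n = k + 1 := ⟨n - 1, by omega⟩
  rw [GG, GG, G_succ, G_succ, Finset.sum_range_succ, Finset.sum_range_succ, Nat.sub_self, G_zero,
    G_zero]
  have : ∑ j ∈ range n, brk (G (gam f') d (n - j)) (gam f' (j + 1)) =
      ∑ j ∈ range n, brk (G (gam f) d (n - j)) (gam f (j + 1)) := by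
    apply Finset.sum_congr rfl
    intro j hj
    rw [Finset.mem_range] at hj
    rw [gam_congr (h (j + 1) (by omega)),
      G_congr d (n - j) (fun i hi => gam_congr (h i (by omega)))]
  have hsub : brk (G0 d) (gam f' (n + 1) - gam f (n + 1)) =
      brk (G0 d) (gam f' (n + 1)) - brk (G0 d) (gam f (n + 1)) := by
    simp only [brk, flow_sub, map_sub]; ring
  rw [this, hsub]
  push_cast
  rw [← smul_add]
  congr 1
  ring

/-! ### the stages -/

/-- what is required at stage `n` -/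
structure St (g : ℕ) (f : Sq) (n : ℕ) : Prop where
  zero : n = 0 → f n = (0, 0)
  y_mem : (f n).1 ∈ JJ (n * (2 * g) - 2) (n * (g - 3) + 2)
  y_pol : (f n).1 ∈ AN ∅
  Q_mem : (f n).2 ∈ CC 1
  Q_deg : (f n).2 ∈ BH (n * (2 * g) - 1) (n * (g - 3) + 2)
  T_mem : ∀ d, TT f d n ∈ I1
  s_ex : 1 ≤ n → ∃ s, s ∈ CC 2 ∧ s ∈ BH (n * (2 * g)) (n * (g - 3) + 3) ∧ GG f 1 n = eul s ∧
    (n = 1 → s = (-(3 * (g : ℂ) - 2)) • u 2 ^ g)

theorem St_congr {g : ℕ} {f f' : Sq} {n : ℕ} (h : ∀ j, j ≤ n → f j = f' j) (hS : St g f n) :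
    St g f' n := by
  have hn := h n le_rfl
  exact ⟨fun h0 => hn ▸ hS.zero h0, hn ▸ hS.y_mem, hn ▸ hS.y_pol, hn ▸ hS.Q_mem, hn ▸ hS.Q_deg,
    fun d => TT_congr n h d ▸ hS.T_mem d, fun h1 => by
      rw [← GG_congr n h 1]; exact hS.s_ex h1⟩

theorem Hyp_of_St {g : ℕ} {f : Sq} {n : ℕ} (hn : 1 ≤ n) (hS : ∀ m, m < n → St g f m)
    (h0 : ∀ k, n ≤ k → f k = (0, 0)) : Hyp g f := by
  have key : ∀ k : ℕ, (f k).1 ∈ JJ (k * (2 * g) - 2) (k * (g - 3) + 2) ∧ (f k).1 ∈ AN ∅ ∧
      (f k).2 ∈ CC 1 ∧ (f k).2 ∈ BH (k * (2 * g) - 1) (k * (g - 3) + 2) := by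
    intro k
    by_cases hk : k < n
    · exact ⟨(hS k hk).y_mem, (hS k hk).y_pol, (hS k hk).Q_mem, (hS k hk).Q_deg⟩
    · rw [h0 k (by omega)]
      exact ⟨Submodule.zero_mem _, (AN ∅).zero_mem, Submodule.zero_mem _, Submodule.zero_mem _⟩
  exact ⟨(hS 0 (by omega)).zero rfl, fun k => (key k).1, fun k => (key k).2.1,
    fun k => (key k).2.2.1, fun k => (key k).2.2.2⟩

theorem Hyp_update {g : ℕ} {f : Sq} {n : ℕ} (hn : 1 ≤ n) (hH : Hyp g f) {y Q : LL}
    (hy : y ∈ JJ (n * (2 * g) - 2) (n * (g - 3) + 2)) (hyA : y ∈ AN ∅) (hQ : Q ∈ CC 1)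
    (hQd : Q ∈ BH (n * (2 * g) - 1) (n * (g - 3) + 2)) : Hyp g (Function.update f n (y, Q)) := by
  have key : ∀ k : ℕ, ((Function.update f n (y, Q)) k).1 ∈ JJ (k * (2 * g) - 2) (k * (g - 3) + 2) ∧
      ((Function.update f n (y, Q)) k).1 ∈ AN ∅ ∧
      ((Function.update f n (y, Q)) k).2 ∈ CC 1 ∧
      ((Function.update f n (y, Q)) k).2 ∈ BH (k * (2 * g) - 1) (k * (g - 3) + 2) := by
    intro k
    by_cases hk : k = n
    · subst hk
      rw [Function.update_self]
      exact ⟨hy, hyA, hQ, hQd⟩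
    · rw [Function.update_of_ne hk]
      exact ⟨hH.y_mem k, hH.y_pol k, hH.Q_mem k, hH.Q_deg k⟩
  refine ⟨?_, fun k => (key k).1, fun k => (key k).2.1, fun k => (key k).2.2.1,
    fun k => (key k).2.2.2⟩
  rw [Function.update_of_ne (by omega)]
  exact hH.zero

/-- the first stage -/
theorem stage_one {g : ℕ} (hg : 9 ≤ g) {f : Sq} (hS : ∀ m, m < 1 → St g f m)
    (h0 : ∀ k, 1 ≤ k → f k = (0, 0)) :
    St g (Function.update f 1 (u 2 ^ (g - 1), 0)) 1 := by
  have hH := Hyp_of_St le_rfl hS h0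
  have hg1 : ((g - 1 : ℕ) : ℤ) = (g : ℤ) - 1 := by omega
  have hy : u 2 ^ (g - 1) ∈ JJ ((1 : ℕ) * (2 * g) - 2) ((1 : ℕ) * (g - 3) + 2) := by
    refine JJ_cast (JJ_pow (u_mem_JJ le_rfl) (g - 1)) ?_ ?_
    · rw [hg1]; push_cast; ring
    · rw [hg1]; push_cast; ring
  have hyA : u 2 ^ (g - 1) ∈ AN ∅ := (AN ∅).pow_mem (u_mem_AN _ _) _
  set f1 := Function.update f 1 (u 2 ^ (g - 1), (0 : LL)) with hf1
  have hH1 : Hyp g f1 := Hyp_update le_rfl hH hy hyA (Submodule.zero_mem _) (Submodule.zero_mem _)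
  have hf11 : f1 1 = (u 2 ^ (g - 1), 0) := by rw [hf1, Function.update_self]
  have hT : ∀ d, TT f1 d 1 = XX (G0 d) (u 2 ^ (g - 1)) := by
    intro d
    rw [TT, Finset.Nat.sum_antidiagonal_succ]
    simp [hf11, hH1.zero, GG_zero]
  have hG : ∀ m, m < 1 → ∀ d, GG f1 d m ∈ AN ∅ := by
    intro m hm d
    have : m = 0 := by omega
    subst this
    rw [GG_zero]; exact G0_mem_AN _ _
  have hTI : ∀ d, TT f1 d 1 ∈ I1 := by
    apply TT_mem_I1 hH1 1 hG
    intro d
    rw [hT, DD_intertwine (AN_mono (Set.empty_subset _) hyA), p0_of_JJ hy,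
      Derivation.leibniz_pow, DD_u_low (by omega)]
    simp
  refine ⟨by omega, ?_, ?_, ?_, ?_, hTI, ?_⟩
  · rw [hf11]; exact hy
  · rw [hf11]; exact hyA
  · rw [hf11]; exact Submodule.zero_mem _
  · rw [hf11]; exact Submodule.zero_mem _
  · intro _
    refine ⟨(-(3 * (g : ℂ) - 2)) • u 2 ^ g, ?_, ?_, ?_, fun _ => rfl⟩
    · apply Submodule.smul_mem
      rw [CC_two_iff, CC_one_iff]
      refine ⟨⟨(AN ∅).pow_mem (u_mem_AN _ _) _, ?_⟩, ?_⟩ <;>
      · rw [Derivation.leibniz_pow, pd_u, if_neg (by norm_num)]; simp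
    · apply Submodule.smul_mem
      exact BH_cast (BH_pow (u_mem_BH 2) g) (by push_cast; ring) (by push_cast; ring)
    · have h1 : GG f1 1 1 = brk (G0 1) (gam f1 1) := by
        rw [GG, G_succ]
        simp [G_zero]
      have h2 : gam f1 1 = eul (ui 1 * u 2 ^ g) := by
        rw [gam, kap, hf11, add_zero, mul_assoc, ← pow_succ']
        congr 4
        omega
      have h3 : ee (ui 1 * u 2 ^ g) = (3 * (g : ℂ) - 2) • u 2 ^ g := by
        have e0 : ∀ j, DQ (u (j + 1)) = dx^[j + 2] (G0 1) - u 0 * u (j + 2) := by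
          intro j
          rw [DQ_apply, dx_u, flow, evo_u, ← Function.iterate_succ_apply]
        have d1 : dx (G0 1) = u 0 * u 1 := by rw [dx_G0, G0_zero]
        have d2 : dx (dx (G0 1)) = u 0 * u 2 + u 1 * u 1 := by
          rw [d1, Derivation.leibniz, dx_u, dx_u]; simp only [smul_eq_mul, zero_add]
        have d3 : dx (dx (dx (G0 1))) = u 0 * u 3 + u 2 * u 1 + (u 1 * u 2 + u 1 * u 2) := by
          rw [d2, map_add, Derivation.leibniz, Derivation.leibniz, dx_u, dx_u, dx_u]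
          simp only [smul_eq_mul, zero_add]
        have q1 : DQ (u 1) = u 1 * u 1 := by
          rw [e0 0]
          show dx (dx (G0 1)) - u 0 * u 2 = _
          rw [d2]; ring
        have q2 : DQ (u 2) = 3 * (u 1 * u 2) := by
          rw [e0 1]
          show dx (dx (dx (G0 1))) - u 0 * u 3 = _
          rw [d3]; ring
        obtain ⟨m, rfl⟩ : ∃ m, g = m + 1 := ⟨g - 1, by omega⟩
        rw [ee, Derivation.leibniz, Derivation.leibniz_pow, der_ui, q1, q2]
        simp only [smul_eq_mul, nsmul_eq_mul, Nat.add_sub_cancel]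
        have e1 : ui 1 * (((m + 1 : ℕ) : LL) * (u 2 ^ m * (3 * (u 1 * u 2)))) =
            (ui 1 * u 1) * (3 * ((m + 1 : ℕ) : LL) * u 2 ^ (m + 1)) := by
          rw [pow_succ]; ring
        have e2 : u 2 ^ (m + 1) * -(ui 1 * ui 1 * (u 1 * u 1)) =
            - ((ui 1 * u 1) * (ui 1 * u 1) * u 2 ^ (m + 1)) := by ring
        have e3 : u 1 * (ui 1 * u 2 ^ (m + 1)) = (ui 1 * u 1) * u 2 ^ (m + 1) := by ring
        rw [e1, e2, e3, ui_mul_u]
        have e4 : (3 * (((m + 1 : ℕ)) : ℂ) - 2) • u 2 ^ (m + 1) =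
            (3 * ((m + 1 : ℕ) : LL) - 2) * u 2 ^ (m + 1) := by
          rw [Algebra.smul_def, map_sub, map_mul, map_natCast, map_ofNat, map_ofNat]
        rw [e4]
        ring
      rw [h1, h2, brk_G0_one (Q := ui 1 * u 2 ^ g), h3, eul_smul, eul_smul, neg_smul]
      rw [Derivation.leibniz, Derivation.leibniz_pow, pd_u, if_neg (by norm_num),
        pd_ui 0 1 (by norm_num)]
      simp

/-- the later stages -/
theorem stage_succ {g : ℕ} (hg : 9 ≤ g) {n : ℕ} (hn : 2 ≤ n) {f : Sq}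
    (hS : ∀ m, m < n → St g f m) (h0 : ∀ k, n ≤ k → f k = (0, 0)) :
    ∃ x, St g (Function.update f n x) n := by
  have hH := Hyp_of_St (by omega) hS h0
  have hgz : (9 : ℤ) ≤ g := by exact_mod_cast hg
  have hnz : (2 : ℤ) ≤ n := by exact_mod_cast hn
  have hprod : (0 : ℤ) ≤ (n : ℤ) * (g - 9) := mul_nonneg (by omega) (by omega)
  have hT : ∀ m, 1 ≤ m → m < n → ∀ d, TT f d m ∈ I1 := fun m _ hm => (hS m hm).T_mem
  have hG : ∀ m, m < n → ∀ d, GG f d m ∈ AN ∅ := by
    intro m hm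
    exact GG_pol hH m (fun m' h1 h2 => hT m' h1 (by omega)) m le_rfl
  -- solve for `y`
  obtain ⟨y, hy, hy1⟩ := poincare (k := n * (2 * g) - 2) (l := n * (g - 3) + 2)
    (c := fun i => - p0 (TT f (i + 1) n)) (by
      intro i
      apply Submodule.neg_mem
      apply p0_mem_JJ (TT_mem_A2 hH n hG _)
      exact BH_cast (BH_TT hH (i + 1) n) (by ring) (by push_cast; ring)) (by
      intro i j
      rw [map_neg, map_neg, closed hH n hT])
  have hyA : y ∈ AN ∅ := by
    intro e he i _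
    obtain ⟨h1, h2, h3⟩ := hy e he
    by_cases hi : i = 2
    · subst hi
      have h4 := PJ_two h1
      rw [h2, h3] at h4
      nlinarith
    · exact h1.2 i hi
  -- intermediate sequence
  set f1 := Function.update f n (y, (0 : LL)) with hf1
  have hH1 : Hyp g f1 := Hyp_update (by omega) hH hy hyA (Submodule.zero_mem _)
    (Submodule.zero_mem _)
  have hf1n : f1 n = (y, 0) := by rw [hf1, Function.update_self]
  have hf1j : ∀ j, j < n → f j = f1 j := by
    intro j hj; rw [hf1, Function.update_of_ne (by omega)]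
  have hG1 : ∀ m, m < n → ∀ d, GG f1 d m ∈ AN ∅ := by
    intro m hm d
    rw [← GG_congr m (fun j hj => hf1j j (by omega))]
    exact hG m hm d
  have hT1 : ∀ d, TT f1 d n ∈ I1 := by
    apply TT_mem_I1 hH1 n hG1
    intro d
    rw [TT_change (by omega) hH.zero hf1j, hf1n, h0 n le_rfl, sub_zero, map_add, ← DD_eq hy, hy1,
      add_neg_cancel]
  have hG1n : ∀ m, m ≤ n → ∀ d, GG f1 d m ∈ AN ∅ := by
    apply GG_pol hH1 n
    intro m h1 h2 d
    by_cases hm : m = n
    · subst hm; exact hT1 d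
    · rw [← TT_congr m (fun j hj => hf1j j (by omega))]
      exact hT m h1 (by omega) d
  -- choose `Q`
  obtain ⟨h, hC, hB, he⟩ := drop_u_zero (k := n * (2 * g)) (l := n * (g - 3) + 3)
    (g1 := GG f1 1 n) (g2 := GG f1 2 n) (by nlinarith) (by nlinarith)
    (BH_cast (BH_GG hH1 2 n) rfl (by push_cast; ring)) (hG1n n le_rfl 2) (pd_zero_GG hH1 1 n)
    (by rw [pd_zero_GG hH1 0 n, GG_zero_pos (by omega)]) (eul_GG hH1 1 n)
    (by rw [eul_GG hH1 0 n, GG_zero_pos (by omega)])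
  obtain ⟨Q, s, hQ, hQd, hs, hsd, hQs⟩ := raise_solve' (by nlinarith) hB hC
  have hQ2 : (n : ℂ) • Q ∈ CC 1 := Submodule.smul_mem _ _ hQ
  have hQd2 : (n : ℂ) • Q ∈ BH (n * (2 * g) - 1) (n * (g - 3) + 2) :=
    Submodule.smul_mem _ _ (BH_cast hQd rfl (by ring))
  set f2 := Function.update f n (y, (n : ℂ) • Q) with hf2
  have hf2n : f2 n = (y, (n : ℂ) • Q) := by rw [hf2, Function.update_self]
  have hf2j : ∀ j, j < n → f1 j = f2 j := by
    intro j hj
    rw [hf2, hf1, Function.update_of_ne (by omega), Function.update_of_ne (by omega)]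
  refine ⟨(y, (n : ℂ) • Q), ?_, ?_, ?_, ?_, ?_, ?_, ?_⟩
  · omega
  · rw [← hf2, hf2n]; exact hy
  · rw [← hf2, hf2n]; exact hyA
  · rw [← hf2, hf2n]; exact hQ2
  · rw [← hf2, hf2n]; exact hQd2
  · intro d
    rw [← hf2, TT_change (f := f1) (by omega) hH1.zero hf2j, hf1n, hf2n, sub_self, map_zero,
      add_zero]
    exact hT1 d
  · intro _
    refine ⟨s, hs, hsd, ?_, by omega⟩
    have hgam : gam f2 n - gam f1 n = (n : ℂ) • eul Q := by
      rw [gam, gam, kap, kap, hf1n, hf2n, ← eul_sub, ← eul_smul]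
      congr 1
      ring
    have hnc : (n : ℂ) ≠ 0 := by
      have : n ≠ 0 := by omega
      exact_mod_cast this
    rw [← hf2, GG_change (f := f1) (by omega) hf2j, hgam, brk_smul_right, smul_smul,
      inv_mul_cancel₀ hnc, one_smul, brk_G0_one (CC_one_iff.mp hQ).2, ← he, hQs, eul_add]
    ring

/-! ### dependent choice -/

/-- truncation of a sequence -/
def trunc (n : ℕ) (f : Sq) : Sq := fun k => if k < n then f k else (0, 0)

theorem stage {g : ℕ} (hg : 9 ≤ g) (n : ℕ) (f : Sq) (hS : ∀ m, m < n → St g f m) :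
    ∃ x, St g (Function.update f n x) n := by
  set f' := trunc n f with hf'
  have hff : ∀ j, j < n → f j = f' j := by
    intro j hj; rw [hf', trunc, if_pos hj]
  have h0 : ∀ k, n ≤ k → f' k = (0, 0) := by
    intro k hk; rw [hf', trunc, if_neg (by omega)]
  have hS' : ∀ m, m < n → St g f' m := fun m hm =>
    St_congr (fun j hj => hff j (by omega)) (hS m hm)
  have hagree : ∀ x, ∀ j, j ≤ n → Function.update f' n x j = Function.update f n x j := by
    intro x j hj
    by_cases hjn : j = n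
    · subst hjn; rw [Function.update_self, Function.update_self]
    · rw [Function.update_of_ne hjn, Function.update_of_ne hjn, hff j (by omega)]
  have : ∃ x, St g (Function.update f' n x) n := by
    by_cases hn0 : n = 0
    · subst hn0
      refine ⟨(0, 0), ?_, ?_, ?_, ?_, ?_, ?_, ?_⟩
      · intro _; rw [Function.update_self]
      · rw [Function.update_self]; exact Submodule.zero_mem _
      · rw [Function.update_self]; exact (AN ∅).zero_mem
      · rw [Function.update_self]; exact Submodule.zero_mem _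
      · rw [Function.update_self]; exact Submodule.zero_mem _
      · intro d
        rw [TT]
        simp [Function.update_self]
      · omega
    · by_cases hn1 : n = 1
      · subst hn1
        exact ⟨_, stage_one hg hS' h0⟩
      · exact stage_succ hg (by omega) hS' h0
  obtain ⟨x, hx⟩ := this
  exact ⟨x, St_congr (hagree x) hx⟩

/-- one step of the choice -/
def nxt (g : ℕ) (n : ℕ) (f : Sq) : LL × LL := by
  classical
  exact if h : ∃ x, St g (Function.update f n x) n then Classical.choose h else (0, 0)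

/-- the sequence -/
def sq (g : ℕ) (n : ℕ) : LL × LL :=
  nxt g n (fun k => if _h : k < n then sq g k else (0, 0))
termination_by n

theorem sq_St {g : ℕ} (hg : 9 ≤ g) (n : ℕ) : St g (sq g) n := by
  induction n using Nat.strong_induction_on with
  | _ n ih =>
    set f : Sq := fun k => if _h : k < n then sq g k else (0, 0) with hf
    have hff : ∀ j, j < n → sq g j = f j := by
      intro j hj; rw [hf]; simp [hj]
    have hS : ∀ m, m < n → St g f m := fun m hm =>
      St_congr (fun j hj => hff j (by omega)) (ih m hm)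
    have hex := stage hg n f hS
    have hval : sq g n = Classical.choose hex := by
      rw [sq, nxt]
      rw [dif_pos hex]
    refine St_congr ?_ (Classical.choose_spec hex)
    intro j hj
    by_cases hjn : j = n
    · subst hjn; rw [Function.update_self, hval]
    · rw [Function.update_of_ne hjn, hff j (by omega)]

/-- summary: the deformed gradients -/
theorem main {g : ℕ} (hg : 9 ≤ g) : ∃ F : ℕ → ℕ → LL,
    (∀ d, F d 0 = G0 d) ∧
    (∀ n, 1 ≤ n → F 0 n = 0) ∧
    (∀ d n, F d n ∈ AN ∅) ∧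
    (∀ d n : ℕ, F d n ∈ BH (n * (2 * g)) (n * (g - 3) + d + 1)) ∧
    (∀ d n, eul (F (d + 1) n) = F d n) ∧
    (∀ p q n, ∑ x ∈ antidiagonal n, brk (F p x.1) (F q x.2) = 0) ∧
    (∃ s r : ℕ → LL, (∀ n, 1 ≤ n → s n ∈ SP PP) ∧ (∀ n : ℕ, 1 ≤ n → s n ∈ BH (n * (2 * g))
      (n * (g - 3) + 3)) ∧ (∀ n, 1 ≤ n → r n ∈ AN ∅) ∧ (∀ n, 1 ≤ n → F 2 n = s n + dx (r n)) ∧
      s 1 = (-(3 * (g : ℂ) - 2)) • u 2 ^ g) := by
  have hS := sq_St hg
  have hH : Hyp g (sq g) := ⟨(hS 0).zero rfl, fun n => (hS n).y_mem, fun n => (hS n).y_pol,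
    fun n => (hS n).Q_mem, fun n => (hS n).Q_deg⟩
  have hA : ∀ d n, GG (sq g) d n ∈ AN ∅ := fun d n =>
    GG_pol hH n (fun m _ _ => (hS m).T_mem) n le_rfl d
  have hgz : (9 : ℤ) ≤ g := by exact_mod_cast hg
  have key : ∀ n : ℕ, 1 ≤ n → ∃ s r : LL, s ∈ SP PP ∧ s ∈ BH (n * (2 * g)) (n * (g - 3) + 3) ∧
      r ∈ AN ∅ ∧ GG (sq g) 2 n = s + dx r ∧ (n = 1 → s = (-(3 * (g : ℂ) - 2)) • u 2 ^ g) := by
    intro n hn
    obtain ⟨s, hsC, hsB, hse, hs1⟩ := (hS n).s_ex hn
    have hnz : (1 : ℤ) ≤ n := by exact_mod_cast hn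
    have hprod : (0 : ℤ) ≤ (n : ℤ) * (g - 3) := mul_nonneg (by omega) (by omega)
    have hG2 : GG (sq g) 2 n ∈ BH (n * (2 * g)) (n * (g - 3) + 3) :=
      BH_cast (BH_GG hH 2 n) rfl (by push_cast; ring)
    have hdiff : eul (GG (sq g) 2 n - s) = 0 := by
      rw [eul_sub, eul_GG hH 1 n, hse, sub_self]
    obtain ⟨r, hr, hrd⟩ := exact (by omega) (Submodule.sub_mem _ hG2 hsB)
      ((AN ∅).sub_mem (hA 2 n) (CC_le hsC)) hdiff
    by_cases hn1 : n = 1
    · refine ⟨s, r, ?_, hsB, hr, by rw [← hrd]; ring, hs1⟩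
      rw [hs1 hn1]
      apply Submodule.smul_mem
      have hupow : ∀ (j n : ℕ), u j ^ n = mono ((n : ℤ) • dl j) := by
        intro j n
        induction n with
        | zero => simp [mono_zero]
        | succ n ih => rw [pow_succ, ih, u, mono_mul]; congr 1; push_cast; rw [add_smul, one_smul]
      rw [hupow]
      apply mono_mem_SP
      refine ⟨fun i _ => ?_, fun i hi => ?_, 2, ?_, fun i hi => ?_⟩
      · rw [Finsupp.smul_apply, dl, Finsupp.single_apply]
        split_ifs <;> simp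
      · rw [Finsupp.smul_apply, dl, Finsupp.single_apply, if_neg (by omega), smul_zero]
      · simp [dl]; omega
      · rw [Finsupp.smul_apply, dl, Finsupp.single_apply, if_neg (by omega), smul_zero]
    · obtain ⟨s', r', hs1', hs2', hr', hss⟩ := reduce (by omega) hsC hsB
      refine ⟨s', r + r', hs1', hs2', (AN ∅).add_mem hr hr', ?_, fun h => absurd h hn1⟩
      rw [map_add, ← hrd, hss]; ring
  choose! s r h1 h2 h3 h4 h5 using key
  exact ⟨GG (sq g), fun d => GG_zero d, fun n hn => GG_zero_pos hn, hA, BH_GG hH, eul_GG hH,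
    sum_brk_GG hH, s, r, h1, h2, h3, h4, h5 1 le_rfl rfl⟩

end Pool.Agent.H87
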