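import Pool.Agent.H87.Xhat

/-!
# Removing `u 0, u 1` from the Hamiltonians, and normal forms modulo total derivatives
-/

noncomputable section

namespace Pool.Agent.H87

open Finset

/-! ### homogeneous exactness -/

theorem keep_dx (k l : ℤ) (f : LL) : keep (fun e => wt e = k ∧ ln e = l) (dx f) =
    dx (keep (fun e => wt e = k - 1 ∧ ln e = l) f) := by
  induction f using LL.ind with
  | h0 => simp
  | hadd a b ha hb => simp only [map_add, ha, hb]
  | hsm c e =>
    rw [Derivation.map_smul, map_smul, map_smul, Derivation.map_smul]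
    congr 1
    have h1 : dx (mono e) ∈ BH (wt e + 1) (ln e) := BH_dx (mono_mem_BH e)
    by_cases h : wt e = k - 1 ∧ ln e = l
    · rw [keep_mono_pos (e := e) h, keep_of_mem]
      exact BH_cast h1 (by omega) h.2
    · rw [keep_mono_neg (e := e) h, map_zero]
      apply keep_eq_zero_iff.mpr
      refine SP_mono ?_ h1
      rintro e' ⟨h2, h3⟩ ⟨h4, h5⟩
      exact h ⟨by omega, by omega⟩

theorem exact_hom {N : Set ℕ} {k l : ℤ} (hl : l ≠ 0) {f : LL} (hf : f ∈ BH k l) (hA : f ∈ AN N)
    (he : eul f = 0) : ∃ r, r ∈ AN N ∧ r ∈ BH (k - 1) l ∧ f = dx r := by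
  obtain ⟨r, hr, h⟩ := exact hl hf hA he
  refine ⟨keep (fun e => wt e = k - 1 ∧ ln e = l) r, ?_, ?_, ?_⟩
  · exact SP_mono (fun _ h => h.2) (keep_mem hr)
  · exact SP_mono (fun _ h => h.1) (keep_mem (Q := fun _ => True) (fun _ _ => trivial))
  · rw [← keep_dx, ← h]
    exact (keep_of_mem hf).symm

theorem BH_disj {k l k' l' : ℤ} {f : LL} (hf : f ∈ BH k l) (hf' : f ∈ BH k' l') (h : k ≠ k') :
    f = 0 := by
  apply LL_ext
  intro e
  by_contra he
  exact h ((hf e he).1.symm.trans (hf' e he).1)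

/-- polynomials in `u m, u (m+1), ...` -/
def CC (m : ℕ) : Submodule ℂ LL := SP (fun e => PN ∅ e ∧ ∀ i, i < m → e i = 0)

theorem CC_le {m : ℕ} {f : LL} (hf : f ∈ CC m) : f ∈ AN ∅ := SP_mono (fun _ h => h.1) hf

theorem CC_one_iff {f : LL} : f ∈ CC 1 ↔ f ∈ AN ∅ ∧ pd 0 f = 0 := by
  constructor
  · intro h
    exact ⟨CC_le h, (pd_eq_zero_iff 0 f).mpr (SP_mono (fun _ h => h.2 0 (by norm_num)) h)⟩
  · rintro ⟨h1, h2⟩
    refine SP_mono ?_ (SP_and h1 ((pd_eq_zero_iff 0 f).mp h2))
    rintro e ⟨h3, h4⟩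
    refine ⟨h3, fun i hi => ?_⟩
    have : i = 0 := by omega
    subst this; exact h4

theorem CC_two_iff {f : LL} : f ∈ CC 2 ↔ f ∈ CC 1 ∧ pd 1 f = 0 := by
  constructor
  · intro h
    exact ⟨SP_mono (fun e h => ⟨h.1, fun i hi => h.2 i (by omega)⟩) h,
      (pd_eq_zero_iff 1 f).mpr (SP_mono (fun _ h => h.2 1 (by norm_num)) h)⟩
  · rintro ⟨h1, h2⟩
    refine SP_mono ?_ (SP_and h1 ((pd_eq_zero_iff 1 f).mp h2))
    rintro e ⟨h3, h4⟩
    refine ⟨h3.1, fun i hi => ?_⟩
    have : i = 0 ∨ i = 1 := by omega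
    rcases this with rfl | rfl
    · exact h3.2 0 (by norm_num)
    · exact h4

/-! ### the raising operator -/

/-- `flow (u 0 ^ 2 / 2) - u 0 * dx` -/
def DQ : Derivation ℂ LL LL := flow (G0 1) - (u 0) • dx

/-- raising operator -/
def ee (f : LL) : LL := DQ f - u 1 * f

theorem DQ_apply (f : LL) : DQ f = flow (G0 1) f - u 0 * dx f := by simp [DQ]

theorem ee_add (f g : LL) : ee (f + g) = ee f + ee g := by simp only [ee, map_add]; ring
theorem ee_smul (c : ℂ) (f : LL) : ee (c • f) = c • ee f := by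
  simp only [ee, Derivation.map_smul, mul_smul_comm, smul_sub]
theorem ee_zero : ee 0 = 0 := by simp [ee]

theorem BH_DQ {k l : ℤ} {f : LL} (hf : f ∈ BH k l) : DQ f ∈ BH (k + 1) (l + 1) := by
  rw [DQ_apply]
  exact Submodule.sub_mem _ (BH_cast (BH_flow (BH_G0 1) hf) (by ring) (by push_cast; ring))
    (BH_cast (BH_mul (u_mem_BH 0) (BH_dx hf)) (by push_cast; ring) (by ring))

theorem BH_ee {k l : ℤ} {f : LL} (hf : f ∈ BH k l) : ee f ∈ BH (k + 1) (l + 1) :=
  Submodule.sub_mem _ (BH_DQ hf)
    (BH_cast (BH_mul (u_mem_BH 1) hf) (by push_cast; ring) (by ring))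

theorem pd_zero_DQ (f : LL) (h : pd 0 f = 0) : pd 0 (DQ f) = 0 := by
  rw [DQ_apply, map_sub, pd_zero_flow, h, map_zero, zero_add, pd_zero_G0, G0_zero, flow_u_zero,
    Derivation.leibniz, pd_zero_dx, h, map_zero, smul_zero, zero_add, pd_u, if_pos rfl,
    smul_eq_mul, mul_one, sub_self]

theorem ee_mem_CC {f : LL} (hf : f ∈ CC 1) : ee f ∈ CC 1 := by
  rw [CC_one_iff] at *
  refine ⟨?_, ?_⟩
  · rw [ee, DQ_apply]
    exact (AN ∅).sub_mem ((AN ∅).sub_mem (AN_flow (G0_mem_AN _ _) hf.1)
      ((AN ∅).mul_mem (u_mem_AN _ _) (AN_dx hf.1))) ((AN ∅).mul_mem (u_mem_AN _ _) hf.1)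
  · rw [ee, map_sub, pd_zero_DQ f hf.2, Derivation.leibniz, hf.2, pd_u, if_neg (by norm_num)]
    simp

/-- weight operator -/
theorem EE_apply {k l : ℤ} {f : LL} (hf : f ∈ BH k l) :
    der (fun j => ((j : ℂ) + 1) • u j) f = ((k : ℂ) + l) • f := by
  refine SP_ind (Φ := fun f => der (fun j => ((j : ℂ) + 1) • u j) f = ((k : ℂ) + l) • f)
    ?_ ?_ ?_ hf
  · simp
  · intro a b _ _ ha hb; rw [map_add, ha, hb, smul_add]
  · intro c e he
    rw [Derivation.map_smul, smul_comm, der_mono _ e (Finset.Subset.refl _)]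
    congr 1
    have : ∀ j, (e j) • ((((j : ℂ) + 1) • u j) * mono (e - dl j)) =
        (((j : ℤ) * e j + e j : ℤ) : ℂ) • mono e := by
      intro j
      rw [smul_mul_assoc, u, mono_mul, ← Int.cast_smul_eq_zsmul ℂ, smul_smul]
      have h1 : dl j + (e - dl j) = e := by abel
      rw [h1]
      congr 1
      push_cast; ring
    simp_rw [this]
    rw [← Finset.sum_smul]
    congr 1
    rw [← he.1, ← he.2, wt_eq e (Finset.Subset.refl _), ln_eq e (Finset.Subset.refl _)]
    push_cast
    rw [Finset.sum_add_distrib]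

theorem pd_one_DQ {k l : ℤ} {f : LL} (hf : f ∈ BH k l) (h : pd 0 f = 0) :
    pd 1 (DQ f) = DQ (pd 1 f) + ((k : ℂ) + l) • f := by
  have key : ⁅pd 1, DQ⁆ = der (fun j => ((j : ℂ) + 1) • u j) - (u 0) • pd 0 := by
    apply der_ext
    intro j
    rw [Derivation.commutator_apply, DQ_apply, DQ_apply, pd_u]
    have h0 : flow (G0 1) (if j = 1 then (1 : LL) else 0) -
        u 0 * dx (if j = 1 then (1 : LL) else 0) = 0 := by
      split_ifs <;> simp
    have h1 : pd 1 (G0 1) = 0 := by
      rw [G0, Derivation.map_smul, Derivation.leibniz_pow, pd_u]; simp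
    rw [h0, sub_zero, map_sub, flow, evo_u, ← Function.iterate_succ_apply,
      pd_one_dx_iter _ h1, pd_zero_G0, G0_zero, dx_iter_u, zero_add, Derivation.leibniz, dx_u,
      pd_u, pd_u]
    simp only [Derivation.sub_apply, der_u, Derivation.smul_apply, pd_u, smul_eq_mul]
    by_cases hj : j = 0
    · subst hj; simp
    · simp [hj]
  have := congrArg (fun D : Derivation ℂ LL LL => D f) key
  simp only [Derivation.commutator_apply, Derivation.sub_apply, Derivation.smul_apply, h,
    smul_zero, sub_zero, EE_apply hf] at this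
  rw [← this]; ring

theorem pd_one_ee {k l : ℤ} {f : LL} (hf : f ∈ BH k l) (h : pd 0 f = 0) :
    pd 1 (ee f) = ee (pd 1 f) + ((k : ℂ) + l - 1) • f := by
  rw [ee, map_sub, pd_one_DQ hf h, Derivation.leibniz, pd_u, if_pos rfl, ee, sub_smul, one_smul]
  simp only [smul_eq_mul, mul_one]
  ring

theorem pd1_iter_mem {k l : ℤ} {f : LL} (hf : f ∈ BH k l) (m : ℕ) :
    (pd 1)^[m] f ∈ BH (k - m) (l - m) := by
  induction m with
  | zero => simpa using hf
  | succ m ih =>
    rw [Function.iterate_succ_apply']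
    exact BH_cast (BH_pd ih 1) (by push_cast; ring) (by push_cast; ring)

theorem pd1_mem_CC {f : LL} (hf : f ∈ CC 1) : pd 1 f ∈ CC 1 := by
  rw [CC_one_iff] at *
  exact ⟨AN_pd hf.1 1, by rw [pd_comm, hf.2, map_zero]⟩

theorem pd1_iter_mem_CC {f : LL} (hf : f ∈ CC 1) (m : ℕ) : (pd 1)^[m] f ∈ CC 1 := by
  induction m with
  | zero => exact hf
  | succ m ih => rw [Function.iterate_succ_apply']; exact pd1_mem_CC ih

theorem pd1_iter_ee {k l : ℤ} {f : LL} (hf : f ∈ BH k l) (hC : f ∈ CC 1) (m : ℕ) :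
    (pd 1)^[m + 1] (ee f) = ee ((pd 1)^[m + 1] f) +
      (((m : ℂ) + 1) * ((k : ℂ) + l - m - 1)) • (pd 1)^[m] f := by
  induction m with
  | zero =>
    rw [zero_add, Function.iterate_one, Function.iterate_zero_apply,
      pd_one_ee hf (CC_one_iff.mp hC).2]
    simp
  | succ m ih =>
    have h1 := pd_one_ee (pd1_iter_mem hf (m + 1)) (CC_one_iff.mp (pd1_iter_mem_CC hC (m + 1))).2
    rw [Function.iterate_succ_apply', ih, map_add, h1, Derivation.map_smul,
      ← Function.iterate_succ_apply' (pd 1) m, ← Function.iterate_succ_apply' (pd 1) (m + 1),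
      add_assoc, ← add_smul]
    congr 2
    push_cast
    ring

theorem ln_nonneg {e : Ex} (he : PN ∅ e) : 0 ≤ ln e := by
  rw [ln_eq e (Finset.Subset.refl _)]
  exact Finset.sum_nonneg (fun i _ => he i (by simp))

theorem eq_zero_of_ln {e : Ex} (he : PN ∅ e) (h : ln e = 0) : e = 0 := by
  rw [ln_eq e (Finset.Subset.refl _)] at h
  rw [Finset.sum_eq_zero_iff_of_nonneg (fun i _ => he i (by simp))] at h
  ext i
  by_cases hi : i ∈ e.support
  · exact h i hi
  · simpa using hi

/-- every bihomogeneous polynomial in `u 1, u 2, ...` which is not a multiple of a power of `u 1`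
is, modulo the image of the raising operator, a polynomial in `u 2, u 3, ...` -/
theorem raise_solve (m : ℕ) : ∀ {k l : ℤ} {f : LL}, k ≠ l → f ∈ BH k l → f ∈ CC 1 →
    (pd 1)^[m + 1] f = 0 → ∃ Q s, Q ∈ CC 1 ∧ Q ∈ BH (k - 1) (l - 1) ∧ s ∈ CC 2 ∧ s ∈ BH k l ∧
      f = ee Q + s := by
  induction m with
  | zero =>
    intro k l f _ hf hC h
    exact ⟨0, f, Submodule.zero_mem _, Submodule.zero_mem _, CC_two_iff.mpr ⟨hC, h⟩, hf,
      by rw [ee_zero, zero_add]⟩
  | succ m ih =>
    intro k l f hkl hf hC h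
    by_cases hv : (pd 1)^[m + 1] f = 0
    · exact ih hkl hf hC hv
    · have hc : (((m : ℂ) + 1) * (((k - 1 : ℤ) : ℂ) + ((l - 1 : ℤ) : ℂ) - m - 1)) ≠ 0 := by
        have hmem := pd1_iter_mem hf (m + 1)
        have hCC : (pd 1)^[m + 1] f ∈ CC 2 := CC_two_iff.mpr
          ⟨pd1_iter_mem_CC hC _, by rw [← Function.iterate_succ_apply' (pd 1) (m + 1)]; exact h⟩
        obtain ⟨e, he⟩ : ∃ e, ((pd 1)^[m + 1] f).coeff e ≠ 0 := by
          by_contra h'
          push Not at h'
          exact hv (LL_ext (by intro e; rw [h' e]; rfl))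
        obtain ⟨h1, h2⟩ := hmem e he
        obtain ⟨h3, h4⟩ := hCC e he
        have h5 := ln_nonneg h3
        have h6 : ln e ≠ 0 := by
          intro h0
          have := eq_zero_of_ln h3 h0
          subst this
          simp at h1 h2
          omega
        have h7 := PJ_le (e := e) ⟨⟨h4 0 (by norm_num), h4 1 (by norm_num)⟩,
          fun i _ => h3 i (by simp)⟩
        apply mul_ne_zero
        · exact_mod_cast m.succ_ne_zero
        · have : ((k - 1 + (l - 1) - m - 1 : ℤ) : ℂ) ≠ 0 := by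
            rw [Int.cast_ne_zero]
            push_cast at h1 h2
            omega
          push_cast at this
          push_cast
          exact this
      set c := (((m : ℂ) + 1) * (((k - 1 : ℤ) : ℂ) + ((l - 1 : ℤ) : ℂ) - m - 1)) with hcdef
      have hp : pd 1 f ∈ BH (k - 1) (l - 1) := BH_cast (BH_pd hf 1) (by push_cast; ring) rfl
      have hpC : pd 1 f ∈ CC 1 := pd1_mem_CC hC
      have h1 := pd1_iter_ee hp hpC m
      rw [← hcdef, ← Function.iterate_succ_apply, ← Function.iterate_succ_apply, h, ee_zero,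
        zero_add] at h1
      have hee : ee (pd 1 f) ∈ BH k l := BH_cast (BH_ee hp) (by ring) (by ring)
      obtain ⟨Q, s, hQ, hQ', hs, hs', hQs⟩ := ih (f := f - c⁻¹ • ee (pd 1 f)) hkl
        (Submodule.sub_mem _ hf (Submodule.smul_mem _ _ hee))
        (Submodule.sub_mem _ hC (Submodule.smul_mem _ _ (ee_mem_CC hpC))) (by
          have hlin : ∀ (n : ℕ) (a b : LL) (t : ℂ), (pd 1)^[n] (a - t • b) =
              (pd 1)^[n] a - t • (pd 1)^[n] b := by
            intro n a b t
            induction n with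
            | zero => rfl
            | succ n ihn =>
              simp only [Function.iterate_succ_apply', ihn, map_sub, Derivation.map_smul]
          rw [hlin, h1, smul_smul, inv_mul_cancel₀ hc, one_smul, sub_self])
      refine ⟨Q + c⁻¹ • pd 1 f, s, Submodule.add_mem _ hQ (Submodule.smul_mem _ _ hpC),
        Submodule.add_mem _ hQ' (Submodule.smul_mem _ _ hp), hs, hs', ?_⟩
      rw [ee_add, ee_smul, add_right_comm, ← hQs, sub_add_cancel]

theorem raise_solve' {k l : ℤ} {f : LL} (hkl : k ≠ l) (hf : f ∈ BH k l) (hC : f ∈ CC 1) :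
    ∃ Q s, Q ∈ CC 1 ∧ Q ∈ BH (k - 1) (l - 1) ∧ s ∈ CC 2 ∧ s ∈ BH k l ∧ f = ee Q + s := by
  apply raise_solve l.toNat hkl hf hC
  apply LL_ext
  intro e
  by_contra he
  have h1 := (pd1_iter_mem hf (l.toNat + 1)) e he
  have h2 := (pd1_iter_mem_CC hC (l.toNat + 1)) e he
  have h3 := ln_nonneg h2.1
  have h4 := Int.self_le_toNat l
  push_cast at h1
  omega

/-- bracket of `u 0 ^ 2 / 2` with a gradient -/
theorem brk_G0_one {Q : LL} (hQ : pd 0 Q = 0) : brk (G0 1) (eul Q) = - eul (ee Q) := by
  have h0 : G0 1 = eul (G0 2) := by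
    have hb : ∀ i, 1 ≤ i → pd i (G0 2) = 0 := by
      intro i hi
      rw [G0, Derivation.map_smul, Derivation.leibniz_pow, pd_u, if_neg (by omega)]
      simp
    rw [eul_eq _ hb]
    simp [pd_zero_G0]
  have h1 : flow (G0 1) Q = ee Q + dx (u 0 * Q) := by
    rw [ee, DQ_apply, Derivation.leibniz, dx_u]
    simp only [smul_eq_mul, zero_add]
    ring
  conv_lhs => rw [h0]
  rw [brk_eul', ← h0, h1, eul_add, eul_dx, add_zero]

/-- replacing the Hamiltonian by one not depending on `u 0` -/
theorem drop_u_zero {k l : ℤ} {g1 g2 : LL} (hk : k ≠ 1) (hl : l ≠ 1) (h2 : g2 ∈ BH k l)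
    (h2A : g2 ∈ AN ∅) (hp : pd 0 g2 = g1) (hp1 : pd 0 g1 = 0) (he2 : eul g2 = g1)
    (he1 : eul g1 = 0) : ∃ h ∈ CC 1, h ∈ BH k l ∧ eul h = g1 := by
  have h1 : g1 ∈ BH k (l - 1) := by
    rw [← hp]; exact BH_cast (BH_pd h2 0) (by push_cast; ring) rfl
  have h1A : g1 ∈ AN ∅ := by rw [← hp]; exact AN_pd h2A 0
  obtain ⟨μ, hμA, hμ, hdx⟩ := exact_hom (by omega) h1 h1A he1
  have hμ0 : pd 0 μ = 0 := by
    have h3 : dx (pd 0 μ) = 0 := by rw [← pd_zero_dx, ← hdx, hp1]
    exact BH_disj (const_of_dx_eq_zero _ h3) (BH_pd hμ 0) (by push_cast; omega)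
  refine ⟨g2 - u 0 * g1 - u 1 * μ, ?_, ?_, ?_⟩
  · rw [CC_one_iff]
    refine ⟨(AN ∅).sub_mem ((AN ∅).sub_mem h2A ((AN ∅).mul_mem (u_mem_AN _ _) h1A))
      ((AN ∅).mul_mem (u_mem_AN _ _) hμA), ?_⟩
    rw [map_sub, map_sub, Derivation.leibniz, Derivation.leibniz, hp, hp1, hμ0, pd_u, pd_u,
      if_pos rfl, if_neg (by norm_num)]
    simp
  · refine Submodule.sub_mem _ (Submodule.sub_mem _ h2 ?_) ?_
    · exact BH_cast (BH_mul (u_mem_BH 0) h1) (by push_cast; ring) (by ring)
    · exact BH_cast (BH_mul (u_mem_BH 1) hμ) (by push_cast; ring) (by ring)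
  · have h3 : g2 - u 0 * g1 - u 1 * μ = g2 - dx (u 0 * μ) := by
      rw [Derivation.leibniz, dx_u, ← hdx]
      simp only [smul_eq_mul, zero_add]
      ring
    rw [h3, eul_sub, eul_dx, sub_zero, he2]

/-! ### normal forms modulo total derivatives -/

/-- exponents of the partitions with at least two parts, all at least two, the largest part being
repeated -/
def PP (e : Ex) : Prop := PN ∅ e ∧ (∀ i, i < 2 → e i = 0) ∧ ∃ M, 2 ≤ e M ∧ ∀ i, M < i → e i = 0

/-- polynomials in `u 2, ..., u (n-1)` -/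
def FF (n : ℕ) (e : Ex) : Prop := PN ∅ e ∧ (∀ i, i < 2 → e i = 0) ∧ (∀ i, n ≤ i → e i = 0)

theorem FF_add {n : ℕ} {e f : Ex} (he : FF n e) (hf : FF n f) : FF n (e + f) := by
  refine ⟨fun i hi => ?_, fun i hi => ?_, fun i hi => ?_⟩
  · rw [Finsupp.add_apply]; exact add_nonneg (he.1 i hi) (hf.1 i hi)
  · rw [Finsupp.add_apply, he.2.1 i hi, hf.2.1 i hi, add_zero]
  · rw [Finsupp.add_apply, he.2.2 i hi, hf.2.2 i hi, add_zero]

theorem FF_dl {n j : ℕ} (h2 : 2 ≤ j) (hj : j < n) : FF n (dl j) := by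
  refine ⟨fun i _ => ?_, fun i hi => ?_, fun i hi => ?_⟩ <;>
    rw [dl, Finsupp.single_apply]
  · split_ifs <;> norm_num
  · rw [if_neg (by omega)]
  · rw [if_neg (by omega)]

theorem FF_dx {n : ℕ} {f : LL} (hf : f ∈ SP (FF n)) : dx f ∈ SP (FF (n + 1)) := by
  refine der_mem_SP ?_ hf
  intro e he j hj
  have h2 : 2 ≤ j := by
    by_contra h; exact hj (he.2.1 j (by omega))
  have hn : j < n := by
    by_contra h; exact hj (he.2.2 j (by omega))
  rw [u, mono_mul]
  apply mono_mem_SP
  refine ⟨fun i hi => ?_, fun i hi => ?_, fun i hi => ?_⟩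
  · have h1 := he.1 i hi
    have h3 := he.1 j (by simp)
    rw [Finsupp.add_apply, Finsupp.sub_apply, dl, dl, Finsupp.single_apply, Finsupp.single_apply]
    split_ifs with h4 h5 h5
    · omega
    · omega
    · subst h5; omega
    · omega
  · have h1 := he.2.1 i hi
    rw [Finsupp.add_apply, Finsupp.sub_apply, dl, dl, Finsupp.single_apply, Finsupp.single_apply,
      if_neg (by omega), if_neg (by omega), h1]
    norm_num
  · have h1 := he.2.2 i (by omega)
    rw [Finsupp.add_apply, Finsupp.sub_apply, dl, dl, Finsupp.single_apply, Finsupp.single_apply,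
      if_neg (by omega), if_neg (by omega), h1]
    norm_num

theorem reduce_aux {k l : ℤ} (hl : 2 ≤ l) (n : ℕ) : ∀ f : LL, f ∈ SP (FF n) → f ∈ BH k l →
    ∃ s r, s ∈ SP PP ∧ s ∈ BH k l ∧ r ∈ AN ∅ ∧ f = s + dx r := by
  induction n with
  | zero =>
    intro f hf hB
    refine ⟨0, 0, Submodule.zero_mem _, Submodule.zero_mem _, (AN ∅).zero_mem, ?_⟩
    rw [map_zero, add_zero]
    apply LL_ext
    intro e
    by_contra he
    obtain ⟨h1, h2⟩ := hB e he
    obtain ⟨h3, h4, h5⟩ := hf e he
    have : e = 0 := by ext i; exact h5 i (Nat.zero_le i)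
    subst this
    simp at h2
    omega
  | succ n ih =>
    intro f hf hB
    refine SP_ind (Φ := fun f => ∃ s r, s ∈ SP PP ∧ s ∈ BH k l ∧ r ∈ AN ∅ ∧ f = s + dx r)
      ?_ ?_ ?_ (SP_and hf hB)
    · exact ⟨0, 0, Submodule.zero_mem _, Submodule.zero_mem _, (AN ∅).zero_mem, by simp⟩
    · rintro a b _ _ ⟨s, r, h1, h2, h3, rfl⟩ ⟨s', r', h1', h2', h3', rfl⟩
      refine ⟨s + s', r + r', Submodule.add_mem _ h1 h1', Submodule.add_mem _ h2 h2',
        (AN ∅).add_mem h3 h3', ?_⟩
      rw [map_add]; ring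
    · rintro c e ⟨⟨h1, h2, h3⟩, h4, h5⟩
      have hBe : c • mono e ∈ BH k l := Submodule.smul_mem _ _ (mono_mem_SP ⟨h4, h5⟩)
      have hen := h1 n (by simp)
      by_cases hn0 : e n = 0
      · apply ih _ _ hBe
        apply Submodule.smul_mem
        apply mono_mem_SP
        refine ⟨h1, h2, fun i hi => ?_⟩
        by_cases hin : i = n
        · subst hin; exact hn0
        · exact h3 i (by omega)
      by_cases hn2 : 2 ≤ e n
      · refine ⟨c • mono e, 0, Submodule.smul_mem _ _ (mono_mem_SP ⟨h1, h2, n, hn2, ?_⟩), hBe,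
          (AN ∅).zero_mem, by simp⟩
        intro i hi; exact h3 i (by omega)
      · have hn1 : e n = 1 := by omega
        have hn2' : 2 ≤ n := by
          by_contra h; exact hn0 (h2 n (by omega))
        by_cases hn3 : n = 2
        · exfalso
          subst hn3
          have hs : e.support ⊆ {2} := by
            intro i hi
            rw [Finsupp.mem_support_iff] at hi
            by_contra h'
            have hi2 : i ≠ 2 := by simpa using h'
            by_cases hlt : i < 2
            · exact hi (h2 i hlt)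
            · exact hi (h3 i (by omega))
          rw [ln_eq e hs, Finset.sum_singleton, hn1] at h5
          omega
        · -- `mono e = u_n u_{n-1}^m X`
          obtain ⟨p, rfl⟩ : ∃ p, n = p + 1 := ⟨n - 1, by omega⟩
          have hp2 : 2 ≤ p := by omega
          obtain ⟨m, hm⟩ : ∃ m : ℕ, e p = m := ⟨(e p).toNat, by
            have := h1 p (by simp); omega⟩
          set x : Ex := e - dl (p + 1) - (m : ℤ) • dl p with hx
          have hupow : ∀ (j n : ℕ), u j ^ n = mono ((n : ℤ) • dl j) := by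
            intro j n
            induction n with
            | zero => simp [mono_zero]
            | succ n ih => rw [pow_succ, ih, u, mono_mul]; congr 1; push_cast; rw [add_smul, one_smul]
          have hxF : FF p x := by
            refine ⟨fun i hi => ?_, fun i hi => ?_, fun i hi => ?_⟩
            · have := h1 i hi
              rw [hx, Finsupp.sub_apply, Finsupp.sub_apply, Finsupp.smul_apply, dl, dl,
                Finsupp.single_apply, Finsupp.single_apply]
              split_ifs with h6 h7 h7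
              · omega
              · subst h6; simp; omega
              · subst h7; simp; omega
              · simpa using this
            · have := h2 i hi
              rw [hx, Finsupp.sub_apply, Finsupp.sub_apply, Finsupp.smul_apply, dl, dl,
                Finsupp.single_apply, Finsupp.single_apply, if_neg (by omega), if_neg (by omega),
                this]
              simp
            · rw [hx, Finsupp.sub_apply, Finsupp.sub_apply, Finsupp.smul_apply, dl, dl,
                Finsupp.single_apply, Finsupp.single_apply]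
              by_cases h6 : p + 1 = i
              · subst h6; simp [hn1]
              · by_cases h7 : p = i
                · subst h7; simp [hm]
                · have := h3 i (by omega)
                  simp [h6, h7, this]
          have hm1 : ((m : ℂ) + 1) ≠ 0 := by exact_mod_cast m.succ_ne_zero
          have hme : mono e = u (p + 1) * u p ^ m * mono x := by
            rw [hupow, u, mono_mul, mono_mul, hx]
            congr 1; abel
          have hid : c • mono e = dx ((c * ((m : ℂ) + 1)⁻¹) • (u p ^ (m + 1) * mono x)) +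
              (-(c * ((m : ℂ) + 1)⁻¹)) • (u p ^ (m + 1) * dx (mono x)) := by
            rw [Derivation.map_smul, Derivation.leibniz, Derivation.leibniz_pow, dx_u, hme]
            simp only [Nat.add_sub_cancel, smul_eq_mul]
            rw [← Nat.cast_smul_eq_nsmul ℂ]
            push_cast
            rw [smul_add, add_right_comm, neg_smul, add_neg_cancel, zero_add, mul_smul_comm,
              smul_smul, mul_assoc c, inv_mul_cancel₀ hm1, mul_one]
            congr 1
            ring
          have hxA : mono x ∈ SP (FF p) := mono_mem_SP hxF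
          have hF : u p ^ (m + 1) * dx (mono x) ∈ SP (FF (p + 1)) := by
            refine SP_mul (P := FF (p + 1)) (Q := FF (p + 1)) (fun e f => FF_add) ?_ (FF_dx hxA)
            rw [hupow]
            apply mono_mem_SP
            have hd := FF_dl (n := p + 1) hp2 (by omega)
            refine ⟨fun i hi => ?_, fun i hi => ?_, fun i hi => ?_⟩
            · rw [Finsupp.smul_apply, smul_eq_mul]
              exact mul_nonneg (by positivity) (hd.1 i hi)
            · rw [Finsupp.smul_apply, hd.2.1 i hi, smul_zero]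
            · rw [Finsupp.smul_apply, hd.2.2 i hi, smul_zero]
          have hA1 : (c * ((m : ℂ) + 1)⁻¹) • (u p ^ (m + 1) * mono x) ∈ AN ∅ := by
            apply AN_smul
            exact (AN ∅).mul_mem ((AN ∅).pow_mem (u_mem_AN _ _) _)
              (mono_mem_SP hxF.1)
          have hxB : mono x ∈ BH (k - (p + 1) - m * p) (l - 1 - m) := by
            have := mono_mem_BH x
            rw [hx, map_sub, map_sub, map_sub, map_sub, map_zsmul, map_zsmul, wt_dl, wt_dl, ln_dl,
              ln_dl, h4, h5] at this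
            refine BH_cast this ?_ ?_
            · simp
            · simp
          have hB1 : u p ^ (m + 1) * dx (mono x) ∈ BH k l :=
            BH_cast (BH_mul (BH_pow (u_mem_BH p) (m + 1)) (BH_dx hxB))
              (by push_cast; ring) (by push_cast; ring)
          obtain ⟨s, r, hs1, hs2, hr, hsr⟩ := ih _
            (Submodule.smul_mem _ (-(c * ((m : ℂ) + 1)⁻¹)) hF) (Submodule.smul_mem _ _ hB1)
          refine ⟨s, _ + r, hs1, hs2, (AN ∅).add_mem hA1 hr, ?_⟩
          rw [map_add, hid, hsr]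
          ring

/-- normal form -/
theorem reduce {k l : ℤ} (hl : 2 ≤ l) {f : LL} (hC : f ∈ CC 2) (hB : f ∈ BH k l) :
    ∃ s r, s ∈ SP PP ∧ s ∈ BH k l ∧ r ∈ AN ∅ ∧ f = s + dx r := by
  apply reduce_aux hl (f.coeff.support.sup (fun e => e.support.sup id + 1)) f _ hB
  intro e he
  obtain ⟨h1, h2⟩ := hC e he
  refine ⟨h1, h2, fun i hi => ?_⟩
  by_contra hne
  have h3 : e ∈ f.coeff.support := by simpa using he
  have h4 : i ∈ e.support := by simpa using hne
  have h5 : e.support.sup id + 1 ≤ f.coeff.support.sup (fun e => e.support.sup id + 1) :=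
    Finset.le_sup (f := fun e : Ex => e.support.sup id + 1) h3
  have h6 : i ≤ e.support.sup id := Finset.le_sup (f := id) h4
  omega

end Pool.Agent.H87
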