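import Pool.Agent.H87.Supp

/-!
# The recursion for the deformed gradients
-/

noncomputable section

namespace Pool.Agent.H87

open Finset

theorem sum_ad_assoc {M : Type*} [AddCommMonoid M] (n : ℕ) (f : ℕ → ℕ → ℕ → M) :
    ∑ p ∈ antidiagonal n, ∑ q ∈ antidiagonal p.1, f q.1 q.2 p.2 =
    ∑ p ∈ antidiagonal n, ∑ q ∈ antidiagonal p.2, f p.1 q.1 q.2 := by
  rw [Finset.sum_sigma', Finset.sum_sigma']
  refine Finset.sum_nbij' (fun x => ⟨(x.2.1, x.2.2 + x.1.2), (x.2.2, x.1.2)⟩)
    (fun x => ⟨(x.1.1 + x.2.1, x.2.2), (x.1.1, x.2.1)⟩) ?_ ?_ ?_ ?_ ?_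
  · rintro ⟨⟨a, b⟩, ⟨c, d⟩⟩ h
    simp only [mem_sigma, HasAntidiagonal.mem_antidiagonal] at h ⊢
    obtain ⟨h1, h2⟩ := h
    exact ⟨by omega, trivial⟩
  · rintro ⟨⟨a, b⟩, ⟨c, d⟩⟩ h
    simp only [mem_sigma, HasAntidiagonal.mem_antidiagonal] at h ⊢
    obtain ⟨h1, h2⟩ := h
    exact ⟨by omega, trivial⟩
  · rintro ⟨⟨a, b⟩, ⟨c, d⟩⟩ h
    simp only [mem_sigma, HasAntidiagonal.mem_antidiagonal] at h ⊢
    obtain ⟨h1, h2⟩ := h
    subst h2
    rfl
  · rintro ⟨⟨a, b⟩, ⟨c, d⟩⟩ h
    simp only [mem_sigma, HasAntidiagonal.mem_antidiagonal] at h ⊢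
    obtain ⟨h1, h2⟩ := h
    subst h2
    rfl
  · rintro ⟨⟨a, b⟩, ⟨c, d⟩⟩ h
    rfl

/-- undeformed gradients -/
def G0 (d : ℕ) : LL := ((d + 1).factorial : ℂ)⁻¹ • u 0 ^ (d + 1)

/-- deformed gradients, generated by the time-dependent potentials `γ` -/
def G (γ : ℕ → LL) (d : ℕ) : ℕ → LL
  | 0 => G0 d
  | n + 1 => ((n : ℂ) + 1)⁻¹ • ∑ j : Fin (n + 1), brk (G γ d (n - j)) (γ (j + 1))
termination_by n => n
decreasing_by omega

theorem G_zero (γ : ℕ → LL) (d : ℕ) : G γ d 0 = G0 d := by rw [G]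

theorem G_succ (γ : ℕ → LL) (d n : ℕ) : G γ d (n + 1) =
    ((n : ℂ) + 1)⁻¹ • ∑ j ∈ range (n + 1), brk (G γ d (n - j)) (γ (j + 1)) := by
  rw [G, Fin.sum_univ_eq_sum_range (fun j => brk (G γ d (n - j)) (γ (j + 1)))]

theorem G_rec {γ : ℕ → LL} (h0 : γ 0 = 0) (d n : ℕ) :
    (n : ℂ) • G γ d n = ∑ p ∈ antidiagonal n, brk (G γ d p.1) (γ p.2) := by
  cases n with
  | zero => simp [h0, brk_zero_right]
  | succ n =>
    rw [Finset.Nat.sum_antidiagonal_succ', h0, brk_zero_right, zero_add,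
      ← Finset.Nat.sum_antidiagonal_swap, G_succ]
    simp only [Prod.fst_swap, Prod.snd_swap]
    rw [Finset.Nat.sum_antidiagonal_eq_sum_range_succ
      (fun a b => brk (G γ d b) (γ (a + 1))), smul_smul]
    have : ((n + 1 : ℕ) : ℂ) * ((n : ℂ) + 1)⁻¹ = 1 := by
      push_cast
      exact mul_inv_cancel₀ (by exact_mod_cast n.succ_ne_zero)
    rw [this, one_smul]

theorem G_congr {γ γ' : ℕ → LL} (d n : ℕ) (h : ∀ j, j ≤ n → γ j = γ' j) :
    G γ d n = G γ' d n := by
  induction n using Nat.strong_induction_on with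
  | _ n ih =>
    cases n with
    | zero => rw [G_zero, G_zero]
    | succ n =>
      rw [G_succ γ d n, G_succ γ' d n]
      refine congrArg _ (Finset.sum_congr rfl ?_)
      intro j hj
      rw [Finset.mem_range] at hj
      rw [ih (n - j) (by omega) (fun k hk => h k (by omega)), h (j + 1) (by omega)]

/-- induction principle: any property stable under the recursion -/
theorem G_ind {γ : ℕ → LL} {Φ : ℕ → LL → Prop} (d : ℕ)
    (h0 : Φ 0 (G0 d)) (hadd : ∀ n a b, Φ n a → Φ n b → Φ n (a + b)) (hz : ∀ n, Φ n 0)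
    (hsmul : ∀ n (c : ℂ) a, Φ n a → Φ n (c • a)) (N : ℕ)
    (hbrk : ∀ i j a, 1 ≤ j → i + j ≤ N → Φ i a → Φ (i + j) (brk a (γ j))) :
    ∀ n, n ≤ N → Φ n (G γ d n) := by
  intro n
  induction n using Nat.strong_induction_on with
  | _ n ih =>
    intro hn
    cases n with
    | zero => rw [G_zero]; exact h0
    | succ n =>
      rw [G_succ]
      apply hsmul
      have : ∀ s : Finset ℕ, s ⊆ range (n + 1) →
          Φ (n + 1) (∑ j ∈ s, brk (G γ d (n - j)) (γ (j + 1))) := by
        classical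
        intro s
        induction s using Finset.induction_on with
        | empty => intro _; simpa using hz (n + 1)
        | insert a s ha ih2 =>
          intro hs
          rw [Finset.insert_subset_iff, Finset.mem_range] at hs
          rw [Finset.sum_insert ha]
          refine hadd _ _ _ ?_ (ih2 hs.2)
          have h1 := hbrk (n - a) (a + 1) (G γ d (n - a)) (by omega) (by omega)
            (ih (n - a) (by omega) (by omega))
          have h2 : n - a + (a + 1) = n + 1 := by omega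
          rwa [h2] at h1
      exact this _ (Finset.Subset.refl _)

theorem pd_zero_G0 (d : ℕ) : pd 0 (G0 (d + 1)) = G0 d := by
  rw [G0, G0, Derivation.map_smul, Derivation.leibniz_pow, pd_u, if_pos rfl]
  simp only [Nat.add_sub_cancel, smul_eq_mul, mul_one]
  rw [← Nat.cast_smul_eq_nsmul ℂ, smul_smul]
  congr 1
  rw [Nat.factorial_succ (d + 1)]
  push_cast
  have h1 : ((d : ℂ) + 1 + 1) ≠ 0 := by exact_mod_cast (d + 1).succ_ne_zero
  have h2 : (((d + 1).factorial : ℕ) : ℂ) ≠ 0 := by exact_mod_cast (d + 1).factorial_ne_zero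
  field_simp

theorem G0_zero : G0 0 = u 0 := by simp [G0]

theorem pd_zero_G {γ : ℕ → LL} (h : ∀ n, pd 0 (γ n) = 0) (d n : ℕ) :
    pd 0 (G γ (d + 1) n) = G γ d n := by
  induction n using Nat.strong_induction_on with
  | _ n ih =>
    cases n with
    | zero => rw [G_zero, G_zero, pd_zero_G0]
    | succ n =>
      rw [G_succ γ (d + 1) n, G_succ γ d n, Derivation.map_smul, map_sum]
      congr 1
      apply Finset.sum_congr rfl
      intro j hj
      rw [pd_zero_brk, h, brk_zero_right, add_zero, ih (n - j) (by omega)]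

theorem G_zero_pos {γ : ℕ → LL} (n : ℕ) (hn : 1 ≤ n) : G γ 0 n = 0 := by
  induction n using Nat.strong_induction_on with
  | _ n ih =>
    cases n with
    | zero => omega
    | succ n =>
      rw [G_succ, Finset.sum_eq_zero, smul_zero]
      intro j hj
      by_cases h : n - j = 0
      · rw [h, G_zero, G0_zero, brk_u_zero]
      · rw [ih (n - j) (by omega) (by omega), brk_zero_left]

theorem brk_G0 (p q : ℕ) : brk (G0 p) (G0 q) = 0 := by
  have key : ∀ p q : ℕ, flow (u 0 ^ (q + 1)) (u 0 ^ (p + 1)) = flow (u 0 ^ (p + 1)) (u 0 ^ (q + 1)) := by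
    intro p q
    rw [Derivation.leibniz_pow, Derivation.leibniz_pow, flow, flow, evo_u, evo_u,
      Function.iterate_zero_apply, Function.iterate_zero_apply, Derivation.leibniz_pow,
      Derivation.leibniz_pow]
    simp only [Nat.add_sub_cancel, smul_eq_mul, nsmul_eq_mul]
    ring
  rw [brk, G0, G0, flow_smul, flow_smul, Derivation.map_smul, Derivation.map_smul, key,
    smul_comm, sub_self]

/-- the deformed gradients are in involution -/
theorem sum_brk_G {γ : ℕ → LL} (h0 : γ 0 = 0) (p q n : ℕ) :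
    ∑ x ∈ antidiagonal n, brk (G γ p x.1) (G γ q x.2) = 0 := by
  induction n using Nat.strong_induction_on with
  | _ n ih =>
    by_cases hn : n = 0
    · subst hn
      simp [G_zero, brk_G0]
    · have key : (n : ℂ) • ∑ x ∈ antidiagonal n, brk (G γ p x.1) (G γ q x.2) =
          ∑ x ∈ antidiagonal n, brk (∑ y ∈ antidiagonal x.1, brk (G γ p y.1) (G γ q y.2))
            (γ x.2) := by
        have e1 : (n : ℂ) • ∑ x ∈ antidiagonal n, brk (G γ p x.1) (G γ q x.2) =
            ∑ x ∈ antidiagonal n, brk ((x.1 : ℂ) • G γ p x.1) (G γ q x.2) +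
            ∑ x ∈ antidiagonal n, brk (G γ p x.1) ((x.2 : ℂ) • G γ q x.2) := by
          rw [Finset.smul_sum, ← Finset.sum_add_distrib]
          apply Finset.sum_congr rfl
          intro x hx
          rw [HasAntidiagonal.mem_antidiagonal] at hx
          rw [brk_smul_left, brk_smul_right, ← add_smul, ← hx]
          push_cast; rfl
        have e2 : ∑ x ∈ antidiagonal n, brk ((x.1 : ℂ) • G γ p x.1) (G γ q x.2) =
            ∑ x ∈ antidiagonal n, ∑ y ∈ antidiagonal x.2,
              brk (brk (G γ p x.1) (γ y.1)) (G γ q y.2) := by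
          rw [← sum_ad_assoc n (fun a b c => brk (brk (G γ p a) (γ b)) (G γ q c))]
          apply Finset.sum_congr rfl
          intro x _
          rw [G_rec h0, brk_sum_left]
        have e3 : ∑ x ∈ antidiagonal n, brk (G γ p x.1) ((x.2 : ℂ) • G γ q x.2) =
            ∑ x ∈ antidiagonal n, ∑ y ∈ antidiagonal x.2,
              brk (G γ p x.1) (brk (G γ q y.2) (γ y.1)) := by
          apply Finset.sum_congr rfl
          intro x _
          rw [G_rec h0, brk_sum_right, ← Finset.Nat.sum_antidiagonal_swap]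
          rfl
        rw [e1, e2, e3, ← Finset.sum_add_distrib]
        have e4 : ∀ x ∈ antidiagonal n,
            (∑ y ∈ antidiagonal x.2, brk (brk (G γ p x.1) (γ y.1)) (G γ q y.2) +
            ∑ y ∈ antidiagonal x.2, brk (G γ p x.1) (brk (G γ q y.2) (γ y.1))) =
            ∑ y ∈ antidiagonal x.2, brk (brk (G γ p x.1) (G γ q y.1)) (γ y.2) := by
          intro x _
          rw [← Finset.sum_add_distrib, ← Finset.Nat.sum_antidiagonal_swap]
          apply Finset.sum_congr rfl
          intro y _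
          simp only [Prod.fst_swap, Prod.snd_swap]
          rw [brk_jacobi]
        rw [Finset.sum_congr rfl e4,
          ← sum_ad_assoc n (fun a b c => brk (brk (G γ p a) (G γ q b)) (γ c))]
        apply Finset.sum_congr rfl
        intro x _
        rw [brk_sum_left]
      have hz : ∑ x ∈ antidiagonal n, brk (∑ y ∈ antidiagonal x.1, brk (G γ p y.1) (G γ q y.2))
            (γ x.2) = 0 := by
        apply Finset.sum_eq_zero
        intro x hx
        rw [HasAntidiagonal.mem_antidiagonal] at hx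
        by_cases hx2 : x.2 = 0
        · rw [hx2, h0, brk_zero_right]
        · rw [ih x.1 (by omega), brk_zero_left]
      rw [hz] at key
      exact (smul_eq_zero.mp key).resolve_left (by exact_mod_cast hn)

theorem G0_grad (d : ℕ) : ∃ h, G0 d = eul h := by
  refine ⟨G0 (d + 1), ?_⟩
  have hb : ∀ i, 1 ≤ i → pd i (G0 (d + 1)) = 0 := by
    intro i hi
    rw [G0, Derivation.map_smul, Derivation.leibniz_pow, pd_u, if_neg (by omega)]
    simp
  rw [eul_eq _ hb]
  simp [pd_zero_G0]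

theorem G_grad {γ : ℕ → LL} (h : ∀ n, ∃ f, γ n = eul f) (d n : ℕ) : ∃ f, G γ d n = eul f := by
  refine G_ind (γ := γ) (Φ := fun _ a => ∃ f, a = eul f) d (G0_grad d) ?_ ?_ ?_ n ?_ n le_rfl
  · rintro n _ _ ⟨f, rfl⟩ ⟨g, rfl⟩
    exact ⟨f + g, (eul_add f g).symm⟩
  · intro n; exact ⟨0, eul_zero.symm⟩
  · rintro n c _ ⟨f, rfl⟩
    exact ⟨c • f, (eul_smul c f).symm⟩
  · rintro i j _ _ _ ⟨f, rfl⟩
    obtain ⟨g, hg⟩ := h j
    rw [hg, brk_eul]
    exact ⟨_, rfl⟩

theorem eul_G {γ : ℕ → LL} (h : ∀ n, ∃ f, γ n = eul f) (hp : ∀ n, pd 0 (γ n) = 0) (d n : ℕ) :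
    eul (G γ (d + 1) n) = G γ d n := by
  obtain ⟨f, hf⟩ := G_grad h (d + 1) n
  rw [hf, eul_eul, ← hf, pd_zero_G hp]

/-- bracket with a gradient, as a gradient -/
theorem brk_eul' (h f : LL) : brk (eul h) (eul f) = - eul (flow (eul h) f) := by
  rw [brk_eul, flow, eul_evo_eq]
  have h1 := eul_dx (eul h * eul f)
  rw [Derivation.leibniz, eul_add, smul_eq_mul, smul_eq_mul] at h1
  rw [mul_comm (dx (eul h))]
  exact eq_neg_of_add_eq_zero_left h1

theorem BH_G0 (d : ℕ) : G0 d ∈ BH 0 (d + 1) := by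
  apply Submodule.smul_mem
  exact BH_cast (BH_pow (u_mem_BH 0) (d + 1)) (by simp) (by push_cast; ring)

theorem G0_mem_AN (N : Set ℕ) (d : ℕ) : G0 d ∈ AN N :=
  AN_smul _ ((AN N).pow_mem (u_mem_AN N 0) _)

/-- bidegree of the deformed gradients -/
theorem BH_G {γ : ℕ → LL} {a b : ℤ} (N : ℕ) (hγ : ∀ j : ℕ, 1 ≤ j → j ≤ N →
    γ j ∈ BH (j * a - 1) (j * b + 1)) (d : ℕ) (n : ℕ) (hn : n ≤ N) :
    G γ d n ∈ BH (n * a) (n * b + d + 1) := by
  refine G_ind (γ := γ) (Φ := fun n f => f ∈ BH ((n : ℤ) * a) (n * b + d + 1)) d ?_ ?_ ?_ ?_ N ?_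
    n hn
  · exact BH_cast (BH_G0 d) (by simp) (by simp)
  · intro n f g; exact Submodule.add_mem _
  · intro n; exact Submodule.zero_mem _
  · intro n c f; exact Submodule.smul_mem _ c
  · intro i j f hj hij hf
    exact BH_cast (BH_brk hf (hγ j hj (by omega))) (by push_cast; ring) (by push_cast; ring)

end Pool.Agent.H87
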