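import Pool.Agent.H87.Euler

/-!
# Supports and bigradings of Laurent differential polynomials
-/

noncomputable section

namespace Pool.Agent.H87

open Finset

/-! ### submodules given by support conditions -/

/-- Laurent polynomials all of whose exponents satisfy `P` -/
def SP (P : Ex → Prop) : Submodule ℂ LL where
  carrier := {f | ∀ e, f.coeff e ≠ 0 → P e}
  add_mem' := by
    intro a b ha hb e he
    by_cases h : a.coeff e = 0
    · apply hb e
      intro h'
      apply he
      rw [AddMonoidAlgebra.coeff_add, Finsupp.add_apply, h, h', add_zero]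
    · exact ha e h
  zero_mem' := by intro e he; simp at he
  smul_mem' := by
    intro c a ha e he
    apply ha e
    intro h
    apply he
    rw [AddMonoidAlgebra.coeff_smul, Finsupp.smul_apply, h, smul_zero]

theorem mem_SP {P : Ex → Prop} {f : LL} : f ∈ SP P ↔ ∀ e, f.coeff e ≠ 0 → P e := Iff.rfl

theorem coeff_mono (e e' : Ex) : (mono e).coeff e' = if e = e' then 1 else 0 := by
  classical
  rw [mono, AddMonoidAlgebra.coeff_single, Finsupp.single_apply]

theorem mono_mem_SP {P : Ex → Prop} {e : Ex} (h : P e) : mono e ∈ SP P := by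
  intro e' he'
  rw [coeff_mono] at he'
  by_cases h' : e = e'
  · exact h' ▸ h
  · simp [h'] at he'

theorem eq_sum_mono (f : LL) : f = ∑ e ∈ f.coeff.support, f.coeff e • mono e := by
  conv_lhs => rw [← AddMonoidAlgebra.sum_coeff_single f]
  rw [Finsupp.sum]
  apply Finset.sum_congr rfl
  intro e _
  rw [single_eq]

theorem SP_ind {P : Ex → Prop} {Φ : LL → Prop} (h0 : Φ 0)
    (hadd : ∀ f g, f ∈ SP P → g ∈ SP P → Φ f → Φ g → Φ (f + g))
    (hm : ∀ (c : ℂ) e, P e → Φ (c • mono e)) {f : LL} (hf : f ∈ SP P) : Φ f := by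
  classical
  rw [eq_sum_mono f]
  have : ∀ s : Finset Ex, s ⊆ f.coeff.support →
      (∑ e ∈ s, f.coeff e • mono e) ∈ SP P ∧ Φ (∑ e ∈ s, f.coeff e • mono e) := by
    intro s
    induction s using Finset.induction_on with
    | empty => intro _; simpa using h0
    | insert a s ha ih =>
      intro hs
      rw [Finset.insert_subset_iff] at hs
      obtain ⟨h1, h2⟩ := ih hs.2
      have hPa : P a := hf a (by simpa using hs.1)
      rw [Finset.sum_insert ha]
      exact ⟨(SP P).add_mem ((SP P).smul_mem _ (mono_mem_SP hPa)) h1,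
        hadd _ _ ((SP P).smul_mem _ (mono_mem_SP hPa)) h1 (hm _ _ hPa) h2⟩
  exact (this _ (Finset.Subset.refl _)).2

theorem SP_mono {P Q : Ex → Prop} (h : ∀ e, P e → Q e) {f : LL} (hf : f ∈ SP P) : f ∈ SP Q :=
  fun e he => h e (hf e he)

theorem SP_and {P Q : Ex → Prop} {f : LL} (hf : f ∈ SP P) (hg : f ∈ SP Q) :
    f ∈ SP (fun e => P e ∧ Q e) := fun e he => ⟨hf e he, hg e he⟩

theorem SP_mul {P Q R : Ex → Prop} (h : ∀ e f, P e → Q f → R (e + f)) {a b : LL}
    (ha : a ∈ SP P) (hb : b ∈ SP Q) : a * b ∈ SP R := by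
  refine SP_ind (Φ := fun a => a * b ∈ SP R) ?_ ?_ ?_ ha
  · simpa using (SP R).zero_mem
  · intro f g _ _ hf hg; rw [add_mul]; exact (SP R).add_mem hf hg
  · intro c e he
    refine SP_ind (Φ := fun b => c • mono e * b ∈ SP R) ?_ ?_ ?_ hb
    · simpa using (SP R).zero_mem
    · intro f g _ _ hf hg; rw [mul_add]; exact (SP R).add_mem hf hg
    · intro c' e' he'
      rw [smul_mul_smul_comm, mono_mul]
      exact (SP R).smul_mem _ (mono_mem_SP (h e e' he he'))

theorem der_mem_SP {P Q : Ex → Prop} {v : ℕ → LL}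
    (h : ∀ e, P e → ∀ j, e j ≠ 0 → v j * mono (e - dl j) ∈ SP Q) {f : LL} (hf : f ∈ SP P) :
    der v f ∈ SP Q := by
  refine SP_ind (Φ := fun f => der v f ∈ SP Q) ?_ ?_ ?_ hf
  · simpa using (SP Q).zero_mem
  · intro f g _ _ hf hg; rw [map_add]; exact (SP Q).add_mem hf hg
  · intro c e he
    rw [Derivation.map_smul, der_mono v e (Finset.Subset.refl _)]
    apply (SP Q).smul_mem
    apply (SP Q).sum_mem
    intro j hj
    have : e j • (v j * mono (e - dl j)) = ((e j : ℤ) : ℂ) • (v j * mono (e - dl j)) := by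
      rw [Int.cast_smul_eq_zsmul]
    rw [this]
    exact (SP Q).smul_mem _ (h e he j (by simpa using hj))

/-! ### bidegree -/

/-- total index -/
def wt : Ex →+ ℤ := Finsupp.liftAddHom (fun j => AddMonoidHom.mulLeft (j : ℤ))

/-- total number of factors -/
def ln : Ex →+ ℤ := Finsupp.liftAddHom (fun _ => AddMonoidHom.id ℤ)

@[simp] theorem wt_dl (j : ℕ) : wt (dl j) = j := by simp [wt, dl]
@[simp] theorem ln_dl (j : ℕ) : ln (dl j) = 1 := by simp [ln, dl]

theorem wt_eq (e : Ex) {s : Finset ℕ} (hs : e.support ⊆ s) : wt e = ∑ j ∈ s, (j : ℤ) * e j := by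
  rw [wt, Finsupp.liftAddHom_apply, Finsupp.sum]
  apply Finset.sum_subset hs
  intro j _ hj
  simp [Finsupp.notMem_support_iff.mp hj]

theorem ln_eq (e : Ex) {s : Finset ℕ} (hs : e.support ⊆ s) : ln e = ∑ j ∈ s, e j := by
  rw [ln, Finsupp.liftAddHom_apply, Finsupp.sum]
  apply Finset.sum_subset hs
  intro j _ hj
  simp [Finsupp.notMem_support_iff.mp hj]

/-- bihomogeneous elements -/
def BH (k l : ℤ) : Submodule ℂ LL := SP (fun e => wt e = k ∧ ln e = l)

theorem BH_cast {k l k' l' : ℤ} {f : LL} (hf : f ∈ BH k l) (hk : k = k') (hl : l = l') :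
    f ∈ BH k' l' := hk ▸ hl ▸ hf

theorem mono_mem_BH (e : Ex) : mono e ∈ BH (wt e) (ln e) := mono_mem_SP ⟨rfl, rfl⟩

theorem BH_mul {k l k' l' : ℤ} {a b : LL} (ha : a ∈ BH k l) (hb : b ∈ BH k' l') :
    a * b ∈ BH (k + k') (l + l') :=
  SP_mul (fun e f he hf => ⟨by rw [map_add, he.1, hf.1], by rw [map_add, he.2, hf.2]⟩) ha hb

theorem u_mem_BH (j : ℕ) : u j ∈ BH j 1 := by
  have := mono_mem_BH (dl j)
  rwa [wt_dl, ln_dl] at this

theorem ui_mem_BH (j : ℕ) : ui j ∈ BH (-j) (-1) := by
  have := mono_mem_BH (-dl j)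
  rwa [map_neg, map_neg, wt_dl, ln_dl] at this

theorem one_mem_BH : (1 : LL) ∈ BH 0 0 := by
  have := mono_mem_BH 0
  simpa [mono_zero] using this

theorem BH_pow {k l : ℤ} {a : LL} (ha : a ∈ BH k l) (n : ℕ) : a ^ n ∈ BH (n * k) (n * l) := by
  induction n with
  | zero => simpa using one_mem_BH
  | succ n ih =>
    rw [pow_succ]
    exact BH_cast (BH_mul ih ha) (by push_cast; ring) (by push_cast; ring)

theorem BH_der {v : ℕ → LL} {dk dl' : ℤ} (hv : ∀ j : ℕ, v j ∈ BH (dk + j) (dl' + 1)) {k l : ℤ}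
    {f : LL} (hf : f ∈ BH k l) : der v f ∈ BH (k + dk) (l + dl') := by
  refine der_mem_SP (P := fun e => wt e = k ∧ ln e = l) ?_ hf
  intro e he j _
  have h1 : mono (e - dl j) ∈ BH (k - j) (l - 1) := by
    have := mono_mem_BH (e - dl j)
    rwa [map_sub, map_sub, wt_dl, ln_dl, he.1, he.2] at this
  exact BH_cast (BH_mul (hv j) h1) (by ring) (by ring)

theorem BH_dx {k l : ℤ} {f : LL} (hf : f ∈ BH k l) : dx f ∈ BH (k + 1) l :=
  BH_cast (BH_der (dk := 1) (dl' := 0)
    (fun j => BH_cast (u_mem_BH (j + 1)) (by push_cast; ring) (by ring)) hf) rfl (by ring)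

theorem BH_dx_iter {k l : ℤ} {f : LL} (hf : f ∈ BH k l) (n : ℕ) : dx^[n] f ∈ BH (k + n) l := by
  induction n with
  | zero => simpa using hf
  | succ n ih =>
    rw [Function.iterate_succ_apply']
    exact BH_cast (BH_dx ih) (by push_cast; ring) rfl

theorem BH_pd {k l : ℤ} {f : LL} (hf : f ∈ BH k l) (i : ℕ) : pd i f ∈ BH (k - i) (l - 1) := by
  apply BH_cast (BH_der (dk := -(i : ℤ)) (dl' := -1) _ hf) (by ring) (by ring)
  intro j
  split_ifs with h
  · subst h; exact BH_cast one_mem_BH (by ring) (by ring)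
  · exact Submodule.zero_mem _

theorem BH_evo {k l k' l' : ℤ} {q f : LL} (hq : q ∈ BH k' l') (hf : f ∈ BH k l) :
    evo q f ∈ BH (k + k') (l + l' - 1) :=
  BH_cast (BH_der (dk := k') (dl' := l' - 1)
    (fun j => BH_cast (BH_dx_iter hq j) rfl (by ring)) hf) rfl (by ring)

theorem BH_flow {k l k' l' : ℤ} {q f : LL} (hq : q ∈ BH k' l') (hf : f ∈ BH k l) :
    flow q f ∈ BH (k + k' + 1) (l + l' - 1) :=
  BH_cast (BH_evo (BH_dx hq) hf) (by ring) rfl

theorem BH_brk {k l k' l' : ℤ} {a b : LL} (ha : a ∈ BH k' l') (hb : b ∈ BH k l) :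
    brk a b ∈ BH (k + k' + 1) (l + l' - 1) :=
  Submodule.sub_mem _ (BH_cast (BH_flow hb ha) (by ring) (by ring)) (BH_flow ha hb)

theorem BH_eul {k l : ℤ} {f : LL} (hf : f ∈ BH k l) : eul f ∈ BH k (l - 1) := by
  obtain ⟨M, hM⟩ := exists_bound f
  rw [eul_eq f hM]
  apply Submodule.sum_mem
  intro j _
  apply Submodule.smul_mem
  exact BH_cast (BH_dx_iter (BH_pd hf j) j) (by ring) rfl

/-! ### polynomiality outside a set of variables -/

/-- exponents that may be negative only at indices in `N` -/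
def PN (N : Set ℕ) (e : Ex) : Prop := ∀ i, i ∉ N → 0 ≤ e i

/-- the subalgebra where only the variables with index in `N` are inverted -/
def AN (N : Set ℕ) : Subalgebra ℂ LL where
  carrier := SP (PN N)
  mul_mem' := by
    intro a b ha hb
    exact SP_mul (fun e f he hf i hi => by
      rw [Finsupp.add_apply]; exact add_nonneg (he i hi) (hf i hi)) ha hb
  add_mem' := fun ha hb => (SP (PN N)).add_mem ha hb
  algebraMap_mem' := by
    intro r
    have : (algebraMap ℂ LL) r = r • mono 0 := by rw [mono_zero, Algebra.algebraMap_eq_smul_one]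
    rw [this]
    exact (SP (PN N)).smul_mem _ (mono_mem_SP (fun i _ => by simp))

theorem mem_AN {N : Set ℕ} {f : LL} : f ∈ AN N ↔ f ∈ SP (PN N) := Iff.rfl

theorem AN_mono {N N' : Set ℕ} (h : N ⊆ N') {f : LL} (hf : f ∈ AN N) : f ∈ AN N' :=
  SP_mono (fun _ he i hi => he i (fun hi' => hi (h hi'))) hf

theorem u_mem_AN (N : Set ℕ) (j : ℕ) : u j ∈ AN N := by
  apply mono_mem_SP
  intro i _
  rw [dl, Finsupp.single_apply]
  split_ifs <;> norm_num

theorem ui_mem_AN {N : Set ℕ} {j : ℕ} (hj : j ∈ N) : ui j ∈ AN N := by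
  apply mono_mem_SP
  intro i hi
  have : j ≠ i := fun h => hi (h ▸ hj)
  simp [dl, Finsupp.single_apply, this]

theorem AN_der {N : Set ℕ} {v : ℕ → LL} (hv : ∀ j, v j ∈ AN N) {f : LL} (hf : f ∈ AN N) :
    der v f ∈ AN N := by
  refine der_mem_SP (P := PN N) ?_ hf
  intro e he j hj
  refine (AN N).mul_mem (hv j) (mono_mem_SP ?_)
  intro i hi
  rw [Finsupp.sub_apply, dl, Finsupp.single_apply]
  have h1 := he i hi
  split_ifs with h
  · subst h; omega
  · simpa using h1

theorem AN_dx {N : Set ℕ} {f : LL} (hf : f ∈ AN N) : dx f ∈ AN N :=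
  AN_der (fun j => u_mem_AN N (j + 1)) hf

theorem AN_dx_iter {N : Set ℕ} {f : LL} (hf : f ∈ AN N) (n : ℕ) : dx^[n] f ∈ AN N := by
  induction n with
  | zero => exact hf
  | succ n ih => rw [Function.iterate_succ_apply']; exact AN_dx ih

theorem AN_pd {N : Set ℕ} {f : LL} (hf : f ∈ AN N) (i : ℕ) : pd i f ∈ AN N := by
  apply AN_der _ hf
  intro j
  split_ifs
  · exact (AN N).one_mem
  · exact (AN N).zero_mem

theorem AN_evo {N : Set ℕ} {q f : LL} (hq : q ∈ AN N) (hf : f ∈ AN N) : evo q f ∈ AN N :=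
  AN_der (fun j => AN_dx_iter hq j) hf

theorem AN_flow {N : Set ℕ} {q f : LL} (hq : q ∈ AN N) (hf : f ∈ AN N) : flow q f ∈ AN N :=
  AN_evo (AN_dx hq) hf

theorem AN_brk {N : Set ℕ} {a b : LL} (ha : a ∈ AN N) (hb : b ∈ AN N) : brk a b ∈ AN N :=
  (AN N).sub_mem (AN_flow hb ha) (AN_flow ha hb)

theorem AN_eul {N : Set ℕ} {f : LL} (hf : f ∈ AN N) : eul f ∈ AN N := by
  obtain ⟨M, hM⟩ := exists_bound f
  rw [eul_eq f hM]
  apply (AN N).sum_mem
  intro j _
  apply (AN N).smul_mem
  exact AN_dx_iter (AN_pd hf j) j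

theorem AN_smul {N : Set ℕ} {f : LL} (c : ℂ) (hf : f ∈ AN N) : c • f ∈ AN N :=
  (AN N).smul_mem hf c

/-- induction principle for `AN N` -/
theorem AN_ind {N : Set ℕ} {Φ : LL → Prop} (hC : ∀ c : ℂ, Φ (algebraMap ℂ LL c))
    (hu : ∀ j, Φ (u j)) (hui : ∀ j ∈ N, Φ (ui j))
    (hadd : ∀ f g, f ∈ AN N → g ∈ AN N → Φ f → Φ g → Φ (f + g))
    (hmul : ∀ f g, f ∈ AN N → g ∈ AN N → Φ f → Φ g → Φ (f * g)) {f : LL} (hf : f ∈ AN N) :
    Φ f := by
  have h1 : Φ 1 := by
    have := hC 1
    rwa [map_one] at this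
  have hpow : ∀ x : LL, x ∈ AN N → Φ x → ∀ n : ℕ, Φ (x ^ n) := by
    intro x hx hΦ n
    induction n with
    | zero => simpa using h1
    | succ n ih => rw [pow_succ]; exact hmul _ _ ((AN N).pow_mem hx n) hx ih hΦ
  have humono : ∀ (j n : ℕ), u j ^ n = mono ((n : ℤ) • dl j) := by
    intro j n
    induction n with
    | zero => simp [mono_zero]
    | succ n ih => rw [pow_succ, ih, u, mono_mul]; congr 1; push_cast; rw [add_smul, one_smul]
  have huimono : ∀ (j n : ℕ), ui j ^ n = mono (-((n : ℤ) • dl j)) := by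
    intro j n
    induction n with
    | zero => simp [mono_zero]
    | succ n ih =>
      rw [pow_succ, ih, ui, mono_mul]; congr 1; push_cast; rw [add_smul, one_smul]; abel
  have key : ∀ e : Ex, PN N e → Φ (mono e) ∧ mono e ∈ AN N := by
    intro e
    induction e using Finsupp.induction with
    | zero => intro _; exact ⟨by rw [mono_zero]; exact h1, by rw [mono_zero]; exact (AN N).one_mem⟩
    | single_add a b f ha _ ih =>
      intro hP
      have hfa : f a = 0 := Finsupp.notMem_support_iff.mp ha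
      have hPf : PN N f := by
        intro i hi
        by_cases hia : i = a
        · subst hia; rw [hfa]
        · have := hP i hi
          rwa [Finsupp.add_apply, Finsupp.single_apply, if_neg (Ne.symm hia), zero_add] at this
      obtain ⟨h2, h3⟩ := ih hPf
      rw [← mono_mul]
      have h4 : Φ (mono (Finsupp.single a b)) ∧ mono (Finsupp.single a b) ∈ AN N := by
        have hb : Finsupp.single a b = b • dl a := by simp [dl]
        rw [hb]
        obtain ⟨n, rfl | rfl⟩ := b.eq_nat_or_neg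
        · rw [← humono]
          exact ⟨hpow _ (u_mem_AN N a) (hu a) n, (AN N).pow_mem (u_mem_AN N a) n⟩
        · by_cases haN : a ∈ N
          · rw [neg_smul, ← huimono]
            exact ⟨hpow _ (ui_mem_AN haN) (hui a haN) n, (AN N).pow_mem (ui_mem_AN haN) n⟩
          · have := hP a haN
            rw [Finsupp.add_apply, hfa, Finsupp.single_eq_same, add_zero] at this
            have hn : n = 0 := by omega
            subst hn
            simp only [Nat.cast_zero, neg_zero, zero_smul, mono_zero]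
            exact ⟨h1, (AN N).one_mem⟩
      exact ⟨hmul _ _ h4.2 h3 h4.1 h2, (AN N).mul_mem h4.2 h3⟩
  have hf' : f ∈ SP (PN N) := hf
  refine SP_ind (Φ := Φ) ?_ ?_ ?_ hf'
  · have := hC 0
    rwa [map_zero] at this
  · intro a b ha hb iha ihb; exact hadd a b ha hb iha ihb
  · intro c e he
    have : c • mono e = algebraMap ℂ LL c * mono e := by rw [Algebra.smul_def]
    rw [this]
    exact hmul _ _ ((AN N).algebraMap_mem c) (key e he).2 (hC c) (key e he).1

/-! ### independence of a variable -/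

theorem coeff_pd (i : ℕ) (f : LL) (e : Ex) :
    (pd i f).coeff e = ((e i : ℂ) + 1) * f.coeff (e + dl i) := by
  classical
  induction f using LL.ind with
  | h0 => simp
  | hadd a b ha hb =>
    rw [map_add, AddMonoidAlgebra.coeff_add, Finsupp.add_apply, ha, hb,
      AddMonoidAlgebra.coeff_add, Finsupp.add_apply, mul_add]
  | hsm c e' =>
    rw [Derivation.map_smul, AddMonoidAlgebra.coeff_smul, Finsupp.smul_apply, pd,
      der_mono _ e' (s := insert i e'.support) (Finset.subset_insert _ _),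
      Finset.sum_eq_single i]
    · rw [if_pos rfl, one_mul, AddMonoidAlgebra.coeff_smul, Finsupp.smul_apply, coeff_mono,
        AddMonoidAlgebra.coeff_smul, Finsupp.smul_apply, coeff_mono]
      by_cases h : e' = e + dl i
      · subst h
        simp [dl]
        ring
      · have h' : e' - dl i ≠ e := fun h'' => h (by rw [← h'']; abel)
        simp [h, h']
    · intro j _ hj; simp [hj]
    · intro h; simp at h

theorem pd_eq_zero_iff (i : ℕ) (f : LL) : pd i f = 0 ↔ f ∈ SP (fun e => e i = 0) := by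
  constructor
  · intro h e he
    by_contra h'
    apply he
    have := coeff_pd i f (e - dl i)
    rw [h, sub_add_cancel] at this
    simp only [AddMonoidAlgebra.coeff_zero, Finsupp.coe_zero, Pi.zero_apply] at this
    have h2 : (((e - dl i) i : ℤ) : ℂ) + 1 = (e i : ℂ) := by
      simp [dl]
    rw [h2] at this
    rcases mul_eq_zero.mp this.symm with h3 | h3
    · exact absurd (by exact_mod_cast h3) h'
    · exact h3
  · intro h
    refine SP_ind (Φ := fun f => pd i f = 0) ?_ ?_ ?_ h
    · simp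
    · intro a b _ _ ha hb; rw [map_add, ha, hb, add_zero]
    · intro c e he
      rw [Derivation.map_smul, pd, der_mono _ e (Finset.Subset.refl _), Finset.sum_eq_zero,
        smul_zero]
      intro j hj
      by_cases hji : j = i
      · subst hji; simp [he]
      · simp [hji]

/-- the kernel of the total derivative consists of constants -/
theorem const_of_dx_eq_zero (f : LL) (h : dx f = 0) : f ∈ BH 0 0 := by
  have key : ∀ N i, i + N = Classical.choose (exists_bound f) → pd i f = 0 := by
    intro N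
    induction N with
    | zero =>
      intro i hi
      exact Classical.choose_spec (exists_bound f) i (by omega)
    | succ N ih =>
      intro i hi
      have h1 := ih (i + 1) (by omega)
      have h2 := pd_succ_dx i f
      rw [h, h1] at h2
      simpa using h2.symm
  have hall : ∀ i, pd i f = 0 := by
    intro i
    by_cases hi : Classical.choose (exists_bound f) ≤ i
    · exact Classical.choose_spec (exists_bound f) i hi
    · exact key (Classical.choose (exists_bound f) - i) i (by omega)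
  intro e he
  have : e = 0 := by
    ext i
    exact (pd_eq_zero_iff i f).mp (hall i) e he
  subst this
  simp

/-- Euler's formula -/
theorem evo_u_zero {k l : ℤ} {f : LL} (hf : f ∈ BH k l) : evo (u 0) f = (l : ℂ) • f := by
  refine SP_ind (Φ := fun f => evo (u 0) f = (l : ℂ) • f) ?_ ?_ ?_ hf
  · simp
  · intro a b _ _ ha hb; rw [map_add, ha, hb, smul_add]
  · intro c e he
    rw [Derivation.map_smul, smul_comm, evo, der_mono _ e (Finset.Subset.refl _)]
    congr 1
    have : ∀ j, dx^[j] (u 0) * mono (e - dl j) = mono e := by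
      intro j
      rw [dx_iter_u, zero_add, u, mono_mul]; congr 1; abel
    simp_rw [this]
    rw [← Finset.sum_smul, ← ln_eq e (Finset.Subset.refl _), he.2, Int.cast_smul_eq_zsmul]

/-- exactness: an element of `AN N` killed by the Euler operator and homogeneous of non-zero
length is a total derivative inside `AN N` -/
theorem exact {N : Set ℕ} {k l : ℤ} (hl : l ≠ 0) {f : LL} (hf : f ∈ BH k l) (hA : f ∈ AN N)
    (he : eul f = 0) : ∃ r ∈ AN N, f = dx r := by
  obtain ⟨r, hr, h⟩ := evo_sub_mul_eul (S := AN N) (fun _ h => AN_dx h)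
    (fun i _ h => AN_pd h i) (u 0) f (u_mem_AN N 0) hA
  rw [he, mul_zero, sub_zero, evo_u_zero hf] at h
  refine ⟨(l : ℂ)⁻¹ • r, AN_smul _ hr, ?_⟩
  rw [Derivation.map_smul, ← h, smul_smul, inv_mul_cancel₀ (by exact_mod_cast hl), one_smul]

/-! ### truncation to part of the support -/

/-- the part of `f` supported on the exponents satisfying `P` -/
def keep (P : Ex → Prop) : LL →ₗ[ℂ] LL := by
  classical
  exact {
    toFun := fun f => AddMonoidAlgebra.ofCoeff (f.coeff.filter P)
    map_add' := by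
      intro f g
      rw [AddMonoidAlgebra.coeff_add, Finsupp.filter_add, AddMonoidAlgebra.ofCoeff_add]
    map_smul' := by
      intro c f
      rw [AddMonoidAlgebra.coeff_smul, Finsupp.filter_smul, AddMonoidAlgebra.ofCoeff_smul]
      rfl }

theorem coeff_keep_pos {P : Ex → Prop} (f : LL) {e : Ex} (h : P e) :
    (keep P f).coeff e = f.coeff e := by
  classical
  simp only [keep, LinearMap.coe_mk, AddHom.coe_mk]
  exact Finsupp.filter_apply_pos P _ h

theorem coeff_keep_neg {P : Ex → Prop} (f : LL) {e : Ex} (h : ¬ P e) :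
    (keep P f).coeff e = 0 := by
  classical
  simp only [keep, LinearMap.coe_mk, AddHom.coe_mk]
  exact Finsupp.filter_apply_neg P _ h

theorem LL_ext {f g : LL} (h : ∀ e, f.coeff e = g.coeff e) : f = g :=
  AddMonoidAlgebra.coeff_injective (Finsupp.ext h)

theorem keep_mem {P Q : Ex → Prop} {f : LL} (hf : f ∈ SP Q) :
    keep P f ∈ SP (fun e => P e ∧ Q e) := by
  intro e he
  by_cases h : P e
  · rw [coeff_keep_pos f h] at he
    exact ⟨h, hf e he⟩
  · exact absurd (coeff_keep_neg f h) he

theorem keep_of_mem {P : Ex → Prop} {f : LL} (hf : f ∈ SP P) : keep P f = f := by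
  apply LL_ext
  intro e
  by_cases h : P e
  · exact coeff_keep_pos f h
  · rw [coeff_keep_neg f h]
    by_contra h'
    exact h (hf e (Ne.symm h'))

theorem keep_eq_zero_iff {P : Ex → Prop} {f : LL} : keep P f = 0 ↔ f ∈ SP (fun e => ¬ P e) := by
  constructor
  · intro h e he hP
    apply he
    rw [← coeff_keep_pos f hP, h]; rfl
  · intro h
    apply LL_ext
    intro e
    by_cases hP : P e
    · rw [coeff_keep_pos f hP]
      by_contra h'
      exact h e h' hP
    · rw [coeff_keep_neg f hP]; rfl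

theorem keep_mono_pos {P : Ex → Prop} {e : Ex} (h : P e) : keep P (mono e) = mono e :=
  keep_of_mem (mono_mem_SP h)

theorem keep_mono_neg {P : Ex → Prop} {e : Ex} (h : ¬ P e) : keep P (mono e) = 0 :=
  keep_eq_zero_iff.mpr (mono_mem_SP h)

end Pool.Agent.H87
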