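import Pool.Agent.H87.Main
import Pool.Agent.H87.Defs

/-!
# Transfer from Laurent differential polynomials to `DP`
-/

noncomputable section

namespace Pool.Agent.H87

open Finset RH

/-! ### derivations on `DP` -/

theorem coeff_part_zero (f : DP) (m : ℕ →₀ ℕ) :
    (part 0 f).coeff m = PowerSeries.derivative ℂ (f.coeff m) := by
  classical
  rw [part, MvPolynomial.coeff_sum]
  simp_rw [MvPolynomial.coeff_monomial]
  rw [Finset.sum_ite_eq' f.support m (fun m => PowerSeries.derivative ℂ (f.coeff m))]
  split_ifs with h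
  · rfl
  · rw [MvPolynomial.notMem_support_iff.mp h, map_zero]

theorem part_add (i : ℕ) (f g : DP) : part i (f + g) = part i f + part i g := by
  cases i with
  | zero => ext m : 1; rw [MvPolynomial.coeff_add, coeff_part_zero, coeff_part_zero,
      coeff_part_zero, MvPolynomial.coeff_add, map_add]
  | succ i => exact map_add _ _ _

theorem part_zero_right (i : ℕ) : part i (0 : DP) = 0 := by
  cases i with
  | zero => ext m : 1; rw [coeff_part_zero]; simp
  | succ i => exact map_zero _

theorem part_mul (i : ℕ) (f g : DP) : part i (f * g) = f * part i g + g * part i f := by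
  classical
  cases i with
  | zero =>
    ext m : 1
    rw [MvPolynomial.coeff_add, coeff_part_zero, MvPolynomial.coeff_mul, mul_comm g,
      MvPolynomial.coeff_mul, MvPolynomial.coeff_mul, map_sum, ← Finset.sum_add_distrib]
    apply Finset.sum_congr rfl
    intro p _
    rw [Derivation.leibniz, coeff_part_zero, coeff_part_zero, smul_eq_mul, smul_eq_mul]
    ring
  | succ i =>
    show MvPolynomial.pderiv i (f * g) = f * MvPolynomial.pderiv i g + g * MvPolynomial.pderiv i f
    rw [Derivation.leibniz, smul_eq_mul, smul_eq_mul]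

theorem part_const (i : ℕ) (c : ℂ) : part i (MvPolynomial.C (PowerSeries.C c)) = 0 := by
  classical
  cases i with
  | zero =>
    ext m : 1
    rw [coeff_part_zero, MvPolynomial.coeff_C]
    split_ifs <;> simp
  | succ i => exact MvPolynomial.pderiv_C

theorem part_jet (i j : ℕ) : part i (jet j) = if j = i then 1 else 0 := by
  classical
  cases i with
  | zero =>
    cases j with
    | zero =>
      ext m : 1
      rw [coeff_part_zero, jet, MvPolynomial.coeff_C, if_pos rfl, ← MvPolynomial.C_1,
        MvPolynomial.coeff_C]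
      split_ifs <;> simp
    | succ j =>
      rw [if_neg (by omega)]
      ext m : 1
      rw [coeff_part_zero, jet, MvPolynomial.coeff_X]
      split_ifs <;> simp
  | succ i =>
    cases j with
    | zero =>
      rw [if_neg (by omega)]
      exact MvPolynomial.pderiv_C
    | succ j =>
      show MvPolynomial.pderiv i (MvPolynomial.X j) = _
      rw [MvPolynomial.pderiv_X, Pi.single_apply]
      by_cases h : j = i
      · subst h; simp
      · rw [if_neg h, if_neg (by omega)]

/-! ### the transfer map -/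

/-- image of a monomial -/
def jm (e : Ex) : DP := e.prod fun i z => jet i ^ z.toNat

open Classical in
/-- linear map from Laurent polynomials to `DP`, meaningful on the polynomial part -/
def Psi : LL →ₗ[ℂ] DP :=
  (Finsupp.lsum ℂ (fun e : Ex => (LinearMap.toSpanSingleton ℂ DP
    (if PN ∅ e then jm e else 0)))) ∘ₗ (AddMonoidAlgebra.coeffLinearEquiv ℂ).toLinearMap

theorem Psi_mono {e : Ex} (he : PN ∅ e) : Psi (mono e) = jm e := by
  simp [Psi, mono, he]

theorem jm_eq {e : Ex} {s : Finset ℕ} (hs : e.support ⊆ s) : jm e = ∏ i ∈ s, jet i ^ (e i).toNat := by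
  rw [jm, Finsupp.prod_of_support_subset _ hs _ (fun i _ => by simp)]

theorem jm_add {e f : Ex} (he : PN ∅ e) (hf : PN ∅ f) : jm (e + f) = jm e * jm f := by
  classical
  rw [jm_eq (Finsupp.support_add (g₁ := e) (g₂ := f)),
    jm_eq (Finset.subset_union_left (s₂ := f.support)),
    jm_eq (Finset.subset_union_right (s₁ := e.support)), ← Finset.prod_mul_distrib]
  apply Finset.prod_congr rfl
  intro i _
  rw [← pow_add, Finsupp.add_apply, Int.toNat_add (he i (by simp)) (hf i (by simp))]

theorem Psi_mul {a b : LL} (ha : a ∈ AN ∅) (hb : b ∈ AN ∅) : Psi (a * b) = Psi a * Psi b := by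
  refine SP_ind (P := PN ∅) (Φ := fun a => Psi (a * b) = Psi a * Psi b) ?_ ?_ ?_ ha
  · simp
  · intro f g _ _ hf hg; rw [add_mul, map_add, hf, hg, map_add, add_mul]
  · intro c e he
    refine SP_ind (P := PN ∅) (Φ := fun b => Psi (c • mono e * b) = Psi (c • mono e) * Psi b)
      ?_ ?_ ?_ hb
    · simp
    · intro f g _ _ hf hg; rw [mul_add, map_add, hf, hg, map_add, mul_add]
    · intro c' e' he'
      rw [smul_mul_smul_comm, mono_mul, map_smul, map_smul, map_smul, smul_mul_smul_comm,
        Psi_mono he, Psi_mono he', Psi_mono, jm_add he he']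
      intro i hi
      rw [Finsupp.add_apply]; exact add_nonneg (he i hi) (he' i hi)

theorem Psi_one : Psi 1 = 1 := by
  rw [← mono_zero, Psi_mono (fun i _ => by simp), jm]
  exact Finsupp.prod_zero_index

theorem Psi_algebraMap (c : ℂ) : Psi (algebraMap ℂ LL c) = MvPolynomial.C (PowerSeries.C c) := by
  rw [Algebra.algebraMap_eq_smul_one, map_smul, Psi_one, ← Algebra.algebraMap_eq_smul_one]
  rfl

theorem Psi_u (j : ℕ) : Psi (u j) = jet j := by
  rw [u, Psi_mono (u_mem_AN ∅ j (dl j) (by simp [u, coeff_mono])),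
    jm_eq (s := {j}) (by
      intro i hi
      rw [Finsupp.mem_support_iff, dl, Finsupp.single_apply] at hi
      by_contra h
      rw [Finset.mem_singleton] at h
      exact hi (if_neg (Ne.symm h)))]
  simp [dl]

theorem Psi_pow {a : LL} (ha : a ∈ AN ∅) (n : ℕ) : Psi (a ^ n) = Psi a ^ n := by
  induction n with
  | zero => simp [Psi_one]
  | succ n ih => rw [pow_succ, Psi_mul ((AN ∅).pow_mem ha n) ha, ih, pow_succ]

theorem part_Psi {a : LL} (ha : a ∈ AN ∅) (i : ℕ) : part i (Psi a) = Psi (pd i a) := by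
  refine AN_ind (N := ∅) (Φ := fun a => part i (Psi a) = Psi (pd i a)) ?_ ?_ ?_ ?_ ?_ ha
  · intro c
    rw [Psi_algebraMap, part_const, Derivation.map_algebraMap, map_zero]
  · intro j
    rw [Psi_u, part_jet, pd_u]
    split_ifs
    · rw [Psi_one]
    · rw [map_zero]
  · intro j hj; simp at hj
  · intro f g _ _ hf hg
    rw [map_add, part_add, hf, hg, map_add, map_add]
  · intro f g hfA hgA hf hg
    rw [Psi_mul hfA hgA, part_mul, hf, hg, Derivation.leibniz, map_add, smul_eq_mul, smul_eq_mul,
      Psi_mul hfA (AN_pd hgA i), Psi_mul hgA (AN_pd hfA i)]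

theorem finsum_Psi {F : ℕ → LL} {M : ℕ} (hM : ∀ i, M ≤ i → F i = 0) :
    ∑ᶠ i, Psi (F i) = Psi (∑ i ∈ range M, F i) := by
  rw [finsum_eq_sum_of_support_subset (s := range M), map_sum]
  intro i hi
  rw [Function.mem_support] at hi
  rw [Finset.mem_coe, Finset.mem_range]
  by_contra h
  exact hi (by rw [hM i (by omega), map_zero])

theorem total_Psi {a : LL} (ha : a ∈ AN ∅) : total (Psi a) = Psi (dx a) := by
  obtain ⟨M, hM⟩ := exists_bound a
  have h1 : ∀ i, jet (i + 1) * part i (Psi a) = Psi (u (i + 1) * pd i a) := by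
    intro i
    rw [part_Psi ha, Psi_mul (u_mem_AN _ _) (AN_pd ha i), Psi_u]
  rw [total]
  simp_rw [h1]
  rw [finsum_Psi (fun i hi => by rw [hM i hi, mul_zero]), dx, der_eq_sum _ a hM]

theorem total_iter_Psi {a : LL} (ha : a ∈ AN ∅) (n : ℕ) : total^[n] (Psi a) = Psi (dx^[n] a) := by
  induction n with
  | zero => rfl
  | succ n ih =>
    rw [Function.iterate_succ_apply', ih, total_Psi (AN_dx_iter ha n),
      Function.iterate_succ_apply']

theorem smul_eq_const (c : ℂ) (f : DP) : c • f = const c * f := by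
  rw [Algebra.smul_def]; rfl

theorem const_zero : const 0 = 0 := by simp [const]

theorem varder_Psi {a : LL} (ha : a ∈ AN ∅) : varder (Psi a) = Psi (eul a) := by
  obtain ⟨M, hM⟩ := exists_bound a
  have h1 : ∀ i : ℕ, const ((-1) ^ i) * total^[i] (part i (Psi a)) =
      Psi ((-1 : ℂ) ^ i • dx^[i] (pd i a)) := by
    intro i
    rw [part_Psi ha, total_iter_Psi (AN_pd ha i), map_smul, smul_eq_const]
  rw [varder]
  simp_rw [h1]
  rw [finsum_Psi (fun i hi => by rw [hM i hi, dx_iter_zero, smul_zero]), ← eul_eq a hM]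

theorem evol_Psi {q a : LL} (hq : q ∈ AN ∅) (ha : a ∈ AN ∅) : evol (Psi q) (Psi a) =
    Psi (evo q a) := by
  obtain ⟨M, hM⟩ := exists_bound a
  have h1 : ∀ i, part i (Psi a) * total^[i] (Psi q) = Psi (dx^[i] q * pd i a) := by
    intro i
    rw [part_Psi ha, total_iter_Psi hq, Psi_mul (AN_dx_iter hq i) (AN_pd ha i), mul_comm]
  rw [evol]
  simp_rw [h1]
  rw [finsum_Psi (fun i hi => by rw [hM i hi, mul_zero]), evo, der_eq_sum _ a hM]

theorem total_zero : total 0 = 0 := by
  have := total_Psi (AN ∅).zero_mem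
  rwa [map_zero, map_zero, map_zero] at this

theorem varder_zero : varder 0 = 0 := by
  have := varder_Psi (AN ∅).zero_mem
  rwa [map_zero, eul_zero, map_zero] at this

/-! ### homogeneity -/

theorem jet_hom (j : ℕ) :
    MvPolynomial.IsWeightedHomogeneous (fun n : ℕ => n + 1) (jet j) j := by
  cases j with
  | zero => exact MvPolynomial.isWeightedHomogeneous_C _ _
  | succ j => exact MvPolynomial.isWeightedHomogeneous_X _ _ j

theorem jm_hom {e : Ex} (he : PN ∅ e) :
    MvPolynomial.IsWeightedHomogeneous (fun n : ℕ => n + 1) (jm e) (wt e).toNat := by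
  rw [jm_eq (Finset.Subset.refl _)]
  have h1 : (wt e).toNat = ∑ i ∈ e.support, (e i).toNat * i := by
    rw [wt_eq e (Finset.Subset.refl _)]
    zify
    rw [Int.toNat_of_nonneg (Finset.sum_nonneg (fun i _ => mul_nonneg (by positivity)
      (he i (by simp))))]
    apply Finset.sum_congr rfl
    intro i _
    rw [Int.toNat_of_nonneg (he i (by simp)), mul_comm]
  rw [h1]
  apply MvPolynomial.IsWeightedHomogeneous.prod
  intro i _
  have := (jet_hom i).pow (e i).toNat
  rwa [smul_eq_mul] at this

theorem Psi_hom {k : ℕ} {l : ℤ} {a : LL} (ha : a ∈ AN ∅) (hB : a ∈ BH k l) :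
    MvPolynomial.IsWeightedHomogeneous (fun n : ℕ => n + 1) (Psi a) k := by
  refine SP_ind (Φ := fun a => MvPolynomial.IsWeightedHomogeneous (fun n : ℕ => n + 1) (Psi a) k)
    ?_ ?_ ?_ (SP_and ha hB)
  · rw [map_zero]; exact MvPolynomial.isWeightedHomogeneous_zero _ _ _
  · intro f g _ _ hf hg
    rw [map_add]; exact hf.add hg
  · rintro c e ⟨he, hk, _⟩
    rw [map_smul, Psi_mono he]
    have h1 := jm_hom he
    rw [hk, Int.toNat_natCast] at h1
    have h2 : c • jm e = MvPolynomial.C (PowerSeries.C c) * jm e := by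
      rw [Algebra.smul_def]; rfl
    rw [h2]
    have h3 := (MvPolynomial.isWeightedHomogeneous_C (fun n : ℕ => n + 1) (PowerSeries.C c)).mul h1
    rwa [zero_add] at h3

/-! ### power series in the parameter -/

/-- place the terms of a sequence at the exponents divisible by `N` -/
def Ser (N : ℕ) (F : ℕ → LL) : DE := PowerSeries.mk fun k => if N ∣ k then Psi (F (k / N)) else 0

theorem coef_mk (φ : ℕ → DP) (k : ℕ) : coef k (PowerSeries.mk φ) = φ k := by
  rw [coef, PowerSeries.coeff_mk]

theorem DE_ext {F H : DE} (h : ∀ k, coef k F = coef k H) : F = H := by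
  ext1 k
  exact h k

theorem coeff_Ser (N : ℕ) (F : ℕ → LL) (k : ℕ) : coef k (Ser N F) =
    if N ∣ k then Psi (F (k / N)) else 0 := by rw [Ser, coef_mk]

theorem totalE_Ser {N : ℕ} {F : ℕ → LL} (hF : ∀ n, F n ∈ AN ∅) :
    totalE (Ser N F) = Ser N (fun n => dx (F n)) := by
  refine DE_ext fun k => ?_
  rw [totalE, coef_mk, coeff_Ser, coeff_Ser]
  split_ifs
  · exact total_Psi (hF _)
  · exact total_zero

theorem varderE_Ser {N : ℕ} {F : ℕ → LL} (hF : ∀ n, F n ∈ AN ∅) :
    varderE (Ser N F) = Ser N (fun n => eul (F n)) := by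
  refine DE_ext fun k => ?_
  rw [varderE, coef_mk, coeff_Ser, coeff_Ser]
  split_ifs
  · exact varder_Psi (hF _)
  · exact varder_zero

theorem sum_expand {M : Type*} [AddCommMonoid M] {N : ℕ} (hN : 0 < N) (φ : ℕ → ℕ → M) (k : ℕ) :
    ∑ p ∈ antidiagonal k, (if N ∣ p.1 ∧ N ∣ p.2 then φ (p.1 / N) (p.2 / N) else 0) =
    if N ∣ k then ∑ q ∈ antidiagonal (k / N), φ q.1 q.2 else 0 := by
  classical
  split_ifs with h
  · obtain ⟨n, rfl⟩ := h
    rw [Nat.mul_div_cancel_left n hN, ← Finset.sum_filter]
    refine Finset.sum_nbij' (fun p => (p.1 / N, p.2 / N)) (fun q => (N * q.1, N * q.2))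
      ?_ ?_ ?_ ?_ ?_
    · rintro ⟨a, b⟩ hp
      rw [Finset.mem_filter, HasAntidiagonal.mem_antidiagonal] at hp
      obtain ⟨h1, ⟨c, rfl⟩, ⟨d, rfl⟩⟩ := hp
      simp only [Nat.mul_div_cancel_left _ hN] at h1 ⊢
      rw [HasAntidiagonal.mem_antidiagonal]
      rw [← mul_add] at h1
      exact Nat.eq_of_mul_eq_mul_left hN h1
    · rintro ⟨a, b⟩ hp
      rw [HasAntidiagonal.mem_antidiagonal] at hp
      rw [Finset.mem_filter, HasAntidiagonal.mem_antidiagonal]
      refine ⟨?_, dvd_mul_right _ _, dvd_mul_right _ _⟩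
      simp only at hp ⊢
      rw [← mul_add, hp]
    · rintro ⟨a, b⟩ hp
      rw [Finset.mem_filter, HasAntidiagonal.mem_antidiagonal] at hp
      obtain ⟨h1, ⟨c, rfl⟩, ⟨d, rfl⟩⟩ := hp
      simp only [Nat.mul_div_cancel_left _ hN]
    · rintro ⟨a, b⟩ _
      simp only [Nat.mul_div_cancel_left _ hN]
    · rintro ⟨a, b⟩ _
      rfl
  · apply Finset.sum_eq_zero
    rintro ⟨a, b⟩ hp
    rw [HasAntidiagonal.mem_antidiagonal] at hp
    simp only at hp ⊢
    rw [if_neg]
    rintro ⟨h1, h2⟩
    exact h (hp ▸ dvd_add h1 h2)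

theorem evol_zero_left (f : DP) : evol 0 f = 0 := by
  have h : ∀ i : ℕ, total^[i] (0 : DP) = 0 := by
    intro i
    induction i with
    | zero => rfl
    | succ i ih => rw [Function.iterate_succ_apply', ih, total_zero]
  rw [evol]
  simp_rw [h, mul_zero]
  exact finsum_zero

theorem evol_zero_right (q : DP) : evol q 0 = 0 := by
  rw [evol]
  simp_rw [part_zero_right, zero_mul]
  exact finsum_zero

theorem evolE_Ser {N : ℕ} (hN : 0 < N) {Q F : ℕ → LL} (hQ : ∀ n, Q n ∈ AN ∅)
    (hF : ∀ n, F n ∈ AN ∅) : evolE (Ser N Q) (Ser N F) =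
    Ser N (fun n => ∑ p ∈ antidiagonal n, evo (Q p.1) (F p.2)) := by
  refine DE_ext fun k => ?_
  rw [evolE, coef_mk, coeff_Ser, map_sum]
  rw [← sum_expand hN (fun a b => Psi (evo (Q a) (F b)))]
  apply Finset.sum_congr rfl
  intro p _
  rw [coeff_Ser, coeff_Ser]
  by_cases h1 : N ∣ p.1
  · by_cases h2 : N ∣ p.2
    · rw [if_pos h1, if_pos h2, if_pos ⟨h1, h2⟩, evol_Psi (hQ _) (hF _)]
    · simp [h2, evol_zero_right]
  · simp [h1, evol_zero_left]

theorem mul_Ser {N : ℕ} (hN : 0 < N) {Q F : ℕ → LL} (hQ : ∀ n, Q n ∈ AN ∅)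
    (hF : ∀ n, F n ∈ AN ∅) : Ser N Q * Ser N F =
    Ser N (fun n => ∑ p ∈ antidiagonal n, Q p.1 * F p.2) := by
  refine DE_ext fun k => ?_
  have hmul : coef k (Ser N Q * Ser N F) = ∑ p ∈ antidiagonal k,
      coef p.1 (Ser N Q) * coef p.2 (Ser N F) := PowerSeries.coeff_mul _ _ _
  rw [hmul, coeff_Ser, map_sum]
  rw [← sum_expand hN (fun a b => Psi (Q a * F b))]
  apply Finset.sum_congr rfl
  intro p _
  rw [coeff_Ser, coeff_Ser]
  by_cases h1 : N ∣ p.1
  · by_cases h2 : N ∣ p.2
    · rw [if_pos h1, if_pos h2, if_pos ⟨h1, h2⟩, Psi_mul (hQ _) (hF _)]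
    · simp [h2]
  · simp [h1]

/-! ### partitions -/

/-- exponent vector of a multiset of indices -/
def exm (s : Multiset ℕ) : Ex := (s.map dl).sum

theorem exm_apply (s : Multiset ℕ) (i : ℕ) : exm s i = s.count i := by
  classical
  induction s using Multiset.induction_on with
  | empty => simp [exm]
  | cons a s ih =>
    rw [exm, Multiset.map_cons, Multiset.sum_cons, Finsupp.add_apply, ← exm, ih,
      Multiset.count_cons, dl, Finsupp.single_apply]
    push_cast
    by_cases h : a = i
    · subst h; simp; ring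
    · rw [if_neg h, if_neg (Ne.symm h)]; ring

theorem exm_pos (s : Multiset ℕ) : PN ∅ (exm s) := by
  intro i _
  rw [exm_apply]
  positivity

theorem Psi_exm (s : Multiset ℕ) : Psi (mono (exm s)) = (s.map jet).prod := by
  induction s using Multiset.induction_on with
  | empty =>
    rw [Multiset.map_zero, Multiset.prod_zero, exm, Multiset.map_zero, Multiset.sum_zero, mono_zero,
      Psi_one]
  | cons a s ih =>
    rw [Multiset.map_cons, Multiset.prod_cons, ← ih, ← Psi_u,
      ← Psi_mul (u_mem_AN _ _) (mono_mem_SP (exm_pos s)), u, mono_mul, exm, Multiset.map_cons,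
      Multiset.sum_cons]
    rfl

theorem exm_inj {s t : Multiset ℕ} (h : exm s = exm t) : s = t := by
  classical
  ext i
  have := congrArg (fun e : Ex => e i) h
  simp only [exm_apply] at this
  exact_mod_cast this

theorem exists_partition {k : ℕ} {e : Ex} (he : PP e) (hk : wt e = k) :
    ∃ lam : k.Partition, Admissible lam ∧ exm lam.parts = e := by
  classical
  obtain ⟨h1, h2, M, hM2, hM⟩ := he
  set e' : ℕ →₀ ℕ := e.mapRange Int.toNat (by simp) with he'
  have hcount : ∀ i, (Finsupp.toMultiset e').count i = (e i).toNat := by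
    intro i
    rw [Finsupp.count_toMultiset, he', Finsupp.mapRange_apply]
  have hex : exm (Finsupp.toMultiset e') = e := by
    ext i
    rw [exm_apply, hcount, Int.toNat_of_nonneg (h1 i (by simp))]
  have hmem : ∀ i ∈ Finsupp.toMultiset e', 2 ≤ i := by
    intro i hi
    rw [← Multiset.count_pos, hcount] at hi
    by_contra h
    rw [h2 i (by omega)] at hi
    simp at hi
  refine ⟨⟨Finsupp.toMultiset e', fun {i} hi => by have := hmem i hi; omega, ?_⟩, ⟨hmem, M, ?_, ?_⟩,
    hex⟩
  · have h3 : (((Finsupp.toMultiset e').sum : ℕ) : ℤ) = wt e := by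
      rw [← hex, wt, exm]
      induction (Finsupp.toMultiset e') using Multiset.induction_on with
      | empty => simp
      | cons a s ih =>
        rw [Multiset.sum_cons, Multiset.map_cons, Multiset.sum_cons, map_add, ← ih]
        push_cast
        congr 1
        have := wt_dl a
        rw [wt] at this
        exact this.symm
    rw [hk] at h3
    exact_mod_cast h3
  · rw [hcount]; omega
  · intro i hi
    rw [← Multiset.count_pos, hcount] at hi
    by_contra h
    rw [hM i (by omega)] at hi
    simp at hi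

open Classical in
/-- expansion of a normal form in admissible monomials -/
theorem Psi_expand {k : ℕ} {l : ℤ} {s : LL} (hs : s ∈ SP PP) (hB : s ∈ BH k l) :
    Psi s = ∑ lam : k.Partition, if Admissible lam then
      const (s.coeff (exm lam.parts)) * jetMonomial lam else 0 := by
  have h1 : s = ∑ lam : k.Partition, if Admissible lam then
      s.coeff (exm lam.parts) • mono (exm lam.parts) else 0 := by
    rw [← Finset.sum_filter]
    rw [← Finset.sum_image (s := Finset.univ.filter (fun lam : k.Partition => Admissible lam))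
      (g := fun lam : k.Partition => exm lam.parts) (f := fun e : Ex => s.coeff e • mono e)]
    · conv_lhs => rw [eq_sum_mono s]
      apply Finset.sum_subset
      · intro e he
        rw [Finsupp.mem_support_iff] at he
        obtain ⟨lam, hlam, hex⟩ := exists_partition (hs e he) (hB e he).1
        rw [Finset.mem_image]
        exact ⟨lam, by simpa using hlam, hex⟩
      · intro e _ he
        rw [Finsupp.notMem_support_iff] at he
        rw [he, zero_smul]
    · intro a _ b _ hab
      exact Nat.Partition.ext (exm_inj hab)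
  conv_lhs => rw [h1]
  rw [map_sum]
  apply Finset.sum_congr rfl
  intro lam _
  split_ifs
  · rw [map_smul, Psi_exm, smul_eq_const]; rfl
  · rw [map_zero]

end Pool.Agent.H87
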