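import Pool.Agent.H87.Rec

/-!
# The modified flows killing `u 1`, and the Poincare lemma
-/

noncomputable section

namespace Pool.Agent.H87

open Finset

/-- modified flow, killing `u 1` -/
def XX (a : LL) : Derivation ℂ LL LL := flow a - (ui 2 * flow a (u 1)) • dx

theorem XX_apply (a f : LL) : XX a f = flow a f - ui 2 * flow a (u 1) * dx f := by
  simp [XX]

theorem der_ui (D : Derivation ℂ LL LL) (j : ℕ) : D (ui j) = - (ui j * ui j * D (u j)) := by
  have h : D (u j * ui j) = 0 := by rw [u_mul_ui, Derivation.map_one_eq_zero]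
  rw [Derivation.leibniz, smul_eq_mul, smul_eq_mul] at h
  have h2 : ui j * (u j * D (ui j) + ui j * D (u j)) = 0 := by rw [h, mul_zero]
  have h3 : ui j * (u j * D (ui j)) = D (ui j) := by rw [← mul_assoc, ui_mul_u, one_mul]
  rw [mul_add, h3] at h2
  rw [eq_neg_iff_add_eq_zero, ← h2]
  ring

theorem XX_u_one (a : LL) : XX a (u 1) = 0 := by
  rw [XX_apply, dx_u]
  have : ui 2 * flow a (u 1) * u (1 + 1) = flow a (u 1) * (ui 2 * u 2) := by ring
  rw [this, ui_mul_u, mul_one, sub_self]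

theorem XX_comm (a b f : LL) : XX a (XX b f) - XX b (XX a f) = XX (brk b a) f := by
  have e1 : flow (brk b a) (u 1) = flow a (flow b (u 1)) - flow b (flow a (u 1)) :=
    (flow_comm a b (u 1)).symm
  have e2 : flow (brk b a) f = flow a (flow b f) - flow b (flow a f) := (flow_comm a b f).symm
  have e3 : ∀ c : LL, flow c (u 2) = dx (flow c (u 1)) := by
    intro c
    have : u 2 = dx (u 1) := by simp
    rw [this, flow_dx]
  simp only [XX_apply, map_sub, Derivation.leibniz, smul_eq_mul, der_ui, e1, e2, e3, flow_dx]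
  ring

theorem XX_add (a b f : LL) : XX (a + b) f = XX a f + XX b f := by
  simp only [XX_apply, flow_add]; ring

theorem XX_smul (c : ℂ) (a f : LL) : XX (c • a) f = c • XX a f := by
  simp only [XX_apply, flow_smul, mul_smul_comm, smul_mul_assoc, smul_sub]

theorem XX_zero (f : LL) : XX 0 f = 0 := by
  simp only [XX_apply, flow_zero]; ring

theorem XX_sum {ι : Type*} (s : Finset ι) (a : ι → LL) (f : LL) :
    XX (∑ i ∈ s, a i) f = ∑ i ∈ s, XX (a i) f := by
  classical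
  induction s using Finset.induction_on with
  | empty => simp [XX_zero]
  | insert a s ha ih => rw [Finset.sum_insert ha, Finset.sum_insert ha, XX_add, ih]

theorem XX_u_zero (f : LL) : XX (u 0) f = 0 := by
  rw [XX_apply, flow_u_zero, flow_u_zero, dx_u, ui_mul_u, one_mul, sub_self]

theorem XX_one (f : LL) : XX 1 f = 0 := by
  rw [XX_apply, flow, Derivation.map_one_eq_zero, evo_zero, evo_zero]; ring

theorem pd_ui (i j : ℕ) (h : j ≠ i) : pd i (ui j) = 0 := by
  rw [der_ui, pd_u, if_neg h]; simp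

theorem pd_zero_XX (a f : LL) : pd 0 (XX a f) = XX a (pd 0 f) + XX (pd 0 a) f := by
  simp only [XX_apply, map_sub, Derivation.leibniz, smul_eq_mul, pd_zero_flow, pd_zero_dx]
  rw [pd_ui 0 2 (by norm_num), pd_u, if_neg (by norm_num)]
  simp only [map_zero]
  ring

theorem BH_XX {k l k' l' : ℤ} {a f : LL} (ha : a ∈ BH k' l') (hf : f ∈ BH k l) :
    XX a f ∈ BH (k + k' + 1) (l + l' - 1) := by
  rw [XX_apply]
  refine Submodule.sub_mem _ (BH_flow ha hf) ?_
  have h1 := BH_mul (ui_mem_BH 2) (BH_flow ha (u_mem_BH 1))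
  exact BH_cast (BH_mul h1 (BH_dx hf)) (by push_cast; ring) (by ring)

theorem AN_XX {N : Set ℕ} (hN : 2 ∈ N) {a f : LL} (ha : a ∈ AN N) (hf : f ∈ AN N) :
    XX a f ∈ AN N := by
  rw [XX_apply]
  exact (AN N).sub_mem (AN_flow ha hf)
    ((AN N).mul_mem ((AN N).mul_mem (ui_mem_AN hN) (AN_flow ha (u_mem_AN N 1))) (AN_dx hf))

/-- Laurent polynomials where only `u 2` is inverted -/
abbrev A2 : Subalgebra ℂ LL := AN {2}

theorem two_mem : (2 : ℕ) ∈ ({2} : Set ℕ) := rfl

/-- the ideal of `A2` generated by `u 1` -/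
def I1 : Submodule ℂ LL := SP (fun e => PN {2} e ∧ 1 ≤ e 1)

theorem I1_mul {a b : LL} (ha : a ∈ A2) (hb : b ∈ I1) : a * b ∈ I1 := by
  refine SP_mul (P := PN {2}) (Q := fun e => PN {2} e ∧ 1 ≤ e 1) ?_ ha hb
  intro e f he hf
  refine ⟨fun i hi => ?_, ?_⟩
  · rw [Finsupp.add_apply]; exact add_nonneg (he i hi) (hf.1 i hi)
  · rw [Finsupp.add_apply]
    have h1 := he 1 (by norm_num)
    have h2 := hf.2
    omega

theorem u_one_mem_I1 : u 1 ∈ I1 := by
  apply mono_mem_SP
  refine ⟨fun i _ => ?_, by simp [dl]⟩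
  rw [dl, Finsupp.single_apply]
  split_ifs <;> norm_num

theorem I1_le_A2 {f : LL} (hf : f ∈ I1) : f ∈ A2 := SP_mono (fun _ h => h.1) hf

theorem I1_factor {f : LL} (hf : f ∈ I1) : ui 1 * f ∈ A2 := by
  refine SP_mul (P := fun e => e = -dl 1) (Q := fun e => PN {2} e ∧ 1 ≤ e 1) ?_
    (mono_mem_SP rfl) hf
  rintro e f rfl hf i hi
  rw [Finsupp.add_apply, Finsupp.neg_apply, dl, Finsupp.single_apply]
  have h1 := hf.1 i hi
  split_ifs with h
  · subst h; have := hf.2; omega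
  · omega

theorem XX_I1 {a f : LL} (ha : a ∈ A2) (hf : f ∈ I1) : XX a f ∈ I1 := by
  have h1 : f = (ui 1 * f) * u 1 := by
    rw [mul_comm (ui 1), mul_assoc, ui_mul_u, mul_one]
  rw [h1, Derivation.leibniz, XX_u_one, smul_zero, zero_add, smul_eq_mul, mul_comm]
  exact I1_mul (AN_XX two_mem ha (I1_factor hf)) u_one_mem_I1

/-- setting `u 0 = u 1 = 0` -/
def p0 : LL →ₗ[ℂ] LL := keep (fun e => e 0 = 0 ∧ e 1 = 0)

theorem p0_I1 {f : LL} (hf : f ∈ I1) : p0 f = 0 := by
  apply keep_eq_zero_iff.mpr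
  refine SP_mono ?_ hf
  rintro e ⟨_, h⟩ ⟨_, h'⟩
  omega

theorem p0_mul {a b : LL} (ha : a ∈ A2) (hb : b ∈ A2) : p0 (a * b) = p0 a * p0 b := by
  refine SP_ind (P := PN {2}) (Φ := fun a => p0 (a * b) = p0 a * p0 b) ?_ ?_ ?_ ha
  · simp
  · intro f g _ _ hf hg; rw [add_mul, map_add, hf, hg, map_add, add_mul]
  · intro c e he
    refine SP_ind (P := PN {2}) (Φ := fun b => p0 (c • mono e * b) = p0 (c • mono e) * p0 b)
      ?_ ?_ ?_ hb
    · simp
    · intro f g _ _ hf hg; rw [mul_add, map_add, hf, hg, map_add, mul_add]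
    · intro c' e' he'
      rw [smul_mul_smul_comm, mono_mul, map_smul, map_smul, map_smul, smul_mul_smul_comm]
      congr 1
      have h0 := he 0 (by norm_num)
      have h1 := he 1 (by norm_num)
      have h0' := he' 0 (by norm_num)
      have h1' := he' 1 (by norm_num)
      by_cases h : e 0 = 0 ∧ e 1 = 0
      · by_cases h' : e' 0 = 0 ∧ e' 1 = 0
        · rw [p0, keep_mono_pos (e := e) h, keep_mono_pos (e := e') h', mono_mul, keep_mono_pos]
          simp only [Finsupp.add_apply]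
          omega
        · rw [p0, keep_mono_neg (e := e') h', mul_zero, keep_mono_neg]
          simp only [Finsupp.add_apply]
          omega
      · rw [p0, keep_mono_neg (e := e) h, zero_mul, keep_mono_neg]
        simp only [Finsupp.add_apply]
        omega

theorem p0_u {j : ℕ} (hj : 2 ≤ j) : p0 (u j) = u j := by
  apply keep_mono_pos
  simp only [dl]
  rw [Finsupp.single_apply, Finsupp.single_apply, if_neg (by omega), if_neg (by omega)]
  exact ⟨rfl, rfl⟩

theorem p0_u_zero : p0 (u 0) = 0 := by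
  apply keep_mono_neg
  simp [dl]

theorem p0_u_one : p0 (u 1) = 0 := by
  apply keep_mono_neg
  simp [dl]

theorem p0_ui_two : p0 (ui 2) = ui 2 := by
  apply keep_mono_pos
  simp [dl]

theorem p0_algebraMap (c : ℂ) : p0 (algebraMap ℂ LL c) = algebraMap ℂ LL c := by
  rw [Algebra.algebraMap_eq_smul_one, map_smul, ← mono_zero]
  congr 1
  exact keep_mono_pos (by simp)

/-- exponents of `A2` not involving `u 0, u 1` -/
def PJ (e : Ex) : Prop := (e 0 = 0 ∧ e 1 = 0) ∧ PN {2} e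

theorem PJ_add {e f : Ex} (he : PJ e) (hf : PJ f) : PJ (e + f) := by
  obtain ⟨⟨h0, h1⟩, h⟩ := he
  obtain ⟨⟨h0', h1'⟩, h'⟩ := hf
  refine ⟨⟨by simp [h0, h0'], by simp [h1, h1']⟩, fun i hi => ?_⟩
  rw [Finsupp.add_apply]; exact add_nonneg (h i hi) (h' i hi)

/-- bihomogeneous Laurent polynomials in `u 2, u 3, ...`, polynomial in `u 3, u 4, ...` -/
def JJ (k l : ℤ) : Submodule ℂ LL := SP (fun e => PJ e ∧ (wt e = k ∧ ln e = l))

theorem JJ_le_A2 {k l : ℤ} {f : LL} (hf : f ∈ JJ k l) : f ∈ A2 := SP_mono (fun _ h => h.1.2) hf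

theorem JJ_le_BH {k l : ℤ} {f : LL} (hf : f ∈ JJ k l) : f ∈ BH k l := SP_mono (fun _ h => h.2) hf

theorem JJ_cast {k l k' l' : ℤ} {f : LL} (hf : f ∈ JJ k l) (hk : k = k') (hl : l = l') :
    f ∈ JJ k' l' := hk ▸ hl ▸ hf

theorem p0_of_JJ {k l : ℤ} {f : LL} (hf : f ∈ JJ k l) : p0 f = f :=
  keep_of_mem (SP_mono (fun _ h => h.1.1) hf)

theorem p0_mem_JJ {k l : ℤ} {f : LL} (hA : f ∈ A2) (hf : f ∈ BH k l) : p0 f ∈ JJ k l :=
  SP_mono (fun _ h => ⟨⟨h.1, h.2.1⟩, h.2.2⟩) (keep_mem (SP_and hA hf))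

theorem JJ_mul {k l k' l' : ℤ} {a b : LL} (ha : a ∈ JJ k l) (hb : b ∈ JJ k' l') :
    a * b ∈ JJ (k + k') (l + l') :=
  SP_mul (fun e f he hf => ⟨PJ_add he.1 hf.1,
    by rw [map_add, he.2.1, hf.2.1], by rw [map_add, he.2.2, hf.2.2]⟩) ha hb

theorem one_mem_JJ : (1 : LL) ∈ JJ 0 0 := by
  rw [← mono_zero]
  apply mono_mem_SP
  exact ⟨⟨⟨rfl, rfl⟩, fun i _ => by simp⟩, by simp⟩

theorem JJ_pow {k l : ℤ} {a : LL} (ha : a ∈ JJ k l) (n : ℕ) : a ^ n ∈ JJ (n * k) (n * l) := by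
  induction n with
  | zero => simpa using one_mem_JJ
  | succ n ih =>
    rw [pow_succ]
    exact JJ_cast (JJ_mul ih ha) (by push_cast; ring) (by push_cast; ring)

theorem u_mem_JJ {j : ℕ} (hj : 2 ≤ j) : u j ∈ JJ j 1 := by
  have := p0_mem_JJ (u_mem_AN {2} j) (u_mem_BH j)
  rwa [p0_u hj] at this

theorem ui_mem_JJ : ui 2 ∈ JJ (-2) (-1) := by
  have := p0_mem_JJ (ui_mem_AN two_mem) (ui_mem_BH 2)
  rw [p0_ui_two] at this
  exact JJ_cast this (by norm_num) rfl

theorem PJ_le {e : Ex} (he : PJ e) : 2 * ln e ≤ wt e := by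
  rw [ln_eq e (Finset.Subset.refl _), wt_eq e (Finset.Subset.refl _), Finset.mul_sum]
  apply Finset.sum_le_sum
  intro j hj
  obtain ⟨⟨h0, h1⟩, h⟩ := he
  by_cases hj0 : j = 0
  · subst hj0; simp [h0]
  by_cases hj1 : j = 1
  · subst hj1; simp [h1]
  by_cases hj2 : j = 2
  · subst hj2; push_cast; exact le_rfl
  · have h2 := h j hj2
    have h3 : (2 : ℤ) ≤ j := by omega
    exact mul_le_mul_of_nonneg_right h3 h2

theorem PJ_two {e : Ex} (he : PJ e) : 3 * ln e - wt e ≤ e 2 := by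
  classical
  have hs : e.support ⊆ insert 2 e.support := Finset.subset_insert _ _
  rw [ln_eq e hs, wt_eq e hs, Finset.mul_sum, ← Finset.sum_sub_distrib]
  have h2 : e 2 = ∑ j ∈ insert 2 e.support, if j = 2 then e j else 0 := by
    rw [Finset.sum_ite_eq' (insert 2 e.support) 2 (fun j => e j)]
    simp
  rw [h2]
  apply Finset.sum_le_sum
  intro j hj
  obtain ⟨⟨h0, h1⟩, h⟩ := he
  by_cases hj0 : j = 0
  · subst hj0; simp [h0]
  by_cases hj1 : j = 1
  · subst hj1; simp [h1]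
  by_cases hj2 : j = 2
  · subst hj2; rw [if_pos rfl]; push_cast; linarith
  · rw [if_neg hj2]
    have h2 := h j hj2
    have h3 : (3 : ℤ) ≤ j := by omega
    nlinarith

theorem JJ_eq_zero {k l : ℤ} {f : LL} (hf : f ∈ JJ k l) (h : k < 2 * l) : f = 0 := by
  apply LL_ext
  intro e
  by_contra he
  obtain ⟨h1, h2, h3⟩ := hf e he
  have := PJ_le h1
  rw [h2, h3] at this
  omega

theorem JJ_bottom {r : ℕ} {f : LL} (hf : f ∈ JJ (2 * r) r) : ∃ c : ℂ, f = c • u 2 ^ r := by
  have hmono : u 2 ^ r = mono ((r : ℤ) • dl 2) := by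
    induction r with
    | zero => simp [mono_zero]
    | succ r ih => 
      have : ∀ n : ℕ, u 2 ^ n = mono ((n : ℤ) • dl 2) := by
        intro n
        induction n with
        | zero => simp [mono_zero]
        | succ n ih => rw [pow_succ, ih, u, mono_mul]; congr 1; push_cast; rw [add_smul, one_smul]
      exact this _
  refine SP_ind (Φ := fun f => ∃ c : ℂ, f = c • u 2 ^ r) ?_ ?_ ?_ hf
  · exact ⟨0, by simp⟩
  · rintro f g _ _ ⟨c, rfl⟩ ⟨c', rfl⟩
    exact ⟨c + c', by rw [add_smul]⟩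
  · rintro c e ⟨h1, h2, h3⟩
    refine ⟨c, ?_⟩
    rw [hmono]
    congr 2
    -- all exponents at indices `≥ 3` vanish
    have hz : ∀ i, i ≠ 2 → e i = 0 := by
      intro i hi
      by_contra hne
      obtain ⟨⟨h0, h1'⟩, h⟩ := h1
      have hi0 : i ≠ 0 := fun h' => hne (h' ▸ h0)
      have hi1 : i ≠ 1 := fun h' => hne (h' ▸ h1')
      have hlt : 2 * ln e < wt e := by
        rw [ln_eq e (Finset.Subset.refl _), wt_eq e (Finset.Subset.refl _), Finset.mul_sum]
        apply Finset.sum_lt_sum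
        · intro j hj
          by_cases hj0 : j = 0
          · subst hj0; simp [h0]
          by_cases hj1 : j = 1
          · subst hj1; simp [h1']
          by_cases hj2 : j = 2
          · subst hj2; push_cast; exact le_rfl
          · have h2 := h j hj2
            have h3 : (2 : ℤ) ≤ j := by omega
            exact mul_le_mul_of_nonneg_right h3 h2
        · refine ⟨i, by simpa using hne, ?_⟩
          have h2 := h i hi
          have h3 : (2 : ℤ) < i := by omega
          have h4 : 0 < e i := lt_of_le_of_ne h2 (Ne.symm hne)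
          exact mul_lt_mul_of_pos_right h3 h4
      rw [h2, h3] at hlt
      omega
    have hs : e.support ⊆ {2} := by
      intro i hi
      rw [Finsupp.mem_support_iff] at hi
      by_contra h'
      exact hi (hz i (by simpa using h'))
    have hl := ln_eq e hs
    rw [h3, Finset.sum_singleton] at hl
    ext i
    by_cases hi : i = 2
    · subst hi; simp [dl, hl]
    · rw [hz i hi]; simp [dl, Ne.symm hi]

/-! ### the reduced vector fields -/

/-- reduction of the modified flows to `u 0 = u 1 = 0` -/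
def DD (i : ℕ) : Derivation ℂ LL LL := der (fun j => p0 (dx^[j] (dx (G0 i))))

theorem dx_G0 (i : ℕ) : dx (G0 (i + 1)) = G0 i * u 1 := by
  rw [G0, G0, Derivation.map_smul, Derivation.leibniz_pow, dx_u]
  simp only [Nat.add_sub_cancel, smul_eq_mul, zero_add]
  rw [← Nat.cast_smul_eq_nsmul ℂ, smul_smul, smul_mul_assoc]
  congr 1
  rw [Nat.factorial_succ (i + 1)]
  push_cast
  have h1 : ((i : ℂ) + 1 + 1) ≠ 0 := by exact_mod_cast (i + 1).succ_ne_zero
  have h2 : (((i + 1).factorial : ℕ) : ℂ) ≠ 0 := by exact_mod_cast (i + 1).factorial_ne_zero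
  field_simp

theorem p0_G0 (i : ℕ) : p0 (G0 i) = 0 := by
  rw [G0, map_smul, pow_succ, p0_mul ((AN {2}).pow_mem (u_mem_AN _ 0) _) (u_mem_AN _ 0),
    p0_u_zero, mul_zero, smul_zero]

theorem DD_intertwine {i : ℕ} {f : LL} (hf : f ∈ A2) :
    p0 (XX (G0 (i + 1)) f) = DD (i + 1) (p0 f) := by
  have hG : ∀ i, G0 i ∈ A2 := fun i => G0_mem_AN _ i
  have hX : ∀ f ∈ A2, XX (G0 (i + 1)) f ∈ A2 := fun f hf => AN_XX two_mem (hG _) hf
  have hp : ∀ f ∈ A2, p0 f ∈ A2 := fun f hf => SP_mono (fun _ h => h.2) (keep_mem hf)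
  have hfl : p0 (ui 2 * flow (G0 (i + 1)) (u 1)) = 0 := by
    rw [p0_mul (ui_mem_AN two_mem) (AN_flow (hG _) (u_mem_AN _ _))]
    have : flow (G0 (i + 1)) (u 1) = u 1 * dx (G0 i) + G0 i * u 2 := by
      rw [flow, evo_u, Function.iterate_one, dx_G0, Derivation.leibniz, dx_u, smul_eq_mul,
        smul_eq_mul]
      ring
    rw [this, map_add, p0_mul (u_mem_AN _ _) (AN_dx (hG _)), p0_mul (hG _) (u_mem_AN _ _),
      p0_u_one, p0_G0]
    simp
  have hflA : ui 2 * flow (G0 (i + 1)) (u 1) ∈ A2 :=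
    (AN {2}).mul_mem (ui_mem_AN two_mem) (AN_flow (hG _) (u_mem_AN _ _))
  have huj : ∀ j, 2 ≤ j → p0 (XX (G0 (i + 1)) (u j)) = DD (i + 1) (u j) := by
    intro j hj
    rw [XX_apply, map_sub, p0_mul hflA (AN_dx (u_mem_AN _ _)), hfl, zero_mul, sub_zero, flow,
      evo_u, DD, der_u]
  refine AN_ind (N := {2}) (Φ := fun f => p0 (XX (G0 (i + 1)) f) = DD (i + 1) (p0 f))
    ?_ ?_ ?_ ?_ ?_ hf
  · intro c
    rw [p0_algebraMap, Derivation.map_algebraMap, Derivation.map_algebraMap, map_zero]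
  · intro j
    by_cases hj0 : j = 0
    · subst hj0
      rw [XX_apply, map_sub, p0_mul hflA (AN_dx (u_mem_AN _ _)), hfl, zero_mul, sub_zero, flow,
        evo_u, Function.iterate_zero_apply, dx_G0, p0_mul (hG _) (u_mem_AN _ _), p0_u_one,
        mul_zero, p0_u_zero, map_zero]
    · by_cases hj1 : j = 1
      · subst hj1
        rw [XX_u_one, p0_u_one, map_zero, map_zero]
      · rw [huj j (by omega), p0_u (by omega)]
  · rintro j hj
    have hj2 : j = 2 := hj
    subst hj2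
    rw [der_ui, map_neg, p0_mul ((AN {2}).mul_mem (ui_mem_AN two_mem) (ui_mem_AN two_mem))
      (hX _ (u_mem_AN _ _)), p0_mul (ui_mem_AN two_mem) (ui_mem_AN two_mem), huj 2 le_rfl,
      p0_ui_two, der_ui]
  · intro f g _ _ hf hg
    rw [map_add, map_add, hf, hg, map_add, map_add]
  · intro f g hfA hgA hf hg
    rw [Derivation.leibniz, smul_eq_mul, smul_eq_mul, map_add, p0_mul hfA (hX _ hgA),
      p0_mul hgA (hX _ hfA), hf, hg, p0_mul hfA hgA, Derivation.leibniz, smul_eq_mul, smul_eq_mul]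

theorem DD_eq {i : ℕ} {k l : ℤ} {f : LL} (hf : f ∈ JJ k l) :
    DD (i + 1) f = p0 (XX (G0 (i + 1)) f) := by
  rw [DD_intertwine (JJ_le_A2 hf), p0_of_JJ hf]

theorem DD_mem {i : ℕ} {k l : ℤ} {f : LL} (hf : f ∈ JJ k l) :
    DD (i + 1) f ∈ JJ (k + 1) (l + (i + 1)) := by
  rw [DD_eq hf]
  apply p0_mem_JJ (AN_XX two_mem (G0_mem_AN _ _) (JJ_le_A2 hf))
  exact BH_cast (BH_XX (BH_G0 (i + 1)) (JJ_le_BH hf)) (by ring) (by push_cast; ring)

theorem DD_comm {i j : ℕ} {k l : ℤ} {f : LL} (hf : f ∈ JJ k l) :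
    DD (i + 1) (DD (j + 1) f) = DD (j + 1) (DD (i + 1) f) := by
  have h : ∀ i j, DD (i + 1) (DD (j + 1) f) = p0 (XX (G0 (i + 1)) (XX (G0 (j + 1)) f)) := by
    intro i j
    rw [DD_eq (i := j) hf, ← DD_intertwine (AN_XX two_mem (G0_mem_AN _ _) (JJ_le_A2 hf))]
  rw [h, h, ← sub_eq_zero, ← map_sub, XX_comm, brk_G0, XX_zero, map_zero]

theorem DD_u_low {i j : ℕ} (h : j ≤ 2 * (i + 1)) : DD (i + 1) (u j) = 0 := by
  have h1 : p0 (dx^[j] (dx (G0 (i + 1)))) ∈ JJ ((j : ℤ) + 1) (i + 2) := by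
    apply p0_mem_JJ (AN_dx_iter (AN_dx (G0_mem_AN _ _)) _)
    exact BH_cast (BH_dx_iter (BH_dx (BH_G0 _)) _) (by ring) (by push_cast; ring)
  rw [DD, der_u]
  exact JJ_eq_zero h1 (by omega)

theorem p0_pd_two (f : LL) : p0 (pd 2 f) = pd 2 (p0 f) := by
  apply LL_ext
  intro e
  rw [coeff_pd]
  by_cases h : e 0 = 0 ∧ e 1 = 0
  · rw [p0, coeff_keep_pos _ h, coeff_pd, coeff_keep_pos]
    simpa [dl] using h
  · rw [p0, coeff_keep_neg _ h, coeff_keep_neg, mul_zero]
    simpa [dl] using h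

theorem pd_one_dx_iter (f : LL) (h1 : pd 1 f = 0) (n : ℕ) :
    pd 1 (dx^[n + 1] f) = ((n : ℂ) + 1) • dx^[n] (pd 0 f) := by
  induction n with
  | zero =>
    rw [zero_add, Function.iterate_one, pd_succ_dx, h1]
    simp
  | succ n ih =>
    rw [Function.iterate_succ_apply', pd_succ_dx, ih, Derivation.map_smul,
      ← Function.iterate_succ_apply' dx n, pd_zero_dx_iter, Function.iterate_succ_apply]
    push_cast
    rw [add_smul ((n : ℂ) + 1) 1, one_smul]

theorem pd_two_dx_iter (f : LL) (h1 : pd 1 f = 0) (h2 : pd 2 f = 0) (n : ℕ) :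
    pd 2 (dx^[n + 2] f) = (((n : ℂ) + 2) * (n + 1) / 2) • dx^[n] (pd 0 f) := by
  induction n with
  | zero =>
    have e1 : dx^[0 + 2] f = dx (dx f) := rfl
    rw [e1, pd_succ_dx, pd_succ_dx, h2, h1, map_zero, pd_succ_dx, h1, map_zero]
    simp
  | succ n ih =>
    rw [Function.iterate_succ_apply', pd_succ_dx, ih, pd_one_dx_iter f h1, Derivation.map_smul,
      ← Function.iterate_succ_apply' dx n, ← add_smul]
    congr 1
    push_cast
    ring

theorem W_ne_zero (r : ℕ) : p0 (dx^[2 * r] (u 0 ^ r)) ≠ 0 := by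
  induction r with
  | zero =>
    have : p0 (dx^[2 * 0] (u 0 ^ 0)) = 1 := by
      rw [mul_zero, Function.iterate_zero_apply, pow_zero, ← mono_zero]
      exact keep_mono_pos (by simp)
    rw [this]
    intro h
    have := congrArg (fun f : LL => f.coeff 0) h
    rw [← mono_zero] at this
    simp [coeff_mono] at this
  | succ r ih =>
    intro h
    have h1 : pd 1 (u 0 ^ (r + 1)) = 0 := by rw [Derivation.leibniz_pow, pd_u]; simp
    have h2 : pd 2 (u 0 ^ (r + 1)) = 0 := by rw [Derivation.leibniz_pow, pd_u]; simp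
    have h3 := pd_two_dx_iter _ h1 h2 (2 * r)
    have h4 : pd 0 (u 0 ^ (r + 1)) = ((r : ℂ) + 1) • u 0 ^ r := by
      rw [Derivation.leibniz_pow, pd_u, if_pos rfl, smul_eq_mul, mul_one, Nat.add_sub_cancel,
        ← Nat.cast_smul_eq_nsmul ℂ]
      push_cast; rfl
    rw [h4, dx_iter_smul, smul_smul] at h3
    have h5 := congrArg p0 h3
    rw [p0_pd_two, map_smul] at h5
    have h6 : 2 * (r + 1) = 2 * r + 2 := by ring
    rw [h6] at h
    rw [h, map_zero] at h5
    rcases smul_eq_zero.mp h5.symm with h7 | h7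
    · push_cast at h7
      have e1 : ((2 : ℂ) * r + 2) ≠ 0 := by
        have : ((2 * r + 2 : ℕ) : ℂ) ≠ 0 := Nat.cast_ne_zero.mpr (by omega)
        push_cast at this; exact this
      have e2 : ((2 : ℂ) * r + 1) ≠ 0 := by
        have : ((2 * r + 1 : ℕ) : ℂ) ≠ 0 := Nat.cast_ne_zero.mpr (by omega)
        push_cast at this; exact this
      have e3 : ((r : ℂ) + 1) ≠ 0 := by exact_mod_cast r.succ_ne_zero
      simp [e1, e2, e3] at h7
    · exact ih h7

theorem DD_u_top (i : ℕ) : ∃ c : ℂ, c ≠ 0 ∧ DD (i + 1) (u (2 * (i + 1) + 1)) = c • u 2 ^ (i + 2) := by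
  have h1 : DD (i + 1) (u (2 * (i + 1) + 1)) =
      ((i + 2).factorial : ℂ)⁻¹ • p0 (dx^[2 * (i + 2)] (u 0 ^ (i + 2))) := by
    rw [DD, der_u, G0, ← Function.iterate_succ_apply, dx_iter_smul, map_smul]
    rfl
  have h2 : p0 (dx^[2 * (i + 2)] (u 0 ^ (i + 2))) ∈ JJ (2 * ((i + 2 : ℕ) : ℤ)) ((i + 2 : ℕ) : ℤ) := by
    apply p0_mem_JJ (AN_dx_iter ((AN {2}).pow_mem (u_mem_AN _ 0) _) _)
    exact BH_cast (BH_dx_iter (BH_pow (u_mem_BH 0) _) _) (by push_cast; ring) (by push_cast; ring)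
  obtain ⟨c, hc⟩ := JJ_bottom h2
  have h3 := W_ne_zero (i + 2)
  refine ⟨((i + 2).factorial : ℂ)⁻¹ * c, ?_, ?_⟩
  · apply mul_ne_zero
    · exact inv_ne_zero (by exact_mod_cast (i + 2).factorial_ne_zero)
    · rintro rfl
      rw [hc, zero_smul] at h3
      exact h3 rfl
  · rw [h1, hc, smul_smul]

theorem DD_ui_two (i : ℕ) : DD (i + 1) (ui 2) = 0 := by
  rw [der_ui, DD_u_low (by omega)]; simp

/-- slices -/
theorem exists_slice (i : ℕ) : ∃ s ∈ JJ (-1) (-((i : ℤ) + 1)), DD (i + 1) s = 1 ∧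
    ∀ j, i < j → DD (j + 1) s = 0 := by
  obtain ⟨c, hc, h⟩ := DD_u_top i
  have hpow : ∀ (j n : ℕ), DD (j + 1) (ui 2 ^ n) = 0 := by
    intro j n
    rw [Derivation.leibniz_pow, DD_ui_two]; simp
  refine ⟨c⁻¹ • (u (2 * (i + 1) + 1) * ui 2 ^ (i + 2)), ?_, ?_, ?_⟩
  · apply Submodule.smul_mem
    exact JJ_cast (JJ_mul (u_mem_JJ (by omega)) (JJ_pow ui_mem_JJ (i + 2)))
      (by push_cast; ring) (by push_cast; ring)
  · rw [Derivation.map_smul, Derivation.leibniz, hpow, smul_zero, zero_add, h, smul_eq_mul,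
      mul_smul_comm, smul_smul, inv_mul_cancel₀ hc, one_smul, ← mul_pow, ui_mul_u, one_pow]
  · intro j hj
    rw [Derivation.map_smul, Derivation.leibniz, hpow, smul_zero, zero_add,
      DD_u_low (by omega), smul_zero, smul_zero]

/-- antiderivatives along one of the fields, invisible to the later ones -/
theorem antider (i : ℕ) {s : LL} (hs : s ∈ JJ (-1) (-((i : ℤ) + 1))) (hs1 : DD (i + 1) s = 1)
    (hs0 : ∀ j, i < j → DD (j + 1) s = 0) (N : ℕ) : ∀ (r : ℕ) (k l : ℤ) (z : LL), z ∈ JJ k l →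
    (DD (i + 1))^[N] z = 0 → (∀ j, i < j → DD (j + 1) z = 0) →
    ∃ w ∈ JJ (k - (r + 1)) (l - (r + 1) * (i + 1)), DD (i + 1) w = s ^ r * z ∧
      ∀ j, i < j → DD (j + 1) w = 0 := by
  induction N with
  | zero =>
    intro r k l z hz h0 _
    rw [Function.iterate_zero_apply] at h0
    subst h0
    exact ⟨0, Submodule.zero_mem _, by simp, fun j _ => map_zero _⟩
  | succ N ih =>
    intro r k l z hz h0 hj
    rw [Function.iterate_succ_apply] at h0
    obtain ⟨w1, hw1, h1, h2⟩ := ih (r + 1) (k + 1) (l + (i + 1)) (DD (i + 1) z) (DD_mem hz) h0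
      (fun j hj' => by rw [DD_comm hz, hj j hj', map_zero])
    have hr : ((r : ℂ) + 1) ≠ 0 := by exact_mod_cast r.succ_ne_zero
    refine ⟨((r : ℂ) + 1)⁻¹ • (s ^ (r + 1) * z - w1), ?_, ?_, ?_⟩
    · apply Submodule.smul_mem
      apply Submodule.sub_mem
      · exact JJ_cast (JJ_mul (JJ_pow hs (r + 1)) hz) (by push_cast; ring) (by push_cast; ring)
      · exact JJ_cast hw1 (by push_cast; ring) (by push_cast; ring)
    · rw [Derivation.map_smul, map_sub, h1, Derivation.leibniz, Derivation.leibniz_pow, hs1]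
      simp only [Nat.add_sub_cancel, smul_eq_mul, mul_one]
      rw [add_sub_cancel_left, ← Nat.cast_smul_eq_nsmul ℂ, mul_smul_comm, smul_smul]
      push_cast
      rw [inv_mul_cancel₀ hr, one_smul, mul_comm]
    · intro j hj'
      rw [Derivation.map_smul, map_sub, h2 j hj', Derivation.leibniz, Derivation.leibniz_pow,
        hs0 j hj', hj j hj']
      simp

theorem DD_iter_mem {i : ℕ} {k l : ℤ} {f : LL} (hf : f ∈ JJ k l) (N : ℕ) :
    (DD (i + 1))^[N] f ∈ JJ (k + N) (l + N * (i + 1)) := by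
  induction N with
  | zero => simpa using hf
  | succ N ih =>
    rw [Function.iterate_succ_apply']
    exact JJ_cast (DD_mem ih) (by push_cast; ring) (by push_cast; ring)

theorem DD_nilp {i : ℕ} {k l : ℤ} {f : LL} (hf : f ∈ JJ k l) : ∃ N : ℕ,
    (DD (i + 1))^[N] f = 0 := by
  refine ⟨(k - 2 * l + 1).toNat, ?_⟩
  apply JJ_eq_zero (DD_iter_mem hf _)
  have h1 := Int.self_le_toNat (k - 2 * l + 1)
  set N : ℕ := (k - 2 * l + 1).toNat
  have h2 : (0 : ℤ) ≤ (N : ℤ) * i := by positivity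
  nlinarith

/-- Poincare lemma for the commuting family `DD 1, DD 2, ...` -/
theorem poincare {k l : ℤ} {c : ℕ → LL} (hc : ∀ i : ℕ, c i ∈ JJ (k + 1) (l + (i + 1)))
    (hcl : ∀ i j, DD (i + 1) (c j) = DD (j + 1) (c i)) :
    ∃ y ∈ JJ k l, ∀ i, DD (i + 1) y = c i := by
  obtain ⟨M, hM⟩ : ∃ M : ℕ, k + 1 < 2 * (l + M) := ⟨(k + 1 - 2 * l).toNat + 1, by
    have := Int.self_le_toNat (k + 1 - 2 * l)
    push_cast
    have h0 : (0 : ℤ) ≤ (k + 1 - 2 * l).toNat := by positivity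
    omega⟩
  have key : ∀ m : ℕ, ∃ y ∈ JJ k l, ∀ i, M ≤ i + m → DD (i + 1) y = c i := by
    intro m
    induction m with
    | zero =>
      refine ⟨0, Submodule.zero_mem _, fun i hi => ?_⟩
      rw [map_zero]
      symm
      apply JJ_eq_zero (hc i)
      omega
    | succ m ih =>
      obtain ⟨y, hy, h⟩ := ih
      by_cases hm : M ≤ m
      · exact ⟨y, hy, fun i _ => h i (by omega)⟩
      · have hi0 : ∃ i0, i0 + (m + 1) = M := ⟨M - (m + 1), by omega⟩
        obtain ⟨i0, hi0⟩ := hi0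
        obtain ⟨s, hs, hs1, hs0⟩ := exists_slice i0
        have hz : c i0 - DD (i0 + 1) y ∈ JJ (k + 1) (l + (i0 + 1)) :=
          Submodule.sub_mem _ (hc i0) (DD_mem hy)
        obtain ⟨N, hN⟩ := DD_nilp (i := i0) hz
        obtain ⟨w, hw, hw1, hw2⟩ := antider i0 hs hs1 hs0 N 0 _ _ _ hz hN (by
          intro j hj
          rw [map_sub, hcl j i0, DD_comm hy, h j (by omega), sub_self])
        refine ⟨y + w, ?_, ?_⟩
        · apply Submodule.add_mem _ hy
          exact JJ_cast hw (by push_cast; ring) (by push_cast; ring)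
        · intro i hi
          rw [map_add]
          by_cases hii : i = i0
          · subst hii
            rw [hw1, pow_zero, one_mul, add_sub_cancel]
          · rw [hw2 i (by omega), add_zero, h i (by omega)]
  obtain ⟨y, hy, h⟩ := key M
  exact ⟨y, hy, fun i => h i (by omega)⟩

end Pool.Agent.H87
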